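import Pool.Agent.TH398.Kernel3

set_option autoImplicit false

/-!
# Ends of arbitrary cofinality in posets of finite width
-/

namespace Pool.Agent.TH537.Spine

open Cardinal Pool.Agent.TH398

universe u

variable {P : Type u} [PartialOrder P]

/-- a decomposition into `w` chains exists -/
def FW (P : Type u) [PartialOrder P] (w : ℕ) : Prop :=
  ∃ col : P → Fin w, ∀ x y, col x = col y → x ≤ y ∨ y ≤ x

/-- the elements incomparable with `q` -/
def Inc (q : P) : Set P := {x | ¬ x ≤ q ∧ ¬ q ≤ x}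

/-- up: nonempty lower set, strictly directed; down: dual -/
structure End (P : Type u) [PartialOrder P] where
  up : Prop
  S : Set P
  ne : S.Nonempty
  upc : up → (∀ x ∈ S, ∀ y, y ≤ x → y ∈ S) ∧ (∀ x ∈ S, ∀ y ∈ S, ∃ z ∈ S, x < z ∧ y < z)
  dnc : ¬ up → (∀ x ∈ S, ∀ y, x ≤ y → y ∈ S) ∧ (∀ x ∈ S, ∀ y ∈ S, ∃ z ∈ S, z < x ∧ z < y)

namespace End

theorem ext' {a b : End P} (h1 : a.up ↔ b.up) (h2 : a.S = b.S) : a = b := by
  cases a; cases b
  simp only at h1 h2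
  subst h2
  have : _ = _ := propext h1
  subst this
  rfl

/-- elements below a tail of `e` -/
def L (e : End P) : Set P := {p | (e.up ∧ p ∈ e.S) ∨ (¬ e.up ∧ ∀ y ∈ e.S, p < y)}

/-- elements above a tail of `e` -/
def U (e : End P) : Set P := {p | (e.up ∧ ∀ y ∈ e.S, y < p) ∨ (¬ e.up ∧ p ∈ e.S)}

/-- strong order -/
def slt (a b : End P) : Prop :=
  (∃ t, t ∈ a.U ∧ t ∈ b.L) ∨ (a.up ∧ ¬ b.up ∧ ∀ x ∈ a.S, ∀ y ∈ b.S, x < y)

/-- weak order -/
def wle (a b : End P) : Prop :=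
  slt a b ∨ (a.up ∧ b.up ∧ a.S ⊆ b.S) ∨ (¬ a.up ∧ ¬ b.up ∧ b.S ⊆ a.S)

theorem mem_L_up {e : End P} (h : e.up) {p : P} : p ∈ e.L ↔ p ∈ e.S := by
  unfold L
  simp [h]

theorem mem_L_dn {e : End P} (h : ¬ e.up) {p : P} : p ∈ e.L ↔ ∀ y ∈ e.S, p < y := by
  unfold L
  simp [h]

theorem mem_U_up {e : End P} (h : e.up) {p : P} : p ∈ e.U ↔ ∀ y ∈ e.S, y < p := by
  unfold U
  simp [h]

theorem mem_U_dn {e : End P} (h : ¬ e.up) {p : P} : p ∈ e.U ↔ p ∈ e.S := by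
  unfold U
  simp [h]

theorem L_lt_U {e : End P} {p q : P} (hp : p ∈ e.L) (hq : q ∈ e.U) : p < q := by
  by_cases h : e.up
  · exact (mem_U_up h).1 hq p ((mem_L_up h).1 hp)
  · exact (mem_L_dn h).1 hp q ((mem_U_dn h).1 hq)

theorem L_lower {e : End P} {p q : P} (hp : p ∈ e.L) (hq : q ≤ p) : q ∈ e.L := by
  by_cases h : e.up
  · exact (mem_L_up h).2 ((e.upc h).1 p ((mem_L_up h).1 hp) q hq)
  · exact (mem_L_dn h).2 (fun y hy => lt_of_le_of_lt hq ((mem_L_dn h).1 hp y hy))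

theorem U_upper {e : End P} {p q : P} (hp : p ∈ e.U) (hq : p ≤ q) : q ∈ e.U := by
  by_cases h : e.up
  · exact (mem_U_up h).2 (fun y hy => lt_of_lt_of_le ((mem_U_up h).1 hp y hy) hq)
  · exact (mem_U_dn h).2 ((e.dnc h).1 p ((mem_U_dn h).1 hp) q hq)

theorem slt_irrefl (a : End P) : ¬ slt a a := by
  rintro (⟨t, h1, h2⟩ | ⟨h1, h2, -⟩)
  · exact lt_irrefl _ (L_lt_U h2 h1)
  · exact h2 h1

/-- `slt` is transported on `U` -/
theorem U_of_slt {a b : End P} (h : slt a b) {p : P} (hp : p ∈ b.U) : p ∈ a.U := by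
  rcases h with ⟨t, h1, h2⟩ | ⟨h1, h2, h3⟩
  · exact U_upper h1 (L_lt_U h2 hp).le
  · exact (mem_U_up h1).2 (fun y hy => h3 y hy p ((mem_U_dn h2).1 hp))

theorem L_of_slt {a b : End P} (h : slt a b) {p : P} (hp : p ∈ a.L) : p ∈ b.L := by
  rcases h with ⟨t, h1, h2⟩ | ⟨h1, h2, h3⟩
  · exact L_lower h2 (L_lt_U hp h1).le
  · exact (mem_L_dn h2).2 (fun y hy => h3 p ((mem_L_up h1).1 hp) y hy)

theorem slt_of_mem {a b : End P} {p : P} (ha : p ∈ a.U) (hb : p ∈ b.L) : slt a b :=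
  Or.inl ⟨p, ha, hb⟩

theorem U_of_wle {r e : End P} (h : wle r e) {p : P} (hb : p ∈ e.U) : p ∈ r.U := by
  rcases h with h | ⟨h1, h2, h3⟩ | ⟨h1, h2, h3⟩
  · exact U_of_slt h hb
  · exact (mem_U_up h1).2 (fun y hy => (mem_U_up h2).1 hb y (h3 hy))
  · exact (mem_U_dn h1).2 (h3 ((mem_U_dn h2).1 hb))

theorem L_of_wle {r e : End P} (h : wle r e) {p : P} (hb : p ∈ r.L) : p ∈ e.L := by
  rcases h with h | ⟨h1, h2, h3⟩ | ⟨h1, h2, h3⟩
  · exact L_of_slt h hb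
  · exact (mem_L_up h2).2 (h3 ((mem_L_up h1).1 hb))
  · exact (mem_L_dn h2).2 (fun y hy => (mem_L_dn h1).1 hb y (h3 hy))

/-- an up end below `b`: there is a real or `b` is down -/
theorem exists_real_of_slt {a b : End P} (h : slt a b) (hn : ¬ (a.up ∧ ¬ b.up)) :
    ∃ t, t ∈ a.U ∧ t ∈ b.L := by
  rcases h with h | ⟨h1, h2, -⟩
  · exact h
  · exact absurd ⟨h1, h2⟩ hn

/-- between `a` and `c` with `a < b < c` there is a real -/
theorem exists_real_of_slt2 {a b c : End P} (h1 : slt a b) (h2 : slt b c) :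
    ∃ t, t ∈ a.U ∧ t ∈ c.L := by
  by_cases hb : b.up
  · obtain ⟨t, ht1, ht2⟩ := exists_real_of_slt h1 (fun h => h.2 hb)
    exact ⟨t, ht1, L_of_slt h2 ht2⟩
  · obtain ⟨t, ht1, ht2⟩ := exists_real_of_slt h2 (fun h => hb h.1)
    exact ⟨t, U_of_slt h1 ht1, ht2⟩

theorem slt_wle {a b c : End P} (h1 : slt a b) (h2 : wle b c) : slt a c := by
  rcases h1 with ⟨t, ht1, ht2⟩ | ⟨h1, h3, h4⟩
  · exact slt_of_mem ht1 (L_of_wle h2 ht2)
  · rcases h2 with h2 | ⟨h2, _, _⟩ | ⟨_, h5, h6⟩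
    · obtain ⟨t, ht1, ht2⟩ := exists_real_of_slt h2 (fun h => h3 h.1)
      refine slt_of_mem ?_ ht2
      exact (mem_U_up h1).2 (fun y hy => h4 y hy t ((mem_U_dn h3).1 ht1))
    · exact absurd h2 h3
    · exact Or.inr ⟨h1, h5, fun x hx y hy => h4 x hx y (h6 hy)⟩

theorem wle_slt {a b c : End P} (h1 : wle a b) (h2 : slt b c) : slt a c := by
  rcases h2 with ⟨t, ht1, ht2⟩ | ⟨h2, h3, h4⟩
  · exact slt_of_mem (U_of_wle h1 ht1) ht2
  · rcases h1 with h1 | ⟨h1, _, h6⟩ | ⟨_, h5, _⟩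
    · obtain ⟨t, ht1, ht2⟩ := exists_real_of_slt h1 (fun h => h.2 h2)
      refine slt_of_mem ht1 ?_
      exact (mem_L_dn h3).2 (fun y hy => h4 t ((mem_L_up h2).1 ht2) y hy)
    · exact Or.inr ⟨h1, h3, fun x hx y hy => h4 x (h6 hx) y hy⟩
    · exact absurd h2 h5

theorem slt_trans {a b c : End P} (h1 : slt a b) (h2 : slt b c) : slt a c :=
  slt_wle h1 (Or.inl h2)

theorem wle_trans {a b c : End P} (h1 : wle a b) (h2 : wle b c) : wle a c := by
  rcases h1 with h1 | ⟨h1, h1', h1''⟩ | ⟨h1, h1', h1''⟩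
  · exact Or.inl (slt_wle h1 h2)
  · rcases h2 with h2 | ⟨h2, h2', h2''⟩ | ⟨h2, _, _⟩
    · exact Or.inl (wle_slt (Or.inr (Or.inl ⟨h1, h1', h1''⟩)) h2)
    · exact Or.inr (Or.inl ⟨h1, h2', h1''.trans h2''⟩)
    · exact absurd h1' h2
  · rcases h2 with h2 | ⟨h2, _, _⟩ | ⟨h2, h2', h2''⟩
    · exact Or.inl (wle_slt (Or.inr (Or.inr ⟨h1, h1', h1''⟩)) h2)
    · exact absurd h2 h1'
    · exact Or.inr (Or.inr ⟨h1, h2', h2''.trans h1''⟩)

theorem wle_refl (a : End P) : wle a a := by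
  by_cases h : a.up
  · exact Or.inr (Or.inl ⟨h, h, le_rfl⟩)
  · exact Or.inr (Or.inr ⟨h, h, le_rfl⟩)

theorem wle_antisymm {a b : End P} (h1 : wle a b) (h2 : wle b a) : a = b := by
  rcases h1 with h1 | ⟨h1, h1', h1''⟩ | ⟨h1, h1', h1''⟩
  · exact absurd (slt_wle h1 h2) (slt_irrefl a)
  · rcases h2 with h2 | ⟨h2, h2', h2''⟩ | ⟨h2, _, _⟩
    · exact absurd (slt_wle h2 (Or.inr (Or.inl ⟨h1, h1', h1''⟩))) (slt_irrefl b)
    · exact ext' ⟨fun _ => h1', fun _ => h1⟩ (Set.Subset.antisymm h1'' h2'')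
    · exact absurd h1' h2
  · rcases h2 with h2 | ⟨h2, _, _⟩ | ⟨h2, h2', h2''⟩
    · exact absurd (slt_wle h2 (Or.inr (Or.inr ⟨h1, h1', h1''⟩))) (slt_irrefl b)
    · exact absurd h2 h1'
    · exact ext' ⟨fun h => absurd h h1, fun h => absurd h h1'⟩ (Set.Subset.antisymm h2'' h1'')

/-- the tail of `e` at `t` -/
def tail (e : End P) (t : P) : Set P := {y | y ∈ e.S ∧ ((e.up ∧ t < y) ∨ (¬ e.up ∧ y < t))}

theorem mem_tail_up {e : End P} (h : e.up) {t y : P} : y ∈ e.tail t ↔ y ∈ e.S ∧ t < y := by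
  unfold tail
  simp [h]

theorem mem_tail_dn {e : End P} (h : ¬ e.up) {t y : P} : y ∈ e.tail t ↔ y ∈ e.S ∧ y < t := by
  unfold tail
  simp [h]

/-- the ends all of whose tails contain at least `κ` elements of `B` -/
def EB (κ : Cardinal.{u}) (B : Set P) (e : End P) : Prop :=
  ∀ t ∈ e.S, κ ≤ #(B ∩ e.tail t : Set P)

theorem EB_mono {κ : Cardinal.{u}} {B B' : Set P} (h : B ⊆ B') {e : End P} (he : EB κ B e) :
    EB κ B' e := fun t ht =>
  (he t ht).trans (Cardinal.mk_le_mk_of_subset (Set.inter_subset_inter_left _ h))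

theorem EB_le {κ κ' : Cardinal.{u}} {B : Set P} (h : κ ≤ κ') {e : End P} (he : EB κ' B e) :
    EB κ B e := fun t ht => h.trans (he t ht)

theorem EB_exists {κ : Cardinal.{u}} (hκ : ℵ₀ ≤ κ) {B : Set P} {e : End P} (he : EB κ B e)
    {t : P} (ht : t ∈ e.S) : ∃ y ∈ B, y ∈ e.tail t := by
  have h1 : (0 : Cardinal) < #(B ∩ e.tail t : Set P) :=
    lt_of_lt_of_le Cardinal.aleph0_pos (hκ.trans (he t ht))
  have h2 : Nonempty (B ∩ e.tail t : Set P) := Cardinal.mk_ne_zero_iff.1 h1.ne'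
  obtain ⟨⟨y, hy1, hy2⟩⟩ := h2
  exact ⟨y, hy1, hy2⟩

/-- limit of a chain of ends without first element -/
def infEnd (C : Set (End P)) (hne : C.Nonempty) (hC : ∀ a ∈ C, ∀ b ∈ C, a = b ∨ slt a b ∨ slt b a)
    (hlim : ∀ a ∈ C, ∃ b ∈ C, slt b a) : End P where
  up := False
  S := {p | ∃ e ∈ C, p ∈ e.U}
  ne := by
    obtain ⟨a, ha⟩ := hne
    obtain ⟨b, hb, hba⟩ := hlim a ha
    obtain ⟨c, hc, hcb⟩ := hlim b hb
    obtain ⟨t, ht, -⟩ := exists_real_of_slt2 hcb hba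
    exact ⟨t, c, hc, ht⟩
  upc := fun h => h.elim
  dnc := fun _ => by
    constructor
    · rintro x ⟨e, he, hx⟩ y hxy
      exact ⟨e, he, U_upper hx hxy⟩
    · rintro x ⟨a, ha, hx⟩ y ⟨b, hb, hy⟩
      have hex : ∃ c ∈ C, x ∈ c.U ∧ y ∈ c.U := by
        rcases hC a ha b hb with h | h | h
        · exact ⟨a, ha, hx, h ▸ hy⟩
        · exact ⟨a, ha, hx, U_of_slt h hy⟩
        · exact ⟨b, hb, U_of_slt h hx, hy⟩
      obtain ⟨c, hc, hxc, hyc⟩ := hex
      obtain ⟨d, hd, hdc⟩ := hlim c hc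
      obtain ⟨e, he, hed⟩ := hlim d hd
      obtain ⟨t, ht1, ht2⟩ := exists_real_of_slt2 hed hdc
      exact ⟨t, ⟨e, he, ht1⟩, L_lt_U ht2 hxc, L_lt_U ht2 hyc⟩

section infEnd
variable {C : Set (End P)} {hne : C.Nonempty}
  {hC : ∀ a ∈ C, ∀ b ∈ C, a = b ∨ slt a b ∨ slt b a} {hlim : ∀ a ∈ C, ∃ b ∈ C, slt b a}

theorem infEnd_up : ¬ (infEnd C hne hC hlim).up := fun h => h

theorem infEnd_U {p : P} : p ∈ (infEnd C hne hC hlim).U ↔ ∃ e ∈ C, p ∈ e.U :=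
  mem_U_dn infEnd_up

theorem infEnd_slt {a : End P} (ha : a ∈ C) : slt (infEnd C hne hC hlim) a := by
  obtain ⟨b, hb, hba⟩ := hlim a ha
  obtain ⟨c, hc, hcb⟩ := hlim b hb
  obtain ⟨t, ht1, ht2⟩ := exists_real_of_slt2 hcb hba
  exact slt_of_mem (infEnd_U.2 ⟨c, hc, ht1⟩) ht2

theorem infEnd_glb {r : End P} (hr : ∀ a ∈ C, wle r a) : wle r (infEnd C hne hC hlim) := by
  by_cases hru : r.up
  · refine Or.inl (Or.inr ⟨hru, infEnd_up, ?_⟩)
    rintro x hx y ⟨e, he, hy⟩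
    exact L_lt_U ((mem_L_up hru).2 hx) (U_of_wle (hr e he) hy)
  · refine Or.inr (Or.inr ⟨hru, infEnd_up, ?_⟩)
    rintro y ⟨e, he, hy⟩
    exact (mem_U_dn hru).1 (U_of_wle (hr e he) hy)

theorem infEnd_lt {r : End P} (hr : slt (infEnd C hne hC hlim) r) : ∃ e ∈ C, slt e r := by
  obtain ⟨t, ht1, ht2⟩ := exists_real_of_slt hr (fun h => infEnd_up h.1)
  obtain ⟨e, he, hte⟩ := infEnd_U.1 ht1
  exact ⟨e, he, slt_of_mem hte ht2⟩

theorem infEnd_EB {κ : Cardinal.{u}} {B : Set P} (hB : ∀ a ∈ C, EB κ B a) :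
    EB κ B (infEnd C hne hC hlim) := by
  rintro t ⟨a, ha, hta⟩
  obtain ⟨b, hb, hba⟩ := hlim a ha
  obtain ⟨c, hc, hcb⟩ := hlim b hb
  by_cases hbu : b.up
  · obtain ⟨s, hs1, hs2⟩ := exists_real_of_slt hcb (fun h => h.2 hbu)
    refine (hB b hb s ((mem_L_up hbu).1 hs2)).trans (Cardinal.mk_le_mk_of_subset ?_)
    rintro y ⟨hyB, hy⟩
    rw [mem_tail_up hbu] at hy
    refine ⟨hyB, (mem_tail_dn infEnd_up).2 ⟨⟨c, hc, U_upper hs1 hy.2.le⟩, ?_⟩⟩
    exact L_lt_U (L_of_slt hba ((mem_L_up hbu).2 hy.1)) hta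
  · have htb : t ∈ b.S := (mem_U_dn hbu).1 (U_of_slt hba hta)
    refine (hB b hb t htb).trans (Cardinal.mk_le_mk_of_subset ?_)
    rintro y ⟨hyB, hy⟩
    rw [mem_tail_dn hbu] at hy
    exact ⟨hyB, (mem_tail_dn infEnd_up).2 ⟨⟨b, hb, (mem_U_dn hbu).2 hy.1⟩, hy.2⟩⟩

end infEnd

/-- limit of a chain of ends without last element -/
def supEnd (C : Set (End P)) (hne : C.Nonempty) (hC : ∀ a ∈ C, ∀ b ∈ C, a = b ∨ slt a b ∨ slt b a)
    (hlim : ∀ a ∈ C, ∃ b ∈ C, slt a b) : End P where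
  up := True
  S := {p | ∃ e ∈ C, p ∈ e.L}
  ne := by
    obtain ⟨a, ha⟩ := hne
    obtain ⟨b, hb, hba⟩ := hlim a ha
    obtain ⟨c, hc, hcb⟩ := hlim b hb
    obtain ⟨t, -, ht⟩ := exists_real_of_slt2 hba hcb
    exact ⟨t, c, hc, ht⟩
  dnc := fun h => (h trivial).elim
  upc := fun _ => by
    constructor
    · rintro x ⟨e, he, hx⟩ y hxy
      exact ⟨e, he, L_lower hx hxy⟩
    · rintro x ⟨a, ha, hx⟩ y ⟨b, hb, hy⟩
      have hex : ∃ c ∈ C, x ∈ c.L ∧ y ∈ c.L := by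
        rcases hC a ha b hb with h | h | h
        · exact ⟨a, ha, hx, h ▸ hy⟩
        · exact ⟨b, hb, L_of_slt h hx, hy⟩
        · exact ⟨a, ha, hx, L_of_slt h hy⟩
      obtain ⟨c, hc, hxc, hyc⟩ := hex
      obtain ⟨d, hd, hdc⟩ := hlim c hc
      obtain ⟨e, he, hed⟩ := hlim d hd
      obtain ⟨t, ht1, ht2⟩ := exists_real_of_slt2 hdc hed
      exact ⟨t, ⟨e, he, ht2⟩, L_lt_U hxc ht1, L_lt_U hyc ht1⟩

section supEnd
variable {C : Set (End P)} {hne : C.Nonempty}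
  {hC : ∀ a ∈ C, ∀ b ∈ C, a = b ∨ slt a b ∨ slt b a} {hlim : ∀ a ∈ C, ∃ b ∈ C, slt a b}

theorem supEnd_up : (supEnd C hne hC hlim).up := trivial

theorem supEnd_L {p : P} : p ∈ (supEnd C hne hC hlim).L ↔ ∃ e ∈ C, p ∈ e.L :=
  mem_L_up supEnd_up

theorem slt_supEnd {a : End P} (ha : a ∈ C) : slt a (supEnd C hne hC hlim) := by
  obtain ⟨b, hb, hba⟩ := hlim a ha
  obtain ⟨c, hc, hcb⟩ := hlim b hb
  obtain ⟨t, ht1, ht2⟩ := exists_real_of_slt2 hba hcb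
  exact slt_of_mem ht1 (supEnd_L.2 ⟨c, hc, ht2⟩)

theorem supEnd_lub {r : End P} (hr : ∀ a ∈ C, wle a r) : wle (supEnd C hne hC hlim) r := by
  by_cases hru : r.up
  · refine Or.inr (Or.inl ⟨supEnd_up, hru, ?_⟩)
    rintro y ⟨e, he, hy⟩
    exact (mem_L_up hru).1 (L_of_wle (hr e he) hy)
  · refine Or.inl (Or.inr ⟨supEnd_up, hru, ?_⟩)
    rintro x ⟨e, he, hx⟩ y hy
    exact L_lt_U (L_of_wle (hr e he) hx) ((mem_U_dn hru).2 hy)

theorem lt_supEnd {r : End P} (hr : slt r (supEnd C hne hC hlim)) : ∃ e ∈ C, slt r e := by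
  obtain ⟨t, ht1, ht2⟩ := exists_real_of_slt hr (fun h => h.2 supEnd_up)
  obtain ⟨e, he, hte⟩ := supEnd_L.1 ht2
  exact ⟨e, he, slt_of_mem ht1 hte⟩

theorem supEnd_EB {κ : Cardinal.{u}} {B : Set P} (hB : ∀ a ∈ C, EB κ B a) :
    EB κ B (supEnd C hne hC hlim) := by
  rintro t ⟨a, ha, hta⟩
  obtain ⟨b, hb, hba⟩ := hlim a ha
  obtain ⟨c, hc, hcb⟩ := hlim b hb
  by_cases hbu : b.up
  · have htb : t ∈ b.S := (mem_L_up hbu).1 (L_of_slt hba hta)
    refine (hB b hb t htb).trans (Cardinal.mk_le_mk_of_subset ?_)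
    rintro y ⟨hyB, hy⟩
    rw [mem_tail_up hbu] at hy
    exact ⟨hyB, (mem_tail_up supEnd_up).2 ⟨⟨b, hb, (mem_L_up hbu).2 hy.1⟩, hy.2⟩⟩
  · obtain ⟨s, hs1, hs2⟩ := exists_real_of_slt hcb (fun h => hbu h.1)
    refine (hB b hb s ((mem_U_dn hbu).1 hs1)).trans (Cardinal.mk_le_mk_of_subset ?_)
    rintro y ⟨hyB, hy⟩
    rw [mem_tail_dn hbu] at hy
    refine ⟨hyB, (mem_tail_up supEnd_up).2 ⟨⟨c, hc, L_lower hs2 hy.2.le⟩, ?_⟩⟩
    exact L_lt_U hta (U_of_slt hba ((mem_U_dn hbu).2 hy.1))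

end supEnd

theorem exists_inf_chain (C : Set (End P)) (hne : C.Nonempty)
    (hC : ∀ a ∈ C, ∀ b ∈ C, a = b ∨ slt a b ∨ slt b a)
    (hlim : ∀ a ∈ C, ∃ b ∈ C, slt b a) :
    ∃ f : End P, ¬ f.up ∧ (∀ p, p ∈ f.U ↔ ∃ e ∈ C, p ∈ e.U) ∧ (∀ a ∈ C, slt f a) ∧
      (∀ r, (∀ a ∈ C, wle r a) → wle r f) ∧ (∀ r, slt f r → ∃ e ∈ C, slt e r) ∧
      ∀ (κ : Cardinal.{u}) (B : Set P), (∀ a ∈ C, EB κ B a) → EB κ B f :=
  ⟨infEnd C hne hC hlim, infEnd_up, fun _ => infEnd_U, fun _ ha => infEnd_slt ha,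
    fun _ hr => infEnd_glb hr, fun _ hr => infEnd_lt hr, fun _ _ h => infEnd_EB h⟩

theorem exists_sup_chain (C : Set (End P)) (hne : C.Nonempty)
    (hC : ∀ a ∈ C, ∀ b ∈ C, a = b ∨ slt a b ∨ slt b a)
    (hlim : ∀ a ∈ C, ∃ b ∈ C, slt a b) :
    ∃ f : End P, f.up ∧ (∀ p, p ∈ f.L ↔ ∃ e ∈ C, p ∈ e.L) ∧ (∀ a ∈ C, slt a f) ∧
      (∀ r, (∀ a ∈ C, wle a r) → wle f r) ∧ (∀ r, slt r f → ∃ e ∈ C, slt r e) ∧
      ∀ (κ : Cardinal.{u}) (B : Set P), (∀ a ∈ C, EB κ B a) → EB κ B f :=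
  ⟨supEnd C hne hC hlim, supEnd_up, fun _ => supEnd_L, fun _ ha => slt_supEnd ha,
    fun _ hr => supEnd_lub hr, fun _ hr => lt_supEnd hr, fun _ _ h => supEnd_EB h⟩

/-- the colour of an end -/
theorem exists_col {w : ℕ} (col : P → Fin w) (e : End P) :
    ∃ i, ∀ t ∈ e.S, ∃ y ∈ e.tail t, col y = i := by
  classical
  by_contra hcon
  push Not at hcon
  choose t ht hno using hcon
  have key : ∀ F : Finset (Fin w), ∃ s ∈ e.S, ∀ i ∈ F, (e.up → t i < s) ∧ (¬ e.up → s < t i) := by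
    intro F
    induction F using Finset.induction_on with
    | empty =>
      obtain ⟨s, hs⟩ := e.ne
      exact ⟨s, hs, by simp⟩
    | @insert a F ha ih =>
      obtain ⟨s, hs, hF⟩ := ih
      by_cases hu : e.up
      · obtain ⟨z, hz, hz1, hz2⟩ := (e.upc hu).2 s hs (t a) (ht a)
        refine ⟨z, hz, fun i hi => ⟨fun _ => ?_, fun h => absurd hu h⟩⟩
        rcases Finset.mem_insert.1 hi with rfl | hi
        · exact hz2
        · exact lt_trans ((hF i hi).1 hu) hz1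
      · obtain ⟨z, hz, hz1, hz2⟩ := (e.dnc hu).2 s hs (t a) (ht a)
        refine ⟨z, hz, fun i hi => ⟨fun h => absurd h hu, fun _ => ?_⟩⟩
        rcases Finset.mem_insert.1 hi with rfl | hi
        · exact hz2
        · exact lt_trans hz1 ((hF i hi).2 hu)
  obtain ⟨s, hs, hall⟩ := key Finset.univ
  obtain ⟨h1, h2⟩ := hall (col s) (Finset.mem_univ _)
  apply hno (col s) s _ rfl
  by_cases hu : e.up
  · exact (mem_tail_up hu).2 ⟨hs, h1 hu⟩
  · exact (mem_tail_dn hu).2 ⟨hs, h2 hu⟩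

/-- ends of the same type and colour are comparable -/
theorem cmp_of_col {w : ℕ} (col : P → Fin w) (hcol : ∀ x y, col x = col y → x ≤ y ∨ y ≤ x)
    {a b : End P} (hab : a.up ↔ b.up) {i : Fin w} (ha : ∀ t ∈ a.S, ∃ y ∈ a.tail t, col y = i)
    (hb : ∀ t ∈ b.S, ∃ y ∈ b.tail t, col y = i) : a = b ∨ slt a b ∨ slt b a := by
  classical
  by_cases hu : a.up
  · have hu' : b.up := hab.1 hu
    by_cases h1 : a.S ⊆ b.S
    · by_cases h2 : b.S ⊆ a.S
      · exact Or.inl (ext' hab (Set.Subset.antisymm h1 h2))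
      · right; left
        obtain ⟨s, hs, hsa⟩ := Set.not_subset.1 h2
        obtain ⟨y, hy, hyi⟩ := hb s hs
        rw [mem_tail_up hu'] at hy
        refine slt_of_mem (p := y) ((mem_U_up hu).2 ?_) ((mem_L_up hu').2 hy.1)
        intro x hx
        obtain ⟨z, hz, hzi⟩ := ha x hx
        rw [mem_tail_up hu] at hz
        rcases hcol z y (hzi.trans hyi.symm) with h3 | h3
        · exact lt_of_lt_of_le hz.2 h3
        · exact absurd ((a.upc hu).1 y ((a.upc hu).1 z hz.1 y h3) s hy.2.le) hsa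
    · right; right
      obtain ⟨s, hs, hsb⟩ := Set.not_subset.1 h1
      obtain ⟨y, hy, hyi⟩ := ha s hs
      rw [mem_tail_up hu] at hy
      refine slt_of_mem (p := y) ((mem_U_up hu').2 ?_) ((mem_L_up hu).2 hy.1)
      intro x hx
      obtain ⟨z, hz, hzi⟩ := hb x hx
      rw [mem_tail_up hu'] at hz
      rcases hcol z y (hzi.trans hyi.symm) with h3 | h3
      · exact lt_of_lt_of_le hz.2 h3
      · exact absurd ((b.upc hu').1 y ((b.upc hu').1 z hz.1 y h3) s hy.2.le) hsb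
  · have hu' : ¬ b.up := fun h => hu (hab.2 h)
    by_cases h1 : a.S ⊆ b.S
    · by_cases h2 : b.S ⊆ a.S
      · exact Or.inl (ext' hab (Set.Subset.antisymm h1 h2))
      · right; right
        obtain ⟨s, hs, hsa⟩ := Set.not_subset.1 h2
        obtain ⟨y, hy, hyi⟩ := hb s hs
        rw [mem_tail_dn hu'] at hy
        refine slt_of_mem (p := y) ((mem_U_dn hu').2 hy.1) ((mem_L_dn hu).2 ?_)
        intro x hx
        obtain ⟨z, hz, hzi⟩ := ha x hx
        rw [mem_tail_dn hu] at hz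
        rcases hcol z y (hzi.trans hyi.symm) with h3 | h3
        · exact absurd ((a.dnc hu).1 y ((a.dnc hu).1 z hz.1 y h3) s hy.2.le) hsa
        · exact lt_of_le_of_lt h3 hz.2
    · right; left
      obtain ⟨s, hs, hsb⟩ := Set.not_subset.1 h1
      obtain ⟨y, hy, hyi⟩ := ha s hs
      rw [mem_tail_dn hu] at hy
      refine slt_of_mem (p := y) ((mem_U_dn hu).2 hy.1) ((mem_L_dn hu').2 ?_)
      intro x hx
      obtain ⟨z, hz, hzi⟩ := hb x hx
      rw [mem_tail_dn hu'] at hz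
      rcases hcol z y (hzi.trans hyi.symm) with h3 | h3
      · exact absurd ((b.dnc hu').1 y ((b.dnc hu').1 z hz.1 y h3) s hy.2.le) hsb
      · exact lt_of_le_of_lt h3 hz.2

/-- a set of pairwise strongly incomparable ends is finite -/
theorem finite_of_incomp {w : ℕ} (hw : FW P w) (F : Set (End P))
    (hF : ∀ a ∈ F, ∀ b ∈ F, ¬ slt a b) : F.Finite := by
  classical
  obtain ⟨col, hcol⟩ := hw
  choose c hc using exists_col col
  refine Set.Finite.of_finite_image (f := fun e : End P => (decide e.up, c e)) (Set.toFinite _) ?_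
  intro a ha b hb hab
  simp only [Prod.mk.injEq, decide_eq_decide] at hab
  rcases cmp_of_col col hcol hab.1 (hc a) (hab.2 ▸ hc b) with h | h | h
  · exact h
  · exact absurd h (hF a ha b hb)
  · exact absurd h (hF b hb a ha)

theorem fac {w : ℕ} (hw : FW P w) (s : ℕ → End P) :
    ∃ m n, m < n ∧ (s m = s n ∨ slt (s m) (s n) ∨ slt (s n) (s m)) := by
  by_contra hcon
  push Not at hcon
  have hinj : Function.Injective s := by
    intro a b hab
    by_contra hne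
    rcases lt_or_gt_of_ne hne with h1 | h1
    · exact (hcon a b h1).1 hab
    · exact (hcon b a h1).1 hab.symm
  have h1 := finite_of_incomp hw (Set.range s) (by
    rintro _ ⟨m, rfl⟩ _ ⟨n, rfl⟩ h
    rcases lt_trichotomy m n with h2 | h2 | h2
    · exact (hcon m n h2).2.1 h
    · exact slt_irrefl _ (h2 ▸ h)
    · exact (hcon n m h2).2.2 h)
  exact (Set.infinite_range_of_injective hinj) h1

theorem chn_of_seq (s : ℕ → End P) (hs : ∀ n, slt (s (n + 1)) (s n)) :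
    ∀ m n, m < n → slt (s n) (s m) := by
  intro m n hmn
  induction n, hmn using Nat.le_induction with
  | base => exact hs m
  | succ n _ ih => exact slt_trans (hs n) ih

theorem chn_of_seq' (s : ℕ → End P) (hs : ∀ n, slt (s n) (s (n + 1))) :
    ∀ m n, m < n → slt (s m) (s n) := by
  intro m n hmn
  induction n, hmn using Nat.le_induction with
  | base => exact hs m
  | succ n _ ih => exact slt_trans ih (hs n)

/-- the system of ends `E_κ(B)` -/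
theorem endSys {w : ℕ} (hw : FW P w) (κ : Cardinal.{u}) (B : Set P) :
    EndSys (E := {e : End P // EB κ B e}) (fun a b => slt a.1 b.1) (fun a b => wle a.1 b.1)
      (fun a => a.1.up) where
  irr := fun a => slt_irrefl a.1
  lt_le := fun h => Or.inl h
  refl := fun a => wle_refl a.1
  trans := wle_trans
  ltle := slt_wle
  lelt := wle_slt
  anti := fun h1 h2 => Subtype.ext (wle_antisymm h1 h2)
  ud := by
    intro a b ha hb h
    rcases h with h | ⟨_, h, _⟩ | ⟨h, _, _⟩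
    · exact h
    · exact absurd h hb
    · exact absurd ha h
  fac := fun s => by
    obtain ⟨m, n, hmn, h⟩ := fac hw (fun n => (s n).1)
    refine ⟨m, n, hmn, ?_⟩
    rcases h with h | h | h
    · exact Or.inl (Subtype.ext h)
    · exact Or.inr (Or.inl h)
    · exact Or.inr (Or.inr h)
  inf := fun s hs => by
    have hc := chn_of_seq (fun n => (s n).1) hs
    have hC : ∀ a ∈ Set.range (fun n => (s n).1), ∀ b ∈ Set.range (fun n => (s n).1),
        a = b ∨ slt a b ∨ slt b a := by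
      rintro _ ⟨m, rfl⟩ _ ⟨n, rfl⟩
      rcases lt_trichotomy m n with h | h | h
      · exact Or.inr (Or.inr (hc _ _ h))
      · exact Or.inl (by rw [h])
      · exact Or.inr (Or.inl (hc _ _ h))
    have hlim : ∀ a ∈ Set.range (fun n => (s n).1), ∃ b ∈ Set.range (fun n => (s n).1),
        slt b a := by
      rintro _ ⟨m, rfl⟩
      exact ⟨_, ⟨m + 1, rfl⟩, hs m⟩
    obtain ⟨f, h1, -, h2, h3, h4, h5⟩ := exists_inf_chain _ (Set.range_nonempty _) hC hlim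
    refine ⟨⟨f, h5 κ B ?_⟩, h1, ?_, ?_, ?_⟩
    · rintro _ ⟨m, rfl⟩
      exact (s m).2
    · intro n
      exact h2 _ ⟨n, rfl⟩
    · intro r hr
      apply h3
      rintro _ ⟨m, rfl⟩
      exact hr m
    · intro r hr
      obtain ⟨_, ⟨m, rfl⟩, h⟩ := h4 _ hr
      exact ⟨m, h⟩
  sup := fun s hs => by
    have hc := chn_of_seq' (fun n => (s n).1) hs
    have hC : ∀ a ∈ Set.range (fun n => (s n).1), ∀ b ∈ Set.range (fun n => (s n).1),
        a = b ∨ slt a b ∨ slt b a := by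
      rintro _ ⟨m, rfl⟩ _ ⟨n, rfl⟩
      rcases lt_trichotomy m n with h | h | h
      · exact Or.inr (Or.inl (hc _ _ h))
      · exact Or.inl (by rw [h])
      · exact Or.inr (Or.inr (hc _ _ h))
    have hlim : ∀ a ∈ Set.range (fun n => (s n).1), ∃ b ∈ Set.range (fun n => (s n).1),
        slt a b := by
      rintro _ ⟨m, rfl⟩
      exact ⟨_, ⟨m + 1, rfl⟩, hs m⟩
    obtain ⟨f, h1, -, h2, h3, h4, h5⟩ := exists_sup_chain _ (Set.range_nonempty _) hC hlim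
    refine ⟨⟨f, h5 κ B ?_⟩, h1, ?_, ?_, ?_⟩
    · rintro _ ⟨m, rfl⟩
      exact (s m).2
    · intro n
      exact h2 _ ⟨n, rfl⟩
    · intro r hr
      apply h3
      rintro _ ⟨m, rfl⟩
      exact hr m
    · intro r hr
      obtain ⟨_, ⟨m, rfl⟩, h⟩ := h4 _ hr
      exact ⟨m, h⟩

end End

end Pool.Agent.TH537.Spine
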