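import Pool.Agent.TH537.Spine.ST

set_option autoImplicit false

/-!
# Spine functions: gluing and greedy extension
-/

namespace Pool.Agent.TH537.Spine

open Cardinal

universe u v

variable {P : Type u} [PartialOrder P]

/-- `c` is a spine function on `A` -/
structure IsSp (A : Set P) (c : P → P) : Prop where
  mem : ∀ x ∈ A, c x ∈ A
  idem : ∀ x ∈ A, c (c x) = c x
  anti : ∀ x ∈ A, ∀ y ∈ A, c x = c y → ¬ x < y
  chain : ∀ x ∈ A, ∀ y ∈ A, c x ≤ c y ∨ c y ≤ c x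

theorem IsSp.inc {A : Set P} {c : P → P} (hc : IsSp A c) {x y : P} (hx : x ∈ A) (hy : y ∈ A)
    (h : c x = c y) : x = y ∨ y ∈ Inc x := by
  by_cases hxy : x = y
  · exact Or.inl hxy
  · right
    refine ⟨fun h1 => hc.anti y hy x hx h.symm (lt_of_le_of_ne h1 (Ne.symm hxy)),
      fun h1 => hc.anti x hx y hy h (lt_of_le_of_ne h1 hxy)⟩

/-- linear sums -/
theorem IsSp.glue {γ : Type v} (A : Set P) (f : P → γ)
    (hcmp : ∀ x ∈ A, ∀ y ∈ A, f x ≠ f y → x ≤ y ∨ y ≤ x) (c : γ → P → P)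
    (hc : ∀ g, IsSp {x | x ∈ A ∧ f x = g} (c g)) : IsSp A (fun x => c (f x) x) := by
  have h1 : ∀ x ∈ A, c (f x) x ∈ A ∧ f (c (f x) x) = f x := fun x hx =>
    (hc (f x)).mem x ⟨hx, rfl⟩
  refine ⟨fun x hx => (h1 x hx).1, ?_, ?_, ?_⟩
  · intro x hx
    simp only [(h1 x hx).2]
    exact (hc (f x)).idem x ⟨hx, rfl⟩
  · intro x hx y hy hxy
    have h2 : f x = f y := by
      rw [← (h1 x hx).2, ← (h1 y hy).2]
      exact congrArg f hxy
    refine (hc (f x)).anti x ⟨hx, rfl⟩ y ⟨hy, h2.symm⟩ ?_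
    simp only [← h2] at hxy
    exact hxy
  · intro x hx y hy
    by_cases h2 : f x = f y
    · have := (hc (f x)).chain x ⟨hx, rfl⟩ y ⟨hy, h2.symm⟩
      simp only [← h2]
      exact this
    · refine hcmp _ (h1 x hx).1 _ (h1 y hy).1 ?_
      rw [(h1 x hx).2, (h1 y hy).2]
      exact h2

theorem IsSp.congr {A : Set P} {c c' : P → P} (hc : IsSp A c) (h : ∀ x ∈ A, c' x = c x) :
    IsSp A c' := by
  refine ⟨?_, ?_, ?_, ?_⟩
  · intro x hx
    rw [h x hx]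
    exact hc.mem x hx
  · intro x hx
    rw [h x hx, h _ (hc.mem x hx)]
    exact hc.idem x hx
  · intro x hx y hy
    rw [h x hx, h y hy]
    exact hc.anti x hx y hy
  · intro x hx y hy
    rw [h x hx, h y hy]
    exact hc.chain x hx y hy

/-- two-part linear sums -/
theorem IsSp.glue2 {A A' : Set P} {c c' : P → P} (hc : IsSp A c) (hc' : IsSp A' c')
    (hdis : ∀ x ∈ A, x ∉ A') (hcmp : ∀ x ∈ A, ∀ y ∈ A', x ≤ y ∨ y ≤ x) :
    ∃ d, IsSp (A ∪ A') d ∧ (∀ x ∈ A, d x = c x) ∧ (∀ x ∈ A', d x = c' x) := by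
  classical
  refine ⟨fun x => (fun (p : Prop) => if p then c else c') (x ∈ A) x, ?_, ?_, ?_⟩
  · refine IsSp.glue (A ∪ A') (fun x => x ∈ A) ?_ (fun p => if p then c else c') ?_
    · intro x hx y hy hne
      by_cases h1 : x ∈ A
      · by_cases h2 : y ∈ A
        · exact absurd (by simp [h1, h2]) hne
        · exact hcmp x h1 y (hy.resolve_left h2)
      · by_cases h2 : y ∈ A
        · exact (hcmp y h2 x (hx.resolve_left h1)).symm
        · exact absurd (by simp [h1, h2]) hne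
    · intro g
      by_cases hg : g
      · have h1 : {x | x ∈ A ∪ A' ∧ (x ∈ A) = g} = A := by
          ext x
          simp only [eq_iff_iff, hg, iff_true]
          exact ⟨fun h => h.2, fun h => ⟨Or.inl h, h⟩⟩
        rw [h1, if_pos hg]
        exact hc
      · have h1 : {x | x ∈ A ∪ A' ∧ (x ∈ A) = g} = A' := by
          ext x
          simp only [eq_iff_iff, hg, iff_false]
          exact ⟨fun h => h.1.resolve_left h.2, fun h => ⟨Or.inr h, fun h2 => hdis x h2 h⟩⟩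
        rw [h1, if_neg hg]
        exact hc'
  · intro x hx
    simp [hx]
  · intro x hx
    have : x ∉ A := fun h => hdis x h hx
    simp [this]

/-- distinct representatives -/
theorem exists_transversal {ι Q : Type u} {ρ : Cardinal.{u}} (hρ : ℵ₀ ≤ ρ) (hι : #ι ≤ ρ)
    (G : ι → Set Q) (hG : ∀ i, ρ ≤ #(G i)) :
    ∃ f : ι → Q, (∀ i, f i ∈ G i) ∧ Function.Injective f := by
  classical
  rcases isEmpty_or_nonempty ι with hE | hN
  · exact ⟨fun i => (hE.false i).elim, fun i => (hE.false i).elim, fun i => (hE.false i).elim⟩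
  · have hQ : Nonempty Q := by
      obtain ⟨i⟩ := hN
      have h1 : (0 : Cardinal) < #(G i) := lt_of_lt_of_le Cardinal.aleph0_pos (hρ.trans (hG i))
      obtain ⟨⟨x, -⟩⟩ := Cardinal.mk_ne_zero_iff.1 h1.ne'
      exact ⟨x⟩
    obtain ⟨inst, hwf, hord⟩ := exists_ord_eq_type_lt ι
    have hlt : ∀ i : ι, #(Set.Iio i) < ρ := fun i => lt_of_lt_of_le (mk_Iio_lt i hord) hι
    let F : ∀ i : ι, (∀ j, j < i → Q) → Q := fun i g =>
      Classical.epsilon (fun q => q ∈ G i ∧ ∀ j (hj : j < i), g j hj ≠ q)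
    let f : ι → Q := hwf.wf.fix F
    have hf : ∀ i, f i = F i (fun j _ => f j) := fun i => hwf.wf.fix_eq F i
    have hspec : ∀ i, f i ∈ G i ∧ ∀ j, j < i → f j ≠ f i := by
      intro i
      have hex : ∃ q, q ∈ G i ∧ ∀ j (hj : j < i), f j ≠ q := by
        by_contra hcon
        push Not at hcon
        have hsub : G i ⊆ f '' Set.Iio i := by
          intro q hq
          obtain ⟨j, hj, hjq⟩ := hcon q hq
          exact ⟨j, hj, hjq⟩
        have h1 : #(G i) < ρ := lt_of_le_of_lt (Cardinal.mk_le_mk_of_subset hsub)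
          (lt_of_le_of_lt Cardinal.mk_image_le (hlt i))
        exact absurd h1 (not_lt.2 (hG i))
      have h2 := Classical.epsilon_spec hex
      have h3 : f i = Classical.epsilon (fun q => q ∈ G i ∧ ∀ j (hj : j < i), f j ≠ q) := hf i
      rw [← h3] at h2
      exact h2
    refine ⟨f, fun i => (hspec i).1, ?_⟩
    intro i j hij
    rcases lt_trichotomy i j with h | h | h
    · exact absurd hij ((hspec j).2 i h)
    · exact h
    · exact absurd hij.symm ((hspec i).2 j h)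

/-- classes of `c` contained in `Inc x` -/
def Good (A : Set P) (c : P → P) (x : P) : Set P :=
  {z | z ∈ A ∧ c z = z ∧ ∀ y ∈ A, c y = z → y ∈ Inc x}

/-- greedy extension -/
theorem IsSp.ext {ρ : Cardinal.{u}} (hρ : ℵ₀ ≤ ρ) {A B : Set P} {c : P → P} (hc : IsSp A c)
    (hAB : A ⊆ B) {γ : Type v} (f : P → γ) (hf : ∀ x ∈ B, ∀ y ∈ B, y ∈ Inc x → f x = f y)
    (hcard : ∀ g, #{x | x ∈ B ∧ f x = g} ≤ ρ)
    (hgood : ∀ x ∈ B, x ∉ A → ρ ≤ #(Good A c x)) :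
    ∃ c', IsSp B c' ∧ ∀ x ∈ A, c' x = c x := by
  classical
  let I : γ → Set P := fun g => {x | (x ∈ B ∧ x ∉ A) ∧ f x = g}
  have hI : ∀ g, #(I g) ≤ ρ := fun g => (Cardinal.mk_le_mk_of_subset
    (show I g ⊆ {x | x ∈ B ∧ f x = g} from fun x hx => ⟨hx.1.1, hx.2⟩)).trans (hcard g)
  have hF : ∀ g, ∃ F : I g → P, (∀ i, F i ∈ Good A c i.1) ∧ Function.Injective F := fun g =>
    exists_transversal hρ (hI g) (fun i : I g => Good A c i.1)
      (fun i => hgood i.1 i.2.1.1 i.2.1.2)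
  choose F hF1 hF2 using hF
  let c' : P → P := fun x => if h : x ∈ B ∧ x ∉ A then F (f x) ⟨x, h, rfl⟩ else c x
  have hA : ∀ x ∈ A, c' x = c x := fun x hx => by
    have : ¬ (x ∈ B ∧ x ∉ A) := fun h => h.2 hx
    simp only [c', dif_neg this]
  have hB : ∀ g x (h : x ∈ I g), c' x = F g ⟨x, h⟩ := by
    rintro g x ⟨h1, rfl⟩
    simp only [c', dif_pos h1]
  have hgd : ∀ x, x ∈ B → x ∉ A → c' x ∈ Good A c x := by
    intro x h1 h2
    rw [hB (f x) x ⟨⟨h1, h2⟩, rfl⟩]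
    exact hF1 _ _
  have hfx : ∀ x, x ∈ B → x ∉ A → f (c' x) = f x := by
    intro x h1 h2
    obtain ⟨h3, h4, h5⟩ := hgd x h1 h2
    exact (hf x h1 _ (hAB h3) (h5 _ h3 h4)).symm
  have hmem : ∀ x ∈ B, c' x ∈ A ∧ c (c' x) = c' x := by
    intro x hx
    by_cases hxA : x ∈ A
    · rw [hA x hxA]
      exact ⟨hc.mem x hxA, hc.idem x hxA⟩
    · exact ⟨(hgd x hx hxA).1, (hgd x hx hxA).2.1⟩
  refine ⟨c', ⟨fun x hx => hAB (hmem x hx).1, ?_, ?_, ?_⟩, hA⟩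
  · intro x hx
    rw [hA _ (hmem x hx).1]
    exact (hmem x hx).2
  · intro x hx y hy hxy hlt
    by_cases hxA : x ∈ A <;> by_cases hyA : y ∈ A
    · rw [hA x hxA, hA y hyA] at hxy
      exact hc.anti x hxA y hyA hxy hlt
    · rw [hA x hxA] at hxy
      exact ((hgd y hy hyA).2.2 x hxA hxy).1 hlt.le
    · rw [hA y hyA] at hxy
      exact ((hgd x hx hxA).2.2 y hyA hxy.symm).2 hlt.le
    · have h1 : f x = f y := by rw [← hfx x hx hxA, ← hfx y hy hyA, hxy]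
      have h2 := hB (f x) x ⟨⟨hx, hxA⟩, rfl⟩
      have h3 := hB (f x) y ⟨⟨hy, hyA⟩, h1.symm⟩
      rw [h2, h3] at hxy
      have h4 := hF2 _ hxy
      rw [Subtype.mk.injEq] at h4
      exact absurd hlt (h4 ▸ lt_irrefl _)
  · intro x hx y hy
    have h1 := hc.chain _ (hmem x hx).1 _ (hmem y hy).1
    rw [(hmem x hx).2, (hmem y hy).2] at h1
    exact h1

/-- bad classes, lower version -/
theorem bad_lt {w : ℕ} (hw : FW P w) {ρ : Cardinal.{u}} (hρ : ℵ₀ ≤ ρ) {Q : Set P}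
    (hQ : ∀ q ∈ Q, #(Inc q ∩ Q : Set P) < ρ) (x : P) (B : Set P) (t s : P → P)
    (ht : ∀ z ∈ B, t z ∈ Q ∧ t z ∈ Inc x) (hs : ∀ z ∈ B, s z ∈ Q ∧ s z < x)
    (htinj : Set.InjOn t B) (hsinj : Set.InjOn s B)
    (h1 : ∀ z ∈ B, ¬ s z < t z) (_h2 : ∀ z ∈ B, ¬ t z < s z) : #B < ρ := by
  classical
  by_contra hcon
  push Not at hcon
  obtain ⟨col, hcol⟩ := hw
  obtain ⟨i, hi⟩ := exists_col_card (fun z => col (t z)) hρ B hcon
  set B' : Set P := {z | z ∈ B ∧ col (t z) = i} with hB'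
  obtain ⟨z₀, hz₀⟩ := nonempty_of_card hρ hi
  have hQ1 : ∀ q ∈ Q, #((Inc q ∩ Q) ∪ {q} : Set P) < ρ := fun q hq =>
    lt_of_le_of_lt (Cardinal.mk_union_le _ _)
      (Cardinal.add_lt_of_lt hρ (hQ q hq) (card_singleton_lt hρ q))
  by_cases hup : ρ ≤ #{z | z ∈ B' ∧ t z₀ < t z}
  · set U : Set P := {z | z ∈ B' ∧ t z₀ < t z} with hU
    have hinj : Set.InjOn s U := fun a ha b hb hab => hsinj ha.1.1 hb.1.1 hab
    have h3 : ρ ≤ #(s '' U : Set P) := by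
      rw [Cardinal.mk_image_eq_of_injOn _ _ hinj]
      exact hup
    obtain ⟨_, ⟨z, hz, rfl⟩, hzn⟩ :=
      nonempty_of_card hρ (card_diff hρ h3 (hQ1 (t z₀) (ht z₀ hz₀.1).1))
    have h4 : ¬ (s z ∈ Inc (t z₀)) := fun h => hzn (Or.inl ⟨h, (hs z hz.1.1).1⟩)
    have h5 : s z ≤ t z₀ ∨ t z₀ ≤ s z := by
      by_contra h
      push Not at h
      exact h4 ⟨h.1, h.2⟩
    rcases h5 with h5 | h5
    · exact h1 z hz.1.1 (lt_of_le_of_lt h5 hz.2)
    · exact (ht z₀ hz₀.1).2.1 (h5.trans (hs z hz.1.1).2.le)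
  · push Not at hup
    have hdn : ρ ≤ #{z | z ∈ B' ∧ t z < t z₀} := by
      have h3 := card_diff hρ (card_diff hρ hi hup) (card_singleton_lt hρ z₀)
      refine h3.trans (Cardinal.mk_le_mk_of_subset ?_)
      rintro z ⟨⟨hz, hz2⟩, hz3⟩
      refine ⟨hz, ?_⟩
      have hne : t z ≠ t z₀ := fun h => hz3 (htinj hz.1 hz₀.1 h)
      rcases hcol (t z) (t z₀) (hz.2.trans hz₀.2.symm) with h | h
      · exact lt_of_le_of_ne h hne
      · exact absurd ⟨hz, lt_of_le_of_ne h (Ne.symm hne)⟩ hz2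
    set D : Set P := {z | z ∈ B' ∧ t z < t z₀} with hD
    have hinj : Set.InjOn t D := fun a ha b hb hab => htinj ha.1.1 hb.1.1 hab
    have h3 : ρ ≤ #(t '' D : Set P) := by
      rw [Cardinal.mk_image_eq_of_injOn _ _ hinj]
      exact hdn
    obtain ⟨_, ⟨z, hz, rfl⟩, hzn⟩ :=
      nonempty_of_card hρ (card_diff hρ h3 (hQ1 (s z₀) (hs z₀ hz₀.1).1))
    have h4 : ¬ (t z ∈ Inc (s z₀)) := fun h => hzn (Or.inl ⟨h, (ht z hz.1.1).1⟩)
    have h5 : t z ≤ s z₀ ∨ s z₀ ≤ t z := by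
      by_contra h
      push Not at h
      exact h4 ⟨h.1, h.2⟩
    rcases h5 with h5 | h5
    · exact (ht z hz.1.1).2.1 (h5.trans (hs z₀ hz₀.1).2.le)
    · exact h1 z₀ hz₀.1 (lt_of_le_of_lt h5 hz.2)

/-- bad classes, upper version -/
theorem bad_gt {w : ℕ} (hw : FW P w) {ρ : Cardinal.{u}} (hρ : ℵ₀ ≤ ρ) {Q : Set P}
    (hQ : ∀ q ∈ Q, #(Inc q ∩ Q : Set P) < ρ) (x : P) (B : Set P) (t s : P → P)
    (ht : ∀ z ∈ B, t z ∈ Q ∧ t z ∈ Inc x) (hs : ∀ z ∈ B, s z ∈ Q ∧ x < s z)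
    (htinj : Set.InjOn t B) (hsinj : Set.InjOn s B)
    (h1 : ∀ z ∈ B, ¬ s z < t z) (h2 : ∀ z ∈ B, ¬ t z < s z) : #B < ρ := by
  have hw' : FW Pᵒᵈ w := by
    obtain ⟨col, hcol⟩ := hw
    exact ⟨col, fun x y h => (hcol x y h).symm⟩
  exact bad_lt (P := Pᵒᵈ) hw' hρ (Q := Q) (fun q hq => by
      exact lt_of_le_of_lt (Cardinal.mk_le_mk_of_subset (α := P)
        (s := (Inc (P := Pᵒᵈ) q ∩ Q : Set Pᵒᵈ)) (t := Inc q ∩ Q)
        (fun y h => ⟨⟨h.1.2, h.1.1⟩, h.2⟩)) (hQ q hq)) x B t s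
    (fun z hz => ⟨(ht z hz).1, (ht z hz).2.2, (ht z hz).2.1⟩) (fun z hz => hs z hz)
    htinj hsinj (fun z hz => h2 z hz) (fun z hz => h1 z hz)

/-- many good classes -/
theorem IsSp.good_card {w : ℕ} (hw : FW P w) {ρ : Cardinal.{u}} (hρ : ℵ₀ ≤ ρ) {Q : Set P}
    {c : P → P} (hc : IsSp Q c) (hQ : ∀ q ∈ Q, #(Inc q ∩ Q : Set P) < ρ) {x : P} (hx : x ∉ Q)
    (hxc : ρ ≤ #(Inc x ∩ Q : Set P)) : ρ ≤ #(Good Q c x) := by
  classical
  have hw' := hw
  obtain ⟨col, hcol⟩ := hw'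
  obtain ⟨i, hi⟩ := exists_col_card col hρ _ hxc
  set N : Set P := {y | y ∈ Inc x ∩ Q ∧ col y = i} with hN
  have hinj : Set.InjOn c N := by
    intro a ha b hb hab
    rcases hc.inc ha.1.2 hb.1.2 hab with h | h
    · exact h
    · rcases hcol a b (ha.2.trans hb.2.symm) with h2 | h2
      · exact absurd h2 h.2
      · exact absurd h2 h.1
  have him : ρ ≤ #(c '' N : Set P) := by
    rw [Cardinal.mk_image_eq_of_injOn _ _ hinj]
    exact hi
  -- bad sets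
  have hbad : ∀ z, ∃ t s : P, (∃ t s : P, (t ∈ Q ∧ t ∈ Inc x ∧ c t = z) ∧ s ∈ Q ∧ c s = z ∧ s < x) →
      (t ∈ Q ∧ t ∈ Inc x ∧ c t = z) ∧ s ∈ Q ∧ c s = z ∧ s < x := by
    intro z
    by_cases h : ∃ t s : P, (t ∈ Q ∧ t ∈ Inc x ∧ c t = z) ∧ s ∈ Q ∧ c s = z ∧ s < x
    · obtain ⟨t, s, h⟩ := h
      exact ⟨t, s, fun _ => h⟩
    · exact ⟨z, z, fun h' => absurd h' h⟩
  choose t s hts using hbad
  have hbad' : ∀ z, ∃ t s : P, (∃ t s : P, (t ∈ Q ∧ t ∈ Inc x ∧ c t = z) ∧ s ∈ Q ∧ c s = z ∧ x < s) →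
      (t ∈ Q ∧ t ∈ Inc x ∧ c t = z) ∧ s ∈ Q ∧ c s = z ∧ x < s := by
    intro z
    by_cases h : ∃ t s : P, (t ∈ Q ∧ t ∈ Inc x ∧ c t = z) ∧ s ∈ Q ∧ c s = z ∧ x < s
    · obtain ⟨t, s, h⟩ := h
      exact ⟨t, s, fun _ => h⟩
    · exact ⟨z, z, fun h' => absurd h' h⟩
  choose t' s' hts' using hbad'
  let B1 : Set P := {z | ∃ t s : P, (t ∈ Q ∧ t ∈ Inc x ∧ c t = z) ∧ s ∈ Q ∧ c s = z ∧ s < x}
  let B2 : Set P := {z | ∃ t s : P, (t ∈ Q ∧ t ∈ Inc x ∧ c t = z) ∧ s ∈ Q ∧ c s = z ∧ x < s}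
  have hB1 : #B1 < ρ := by
    refine bad_lt hw hρ hQ x B1 t s (fun z hz => ⟨(hts z hz).1.1, (hts z hz).1.2.1⟩)
      (fun z hz => ⟨(hts z hz).2.1, (hts z hz).2.2.2⟩) ?_ ?_ ?_ ?_
    · intro a ha b hb hab
      rw [← (hts a ha).1.2.2, ← (hts b hb).1.2.2, hab]
    · intro a ha b hb hab
      rw [← (hts a ha).2.2.1, ← (hts b hb).2.2.1, hab]
    · intro z hz
      exact hc.anti _ (hts z hz).2.1 _ (hts z hz).1.1
        ((hts z hz).2.2.1.trans (hts z hz).1.2.2.symm)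
    · intro z hz
      exact hc.anti _ (hts z hz).1.1 _ (hts z hz).2.1
        ((hts z hz).1.2.2.trans (hts z hz).2.2.1.symm)
  have hB2 : #B2 < ρ := by
    refine bad_gt hw hρ hQ x B2 t' s' (fun z hz => ⟨(hts' z hz).1.1, (hts' z hz).1.2.1⟩)
      (fun z hz => ⟨(hts' z hz).2.1, (hts' z hz).2.2.2⟩) ?_ ?_ ?_ ?_
    · intro a ha b hb hab
      rw [← (hts' a ha).1.2.2, ← (hts' b hb).1.2.2, hab]
    · intro a ha b hb hab
      rw [← (hts' a ha).2.2.1, ← (hts' b hb).2.2.1, hab]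
    · intro z hz
      exact hc.anti _ (hts' z hz).2.1 _ (hts' z hz).1.1
        ((hts' z hz).2.2.1.trans (hts' z hz).1.2.2.symm)
    · intro z hz
      exact hc.anti _ (hts' z hz).1.1 _ (hts' z hz).2.1
        ((hts' z hz).1.2.2.trans (hts' z hz).2.2.1.symm)
  refine (card_diff hρ (card_diff hρ him hB1) hB2).trans (Cardinal.mk_le_mk_of_subset ?_)
  rintro z ⟨⟨⟨y, hy, rfl⟩, hz1⟩, hz2⟩
  refine ⟨hc.mem y hy.1.2, hc.idem y hy.1.2, ?_⟩
  intro v hv hvy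
  by_contra hvx
  have h3 : v ≤ x ∨ x ≤ v := by
    by_contra h
    push Not at h
    exact hvx ⟨h.1, h.2⟩
  have hvne : v ≠ x := fun h => hx (h ▸ hv)
  rcases h3 with h3 | h3
  · exact hz1 ⟨y, v, ⟨hy.1.2, hy.1.1, rfl⟩, hv, hvy, lt_of_le_of_ne h3 hvne⟩
  · exact hz2 ⟨y, v, ⟨hy.1.2, hy.1.1, rfl⟩, hv, hvy, lt_of_le_of_ne h3 (Ne.symm hvne)⟩

/-- component labels -/
theorem exists_label {κ : Cardinal.{u}} (hreg : κ.IsRegular) (hκ : ℵ₀ < κ) (B : Set P)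
    (h : ∀ x ∈ B, #(Inc x ∩ B : Set P) < κ) :
    ∃ f : P → Set P, (∀ x ∈ B, ∀ y ∈ B, y ∈ Inc x → f x = f y) ∧
      ∀ g, #{x | x ∈ B ∧ f x = g} < κ := by
  classical
  let R : P → P → Prop := fun x y => x ∈ B ∧ y ∈ B ∧ y ∈ Inc x
  have hRsymm : ∀ x y, R x y → R y x := fun x y hxy =>
    ⟨hxy.2.1, hxy.1, hxy.2.2.2, hxy.2.2.1⟩
  let f : P → Set P := fun x => {y | Relation.ReflTransGen R x y}
  have hsymm : ∀ x y, Relation.ReflTransGen R x y → Relation.ReflTransGen R y x := by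
    intro x y hxy
    induction hxy with
    | refl => exact Relation.ReflTransGen.refl
    | tail _ h2 ih => exact Relation.ReflTransGen.head (hRsymm _ _ h2) ih
  have hfeq : ∀ x y, Relation.ReflTransGen R x y → f x = f y := by
    intro x y hxy
    ext z
    exact ⟨fun hz => (hsymm x y hxy).trans hz, fun hz => hxy.trans hz⟩
  have hcomp : ∀ x ∈ B, #(f x) < κ := by
    intro x hx
    let S : ℕ → Set P := fun n => Nat.rec {x} (fun _ s => ⋃ y ∈ s, (Inc y ∩ B)) n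
    have hS : ∀ n, S (n + 1) = ⋃ y ∈ S n, (Inc y ∩ B) := fun n => rfl
    have hSB : ∀ n, S n ⊆ B := by
      intro n
      cases n with
      | zero => intro y hy; rw [Set.mem_singleton_iff.1 hy]; exact hx
      | succ n =>
        rw [hS]
        intro y hy
        simp only [Set.mem_iUnion] at hy
        obtain ⟨_, _, hy⟩ := hy
        exact hy.2
    have hSc : ∀ n : ℕ, #(↥(S n)) < κ := by
      intro n
      induction n with
      | zero => exact card_singleton_lt hκ.le x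
      | succ n ih =>
        rw [hS]
        exact (card_biUnion_lt_iff_forall_of_isRegular hreg ih).2 (fun y hy => h y (hSB n hy))
    have hsub : f x ⊆ ⋃ n : ULift.{u} ℕ, S n.down := by
      intro y hy
      have hy' : Relation.ReflTransGen R x y := hy
      clear hy
      induction hy' with
      | refl => exact Set.mem_iUnion.2 ⟨⟨0⟩, rfl⟩
      | @tail a b _ h2 ih =>
        obtain ⟨⟨n⟩, hn⟩ := Set.mem_iUnion.1 ih
        refine Set.mem_iUnion.2 ⟨⟨n + 1⟩, ?_⟩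
        change b ∈ S (n + 1)
        rw [hS]
        exact Set.mem_biUnion hn ⟨h2.2.2, h2.2.1⟩
    refine lt_of_le_of_lt (Cardinal.mk_le_mk_of_subset hsub) ?_
    rw [card_iUnion_lt_iff_forall_of_isRegular hreg (by simpa using hκ)]
    exact fun n => hSc n.down
  refine ⟨f, fun x hx y hy hxy => hfeq x y (Relation.ReflTransGen.single ⟨hx, hy, hxy⟩), ?_⟩
  intro g
  by_cases hg : ∃ x ∈ B, f x = g
  · obtain ⟨x, hx, rfl⟩ := hg
    refine lt_of_le_of_lt (Cardinal.mk_le_mk_of_subset ?_) (hcomp x hx)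
    rintro y ⟨hy, hyx⟩
    have : y ∈ f y := Relation.ReflTransGen.refl
    rw [hyx] at this
    exact this
  · have : {x | x ∈ B ∧ f x = g} = ∅ := by
      ext x
      simp only [Set.mem_ofPred_eq, Set.mem_empty_iff_false, iff_false]
      rintro ⟨h1, h2⟩
      exact hg ⟨x, h1, h2⟩
    rw [this, Cardinal.mk_eq_zero]
    exact lt_trans Cardinal.aleph0_pos hκ

/-- extension from a set whose incomparability sets are small -/
theorem IsSp.ext' {w : ℕ} (hw : FW P w) {ρ : Cardinal.{u}} (hρ : ℵ₀ ≤ ρ) {Q B : Set P}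
    {c : P → P} (hc : IsSp Q c) (hQB : Q ⊆ B) (hQ : ∀ q ∈ Q, #(Inc q ∩ Q : Set P) < ρ)
    (hB : ∀ x ∈ B, #(Inc x ∩ B : Set P) ≤ ρ)
    (hbig : ∀ x ∈ B, x ∉ Q → ρ ≤ #(Inc x ∩ Q : Set P)) :
    ∃ c', IsSp B c' ∧ ∀ x ∈ Q, c' x = c x := by
  obtain ⟨f, hf1, hf2⟩ := exists_label (isRegular_succ hρ)
    (lt_of_le_of_lt hρ (Order.lt_succ ρ)) B (fun x hx => Order.lt_succ_of_le (hB x hx))
  exact hc.ext hρ hQB f hf1 (fun g => Order.le_of_lt_succ (hf2 g))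
    (fun x hx hxQ => hc.good_card hw hρ hQ hxQ (hbig x hx hxQ))

end Pool.Agent.TH537.Spine
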