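import Pool.Agent.TH537.Spine.Ext

set_option autoImplicit false

/-!
# First ends above a point
-/

namespace Pool.Agent.TH537.Spine

open Cardinal

universe u

variable {P : Type u} [PartialOrder P]

open End

theorem EB_lower {μ : Cardinal.{u}} (hμ : ℵ₀ ≤ μ) {Y : Set P} {e : End P} (he : EB μ Y e)
    {o : P} (hY : ∀ y ∈ Y, o < y) : o ∈ e.L := by
  by_cases hu : e.up
  · obtain ⟨t, ht⟩ := e.ne
    obtain ⟨y, hy, hyt⟩ := EB_exists hμ he ht
    rw [mem_tail_up hu] at hyt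
    exact L_lower ((mem_L_up hu).2 hyt.1) (hY y hy).le
  · refine (mem_L_dn hu).2 (fun s hs => ?_)
    obtain ⟨y, hy, hyt⟩ := EB_exists hμ he hs
    rw [mem_tail_dn hu] at hyt
    exact lt_trans (hY y hy) hyt.2

theorem EB_upper {μ : Cardinal.{u}} (hμ : ℵ₀ ≤ μ) {Y : Set P} {e : End P} (he : EB μ Y e)
    {o : P} (hY : ∀ y ∈ Y, y < o) : o ∈ e.U := by
  by_cases hu : e.up
  · refine (mem_U_up hu).2 (fun s hs => ?_)
    obtain ⟨y, hy, hyt⟩ := EB_exists hμ he hs
    rw [mem_tail_up hu] at hyt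
    exact lt_trans hyt.2 (hY y hy)
  · obtain ⟨t, ht⟩ := e.ne
    obtain ⟨y, hy, hyt⟩ := EB_exists hμ he ht
    rw [mem_tail_dn hu] at hyt
    exact U_upper ((mem_U_dn hu).2 hyt.1) (hY y hy).le

theorem exists_bound2 (e : End P) {s t : P} (hs : s ∈ e.S) (ht : t ∈ e.S) :
    ∃ r ∈ e.S, r ∈ e.tail s ∧ r ∈ e.tail t := by
  classical
  obtain ⟨r, hr, h⟩ := exists_bound e {s, t} (by
    intro y hy
    simp only [Finset.mem_insert, Finset.mem_singleton] at hy
    rcases hy with rfl | rfl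
    · exact hs
    · exact ht)
  exact ⟨r, hr, h s (by simp), h t (by simp)⟩

theorem EB_restrict {μ : Cardinal.{u}} {T B : Set P} {e : End P} (he : EB μ T e)
    {t₀ : P} (ht₀ : t₀ ∈ e.S) (h : ∀ x ∈ T, x ∈ e.tail t₀ → x ∈ B) : EB μ B e := by
  intro t ht
  obtain ⟨r, hr, h1, h2⟩ := exists_bound2 e ht ht₀
  refine (he r hr).trans (Cardinal.mk_le_mk_of_subset ?_)
  rintro x ⟨hx, hxr⟩
  exact ⟨h x hx (tail_trans h2 hxr), tail_trans h1 hxr⟩

theorem tail_L_of_slt {e b : End P} (h : slt e b) : ∃ t ∈ e.S, ∀ x ∈ e.tail t, x ∈ b.L := by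
  by_cases hu : e.up
  · obtain ⟨t, ht⟩ := e.ne
    refine ⟨t, ht, fun x hx => ?_⟩
    rw [mem_tail_up hu] at hx
    exact L_of_slt h ((mem_L_up hu).2 hx.1)
  · obtain ⟨v, hv1, hv2⟩ := exists_real_of_slt h (fun h => hu h.1)
    refine ⟨v, (mem_U_dn hu).1 hv1, fun x hx => ?_⟩
    rw [mem_tail_dn hu] at hx
    exact L_lower hv2 hx.2.le

theorem tail_gt {e : End P} {o : P} (h : o ∈ e.L) : ∃ t ∈ e.S, ∀ x ∈ e.tail t, o < x := by
  by_cases hu : e.up
  · refine ⟨o, (mem_L_up hu).1 h, fun x hx => ?_⟩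
    rw [mem_tail_up hu] at hx
    exact hx.2
  · obtain ⟨t, ht⟩ := e.ne
    refine ⟨t, ht, fun x hx => ?_⟩
    rw [mem_tail_dn hu] at hx
    exact (mem_L_dn hu).1 h x hx.1

theorem tail_lt {e : End P} {o : P} (h : o ∈ e.U) : ∃ t ∈ e.S, ∀ x ∈ e.tail t, x < o := by
  by_cases hu : e.up
  · obtain ⟨t, ht⟩ := e.ne
    refine ⟨t, ht, fun x hx => ?_⟩
    rw [mem_tail_up hu] at hx
    exact (mem_U_up hu).1 h x hx.1
  · refine ⟨o, (mem_U_dn hu).1 h, fun x hx => ?_⟩
    rw [mem_tail_dn hu] at hx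
    exact hx.2

/-- ends of size `μ` of `T` above `o` -/
def HH (T : Set P) (o : P) (μ : Cardinal.{u}) : Set (End P) := {e | EB μ T e ∧ o ∈ e.L}

/-- first ends -/
def FF (T : Set P) (o : P) (μ : Cardinal.{u}) : Set (End P) :=
  {e | e ∈ HH T o μ ∧ ∀ e' ∈ HH T o μ, ¬ slt e' e}

/-- minimal first ends -/
def FS (T : Set P) (o : P) (μ : Cardinal.{u}) : Set (End P) :=
  {e | e ∈ FF T o μ ∧ (e.up → ∀ e' ∈ FF T o μ, e'.up → e'.S ⊆ e.S → e' = e)}

/-- the region below `b` and above `o` -/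
def BB (T : Set P) (o : P) (b : End P) : Set P := {p | p ∈ T ∧ o < p ∧ p ∈ b.L}

section
variable {T : Set P} {o : P} {μ : Cardinal.{u}}

theorem HH_mono {μ' : Cardinal.{u}} (h : μ ≤ μ') : HH T o μ' ⊆ HH T o μ :=
  fun _ he => ⟨EB_le h he.1, he.2⟩

theorem FF_finite {w : ℕ} (hw : FW P w) : (FF T o μ).Finite :=
  finite_of_incomp hw _ (fun _ ha _ hb => hb.2 _ ha.1)

theorem FS_finite {w : ℕ} (hw : FW P w) : (FS T o μ).Finite :=
  (FF_finite hw).subset (fun _ h => h.1)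

/-- every end has a first end below it -/
theorem exists_FF {e : End P} (he : e ∈ HH T o μ) : ∃ f ∈ FF T o μ, f = e ∨ slt f e := by
  classical
  let 𝒮 : Set (Set (End P)) := {C | C ⊆ {e' | e' ∈ HH T o μ ∧ (e' = e ∨ slt e' e)} ∧
    (∀ a ∈ C, ∀ b ∈ C, a = b ∨ slt a b ∨ slt b a)}
  have hz : ∃ C, ({e} : Set (End P)) ⊆ C ∧ Maximal (fun C => C ∈ 𝒮) C := by
    apply zorn_subset_nonempty 𝒮
    · intro c hc hch hcne
      refine ⟨⋃₀ c, ⟨?_, ?_⟩, fun s hs => Set.subset_sUnion_of_mem hs⟩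
      · rintro a ⟨s, hs, has⟩
        exact (hc hs).1 has
      · rintro a ⟨s, hs, has⟩ b ⟨t, ht, hbt⟩
        rcases hch.total hs ht with h1 | h1
        · exact (hc ht).2 a (h1 has) b hbt
        · exact (hc hs).2 a has b (h1 hbt)
    · refine ⟨?_, ?_⟩
      · rintro a ha
        rw [Set.mem_singleton_iff.1 ha]
        exact ⟨he, Or.inl rfl⟩
      · intro a ha b hb
        rw [Set.mem_singleton_iff.1 ha, Set.mem_singleton_iff.1 hb]
        exact Or.inl rfl
  obtain ⟨C, heC, hmax⟩ := hz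
  have heC' : e ∈ C := heC rfl
  have hC : C ∈ 𝒮 := hmax.1
  have hins : ∀ f, f ∈ HH T o μ → (∀ c ∈ C, f = c ∨ slt f c) → f ∈ C := by
    intro f hf hfc
    have h1 : insert f C ∈ 𝒮 := by
      refine ⟨?_, ?_⟩
      · rintro a ha
        rcases Set.mem_insert_iff.1 ha with rfl | ha
        · refine ⟨hf, ?_⟩
          rcases hfc e heC' with h | h
          · exact Or.inl h
          · exact Or.inr h
        · exact hC.1 ha
      · intro a ha b hb
        rcases Set.mem_insert_iff.1 ha with h2 | h2 <;> rcases Set.mem_insert_iff.1 hb with h3 | h3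
        · exact Or.inl (h2.trans h3.symm)
        · rw [h2]
          rcases hfc b h3 with h | h
          · exact Or.inl h
          · exact Or.inr (Or.inl h)
        · rw [h3]
          rcases hfc a h2 with h | h
          · exact Or.inl h.symm
          · exact Or.inr (Or.inr h)
        · exact hC.2 a h2 b h3
    exact hmax.2 h1 (Set.subset_insert _ _) (Set.mem_insert _ _)
  have hleast : ∃ c ∈ C, ∀ b ∈ C, ¬ slt b c := by
    by_contra hcon
    push Not at hcon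
    obtain ⟨f, h1, h2, h3, h4, h5, h6⟩ := exists_inf_chain C ⟨e, heC'⟩ hC.2 hcon
    have hfH : f ∈ HH T o μ := by
      refine ⟨h6 μ T (fun a ha => (hC.1 ha).1.1), (mem_L_dn h1).2 (fun y hy => ?_)⟩
      obtain ⟨a, ha, hya⟩ := (h2 y).1 ((mem_U_dn h1).2 hy)
      exact L_lt_U (hC.1 ha).1.2 hya
    have := hins f hfH (fun c hc => Or.inr (h3 c hc))
    exact slt_irrefl _ (h3 f this)
  obtain ⟨c, hc, hcl⟩ := hleast
  refine ⟨c, ⟨(hC.1 hc).1, fun e' he' hlt => ?_⟩, (hC.1 hc).2⟩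
  refine hcl e' (hins e' he' (fun b hb => ?_)) hlt
  rcases hC.2 b hb c hc with h | h | h
  · exact Or.inr (h ▸ hlt)
  · exact absurd h (hcl b hb)
  · exact Or.inr (slt_trans hlt h)

/-- minimal up ends among the first ends -/
theorem exists_FS_of_up {w : ℕ} (hw : FW P w) {f : End P} (hf : f ∈ FF T o μ) (hfu : f.up) :
    ∃ f' ∈ FS T o μ, f'.up ∧ f'.S ⊆ f.S := by
  classical
  have hfin : ({g | g ∈ FF T o μ ∧ g.up ∧ g.S ⊆ f.S} : Set (End P)).Finite :=
    (FF_finite hw).subset (fun _ h => h.1)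
  obtain ⟨g, hg, hmin⟩ := Set.Finite.exists_minimalFor (fun g : End P => g.S) _ hfin
    ⟨f, hf, hfu, le_rfl⟩
  refine ⟨g, ⟨hg.1, fun _ e' he' he'u hsub => ?_⟩, hg.2.1, hg.2.2⟩
  have h1 : g.S ⊆ e'.S := hmin (j := e') ⟨he', he'u, hsub.trans hg.2.2⟩ hsub
  exact ext' ⟨fun _ => hg.2.1, fun _ => he'u⟩ (Set.Subset.antisymm hsub h1)

/-- (F4) -/
theorem FS_inc {w : ℕ} (hw : FW P w) (hμ : ℵ₀ ≤ μ) {b : End P} (hb : b ∈ FS T o μ) {q : P}
    (hq : q ∈ b.L) : #{p | p ∈ BB T o b ∧ p ∈ Inc q} < μ := by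
  by_contra hcon
  push Not at hcon
  obtain ⟨e, he⟩ := exists_end hw hμ _ hcon
  have hoe : o ∈ e.L := EB_lower hμ he (fun y hy => hy.1.2.1)
  have heH : e ∈ HH T o μ := ⟨EB_mono (fun y hy => hy.1.1) he, hoe⟩
  by_cases hu : e.up
  · have hsub : ∀ s ∈ e.S, s ∈ b.L := by
      intro s hs
      obtain ⟨y, hy, hyt⟩ := EB_exists hμ he hs
      rw [mem_tail_up hu] at hyt
      exact L_lower hy.1.2.2 hyt.2.le
    by_cases hbu : b.up
    · have hsub' : e.S ⊆ b.S := fun s hs => (mem_L_up hbu).1 (hsub s hs)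
      have hwle : wle e b := Or.inr (Or.inl ⟨hu, hbu, hsub'⟩)
      have heF : e ∈ FF T o μ := ⟨heH, fun e' he' h => hb.1.2 e' he' (slt_wle h hwle)⟩
      have heb := hb.2 hbu e heF hu hsub'
      have hqe : q ∈ e.S := by
        rw [heb]
        exact (mem_L_up hbu).1 hq
      obtain ⟨y, hy, hyt⟩ := EB_exists hμ he hqe
      rw [mem_tail_up hu] at hyt
      exact hy.2.2 hyt.2.le
    · exact hb.1.2 e heH (Or.inr ⟨hu, hbu, fun x hx y hy => (mem_L_dn hbu).1 (hsub x hx) y hy⟩)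
  · obtain ⟨t, ht⟩ := e.ne
    obtain ⟨y, hy, hyt⟩ := EB_exists hμ he ht
    rw [mem_tail_dn hu] at hyt
    exact hb.1.2 e heH (slt_of_mem ((mem_U_dn hu).2 hyt.1) hy.1.2.2)

/-- (F5) -/
theorem FF_card {w : ℕ} (hw : FW P w) (hμ : ℵ₀ ≤ μ) {b : End P} (hb : b ∈ FF T o μ) :
    #(BB T o b) ≤ μ := by
  classical
  by_contra hcon
  push Not at hcon
  have hw' := hw
  obtain ⟨col, hcol⟩ := hw'
  have hsμ : ℵ₀ ≤ Order.succ μ := hμ.trans (Order.le_succ μ)
  obtain ⟨i, hi⟩ := exists_col_card col hsμ (BB T o b) (Order.succ_le_of_lt hcon)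
  set Y : Set P := {y | y ∈ BB T o b ∧ col y = i} with hY
  have hsmall : ∀ y ∈ Y, #{y' | y' ∈ Y ∧ y' < y} < μ := by
    intro y hy
    by_contra h
    push Not at h
    obtain ⟨e, he⟩ := exists_end hw hμ _ h
    have hoe : o ∈ e.L := EB_lower hμ he (fun y hy => hy.1.1.2.1)
    have heH : e ∈ HH T o μ := ⟨EB_mono (fun y hy => hy.1.1.1) he, hoe⟩
    have hyU : y ∈ e.U := EB_upper hμ he (fun y hy => hy.2)
    exact hb.2 e heH (slt_of_mem hyU hy.1.2.2)
  obtain ⟨Z, hZY, hZ⟩ := Cardinal.le_mk_iff_exists_subset.1 ((Order.le_succ μ).trans hi)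
  by_cases hcof : ∃ y ∈ Y, ∀ z ∈ Z, z < y
  · obtain ⟨y, hy, hyZ⟩ := hcof
    have h1 : #Z ≤ #{y' | y' ∈ Y ∧ y' < y} :=
      Cardinal.mk_le_mk_of_subset (fun z hz => ⟨hZY hz, hyZ z hz⟩)
    rw [hZ] at h1
    exact absurd (hsmall y hy) (not_lt.2 h1)
  · push Not at hcof
    have hsub : Y ⊆ ⋃ z ∈ Z, ({y' | y' ∈ Y ∧ y' < z} ∪ {z}) := by
      intro y hy
      obtain ⟨z, hz, hzy⟩ := hcof y hy
      refine Set.mem_biUnion hz ?_
      rcases hcol y z (hy.2.trans (hZY hz).2.symm) with h | h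
      · rcases eq_or_lt_of_le h with h2 | h2
        · exact Or.inr h2
        · exact Or.inl ⟨hy, h2⟩
      · rcases eq_or_lt_of_le h with h2 | h2
        · exact Or.inr h2.symm
        · exact absurd h2 hzy
    have hlt : #(⋃ z ∈ Z, ({y' | y' ∈ Y ∧ y' < z} ∪ {z}) : Set P) < Order.succ μ := by
      rw [card_biUnion_lt_iff_forall_of_isRegular (isRegular_succ hμ)
        (by rw [hZ]; exact Order.lt_succ μ)]
      intro z hz
      exact lt_of_le_of_lt (Cardinal.mk_union_le _ _) (Cardinal.add_lt_of_lt hsμ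
        (lt_trans (hsmall z (hZY hz)) (Order.lt_succ μ)) (card_singleton_lt hsμ z))
    exact absurd (hi.trans (Cardinal.mk_le_mk_of_subset hsub)) (not_le.2 hlt)

theorem FF_not_HH {w : ℕ} (hw : FW P w) (hμ : ℵ₀ ≤ μ) {μ' : Cardinal.{u}} (h : μ < μ')
    {b : End P} (hb : b ∈ FF T o μ) (hbu : b.up) : b ∉ HH T o μ' := by
  intro hbH
  have h1 := hbH.1 o ((mem_L_up hbu).1 hbH.2)
  have h2 : T ∩ b.tail o ⊆ BB T o b := by
    rintro x ⟨hx, hxt⟩
    rw [mem_tail_up hbu] at hxt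
    exact ⟨hx, hxt.2, (mem_L_up hbu).2 hxt.1⟩
  exact absurd (h1.trans ((Cardinal.mk_le_mk_of_subset h2).trans (FF_card hw hμ hb)))
    (not_le.2 h)

/-- (F6) -/
theorem exists_FS_below {w : ℕ} (hw : FW P w) (hμ : ℵ₀ ≤ μ) {μ' : Cardinal.{u}} (h : μ < μ')
    {b : End P} (hb : b ∈ HH T o μ') : ∃ a ∈ FS T o μ, a = b ∨ slt a b := by
  obtain ⟨f, hf, hfb⟩ := exists_FF (HH_mono h.le hb)
  by_cases hfu : f.up
  · obtain ⟨f', hf', hf'u, hsub⟩ := exists_FS_of_up hw hf hfu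
    have hwle : wle f' f := Or.inr (Or.inl ⟨hf'u, hfu, hsub⟩)
    rcases hfb with rfl | hfb
    · exact absurd hb (FF_not_HH hw hμ h hf hfu)
    · exact ⟨f', hf', Or.inr (wle_slt hwle hfb)⟩
  · exact ⟨f, ⟨hf, fun h => absurd h hfu⟩, hfb⟩

/-- (F9) -/
theorem EB_BB {e b : End P} (he : e ∈ HH T o μ) (h : ∃ t ∈ e.S, ∀ x ∈ e.tail t, x ∈ b.L) :
    EB μ (BB T o b) e := by
  obtain ⟨t, ht, h1⟩ := h
  obtain ⟨s, hs, h2⟩ := tail_gt he.2
  obtain ⟨r, hr, hrt, hrs⟩ := exists_bound2 e ht hs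
  exact EB_restrict he.1 hr (fun x hx hxr =>
    ⟨hx, h2 x (tail_trans hrs hxr), h1 x (tail_trans hrt hxr)⟩)

/-- (F7) -/
theorem FS_top {w : ℕ} (hw : FW P w) (hμ : ℵ₀ ≤ μ) {b : End P}
    (hb : b ∈ FS T o (Order.succ μ)) {e : End P} (he : EB μ (BB T o b) e) :
    e = b ∨ slt e b := by
  classical
  have hsμ : ℵ₀ ≤ Order.succ μ := hμ.trans (Order.le_succ μ)
  by_cases hu : e.up
  · have hsub : ∀ s ∈ e.S, s ∈ b.L := by
      intro s hs
      obtain ⟨y, hy, hyt⟩ := EB_exists hμ he hs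
      rw [mem_tail_up hu] at hyt
      exact L_lower hy.2.2 hyt.2.le
    by_cases hbu : b.up
    · have hsub' : e.S ⊆ b.S := fun s hs => (mem_L_up hbu).1 (hsub s hs)
      have hwle : wle e b := Or.inr (Or.inl ⟨hu, hbu, hsub'⟩)
      by_contra hcon
      push Not at hcon
      obtain ⟨hne, hnlt⟩ := hcon
      have hoe : o ∈ e.L := EB_lower hμ he (fun y hy => hy.2.1)
      -- `e` is not of size `succ μ`
      have hnb : ¬ EB (Order.succ μ) T e := by
        intro h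
        have heH : e ∈ HH T o (Order.succ μ) := ⟨h, hoe⟩
        exact hne (hb.2 hbu e ⟨heH, fun e' he' h' => hb.1.2 e' he' (slt_wle h' hwle)⟩ hu hsub')
      unfold EB at hnb
      push Not at hnb
      obtain ⟨t₀, ht₀, htc⟩ := hnb
      -- a point of `b` above `o` and outside `e`
      obtain ⟨t, htb, hte, hot⟩ : ∃ t ∈ b.S, t ∉ e.S ∧ o < t := by
        have h1 : ¬ b.S ⊆ e.S := fun h => hne (ext' ⟨fun _ => hbu, fun _ => hu⟩
          (Set.Subset.antisymm hsub' h))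
        obtain ⟨s, hs, hse⟩ := Set.not_subset.1 h1
        obtain ⟨r, hr, hr1, hr2⟩ := (b.upc hbu).2 s hs o ((mem_L_up hbu).1 hb.1.1.2)
        exact ⟨r, hr, fun h => hse ((e.upc hu).1 r h s hr1.le), hr2⟩
      have hcov : T ∩ b.tail t ⊆ ⋃ y ∈ T ∩ e.tail t₀, {p | p ∈ BB T o b ∧ p ∈ Inc y} := by
        rintro z ⟨hzT, hz⟩
        rw [mem_tail_up hbu] at hz
        have hzU : z ∉ e.U := fun h => hnlt (slt_of_mem h ((mem_L_up hbu).2 hz.1))
        rw [mem_U_up hu] at hzU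
        push Not at hzU
        obtain ⟨s, hs, hsz⟩ := hzU
        obtain ⟨r, hr, hrs, hrt⟩ := exists_bound2 e hs ht₀
        obtain ⟨y, hy, hyt⟩ := EB_exists hμ he hr
        have hyt₀ := tail_trans hrt hyt
        have hys := tail_trans hrs hyt
        rw [mem_tail_up hu] at hys
        refine Set.mem_biUnion ⟨hy.1, hyt₀⟩ ⟨⟨hzT, lt_trans hot hz.2, (mem_L_up hbu).2 hz.1⟩,
          ?_, ?_⟩
        · intro h
          exact hte ((e.upc hu).1 y hys.1 t (hz.2.le.trans h))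
        · intro h
          exact hsz (lt_of_lt_of_le hys.2 h)
      have hlt : #(⋃ y ∈ T ∩ e.tail t₀, {p | p ∈ BB T o b ∧ p ∈ Inc y} : Set P) <
          Order.succ μ := by
        rw [card_biUnion_lt_iff_forall_of_isRegular (isRegular_succ hμ) htc]
        rintro y ⟨hyT, hy⟩
        rw [mem_tail_up hu] at hy
        exact FS_inc hw hsμ hb (hsub y hy.1)
      exact absurd ((hb.1.1.1 t htb).trans (Cardinal.mk_le_mk_of_subset hcov)) (not_le.2 hlt)
    · right
      exact Or.inr ⟨hu, hbu, fun x hx y hy => (mem_L_dn hbu).1 (hsub x hx) y hy⟩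
  · right
    obtain ⟨t, ht⟩ := e.ne
    obtain ⟨y, hy, hyt⟩ := EB_exists hμ he ht
    rw [mem_tail_dn hu] at hyt
    exact slt_of_mem ((mem_U_dn hu).2 hyt.1) hy.2.2

/-- (F8) -/
theorem exists_step {w : ℕ} (hw : FW P w) (hμ : ℵ₀ ≤ μ) {b : End P}
    (hb : b ∈ FS T o (Order.succ μ)) :
    ∃ (K : Set (End P)) (a : End P), IsK μ (BB T o b) K ∧ a ∈ FS T o μ ∧ (a = b ∨ slt a b) ∧
      (∀ k ∈ K, k = a ∨ slt a k) ∧ (a ∈ K ∨ (K = ∅ ∧ a = b)) := by
  classical
  obtain ⟨K, hK⟩ := exists_IsK hw μ (BB T o b)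
  have hsH : ∀ e ∈ HH T o (Order.succ μ), e ∈ HH T o μ := fun e he =>
    HH_mono (Order.le_succ μ) he
  by_cases hne : K.Nonempty
  · have hleast : ∃ a ∈ K, ∀ k ∈ K, k = a ∨ slt a k := by
      by_contra hcon
      push Not at hcon
      have hlim : ∀ a ∈ K, ∃ k ∈ K, slt k a := by
        intro a ha
        obtain ⟨k, hk, hka, hak⟩ := hcon a ha
        rcases hK.chn a ha k hk with h | h | h
        · exact absurd h.symm hka
        · exact absurd h hak
        · exact ⟨k, hk, h⟩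
      obtain ⟨f, hf, -, -, h3, -, -⟩ := hK.inf_mem K (fun _ h => h) hne hlim
      exact slt_irrefl _ (h3 f hf)
    obtain ⟨a, haK, hal⟩ := hleast
    have hEa := hK.sub a haK
    have haH : a ∈ HH T o μ := ⟨EB_mono (fun y hy => hy.1) hEa,
      EB_lower hμ hEa (fun y hy => hy.2.1)⟩
    have hab : a = b ∨ slt a b := FS_top hw hμ hb hEa
    have haF : a ∈ FF T o μ := by
      refine ⟨haH, fun e he hlt => ?_⟩
      have heb : slt e b := by
        rcases hab with h | h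
        · exact h ▸ hlt
        · exact slt_trans hlt h
      have heE : EB μ (BB T o b) e := EB_BB he (tail_L_of_slt heb)
      have heK : e ∉ K := by
        intro h
        rcases hal e h with h2 | h2
        · exact slt_irrefl _ (h2 ▸ hlt)
        · exact slt_irrefl _ (slt_trans hlt h2)
      obtain ⟨k, hk, h1, h2, -⟩ := hK.att e heE heK
      rcases hal k hk with h | h
      · exact h2 (h ▸ hlt)
      · exact h2 (slt_trans hlt h)
    have haS : a ∈ FS T o μ := by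
      refine ⟨haF, fun hau e he heu hsub => ?_⟩
      by_contra hne'
      have hwle : wle e a := Or.inr (Or.inl ⟨heu, hau, hsub⟩)
      have htl : ∃ t ∈ e.S, ∀ x ∈ e.tail t, x ∈ b.L := by
        obtain ⟨t, ht⟩ := e.ne
        refine ⟨t, ht, fun x hx => ?_⟩
        rw [mem_tail_up heu] at hx
        have h1 : x ∈ a.L := (mem_L_up hau).2 (hsub hx.1)
        rcases hab with h | h
        · exact h ▸ h1
        · exact L_of_slt h h1
      have heE : EB μ (BB T o b) e := EB_BB he.1 htl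
      have heK : e ∉ K := by
        intro h
        rcases hal e h with h2 | h2
        · exact hne' h2
        · exact slt_irrefl _ (slt_wle h2 hwle)
      obtain ⟨k, hk, h1, h2, h3⟩ := hK.att e heE heK
      rcases hal k hk with h | h
      · rw [h] at h3
        exact h3 ⟨⟨fun _ => hau, fun _ => heu⟩, hsub⟩
      · exact h2 (wle_slt hwle h)
    exact ⟨K, a, hK, haS, hab, hal, Or.inl haK⟩
  · rw [Set.not_nonempty_iff_eq_empty] at hne
    have hno : ∀ e, ¬ EB μ (BB T o b) e := by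
      intro e he
      obtain ⟨k, hk, -⟩ := hK.att e he (by rw [hne]; exact Set.notMem_empty _)
      rw [hne] at hk
      exact hk
    have hbd : ¬ b.up := by
      intro hbu
      apply hno b
      refine EB_BB (hsH b hb.1.1) ?_
      obtain ⟨t, ht⟩ := b.ne
      refine ⟨t, ht, fun x hx => ?_⟩
      rw [mem_tail_up hbu] at hx
      exact (mem_L_up hbu).2 hx.1
    refine ⟨K, b, hK, ⟨⟨hsH b hb.1.1, fun e he hlt => ?_⟩, fun h => absurd h hbd⟩, Or.inl rfl, ?_,
      Or.inr ⟨hne, rfl⟩⟩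
    · exact hno e (EB_BB he (tail_L_of_slt hlt))
    · intro k hk
      rw [hne] at hk
      exact hk.elim

end

end Pool.Agent.TH537.Spine
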