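import Pool.Agent.TH537.Spine.Sing
import Pool.Agent.TH398.Spine
import Pool.Agent.H643R2.ChainDec

set_option autoImplicit false

/-!
# The fish bone theorem for posets of finite width
-/

namespace Pool.Agent.TH537.Spine

open Cardinal End

universe u

variable {P : Type u} [PartialOrder P]

theorem finite_isSp (F : Finset P) : ∃ c, IsSp (F : Set P) c := by
  obtain ⟨c, h1, h2, h3, h4⟩ := Pool.Agent.TH398.finite_spine F.card F le_rfl
  exact ⟨c, h1, h2, h3, h4⟩

/-- the fish bone theorem, by induction on the cardinality -/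
theorem exists_isSp {w : ℕ} (hw : FW P w) : ∀ (κ : Cardinal.{u}) (A : Set P), #A = κ →
    ∃ c, IsSp A c := by
  classical
  intro κ
  induction κ using WellFoundedLT.induction with
  | _ κ ih =>
  intro A hA
  have IH : ∀ B : Set P, #B < κ → ∃ c, IsSp B c := fun B hB => ih _ hB B rfl
  by_cases hfin : κ < ℵ₀
  · have h1 : A.Finite := by
      rw [← hA] at hfin
      exact Cardinal.lt_aleph0_iff_set_finite.1 hfin
    obtain ⟨c, hc⟩ := finite_isSp h1.toFinset
    rw [h1.coe_toFinset] at hc
    exact ⟨c, hc⟩
  · have hκ : ℵ₀ ≤ κ := not_lt.1 hfin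
    obtain ⟨K, hK⟩ := exists_IsK hw κ A
    have hQA : QK K A ⊆ A := fun x hx => hx.1
    have hQ : ∀ q ∈ QK K A, #(Inc q ∩ QK K A : Set P) < κ := fun q hq =>
      hK.inc_lt hw hκ q hq.2
    have hout : ∀ x ∈ A, x ∉ QK K A → κ ≤ #(Inc x ∩ QK K A : Set P) := by
      intro x hx hxn
      have : ∃ k ∈ K, x ∉ k.L ∧ x ∉ k.U := by
        by_contra h
        push Not at h
        exact hxn ⟨hx, fun k hk => by
          by_cases h2 : x ∈ k.L
          · exact Or.inl h2
          · exact Or.inr (h k hk h2)⟩
      obtain ⟨k, hk, h1, h2⟩ := this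
      exact hK.le_inc hw hκ x hk h1 h2
    -- it suffices to treat `Q`
    suffices hsuff : ∃ c, IsSp (QK K A) c by
      obtain ⟨c, hc⟩ := hsuff
      obtain ⟨c', hc', -⟩ := hc.ext' hw hκ hQA hQ (fun x _ =>
        (Cardinal.mk_le_mk_of_subset Set.inter_subset_right).trans hA.le) hout
      exact ⟨c', hc'⟩
    rcases eq_or_lt_of_le hκ with hκ0 | hκ0
    · -- countable case
      have hlf : ∀ x ∈ QK K A, {q | q ∈ QK K A ∧ ¬ q ≤ x ∧ ¬ x ≤ q}.Finite := by
        intro x hx
        have h1 := hQ x hx
        rw [← hκ0] at h1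
        refine (Cardinal.lt_aleph0_iff_set_finite.1 h1).subset ?_
        rintro q ⟨hq1, hq2⟩
        exact ⟨hq2, hq1⟩
      obtain ⟨c, h1, h2, h3, h4⟩ := Pool.Agent.TH398.locfin_spine (QK K A) hlf
      exact ⟨c, h1, h2, h3, h4⟩
    · rcases isRegular_or_isSingular hκ with hreg | hsing
      · -- regular case
        obtain ⟨f, hf1, hf2⟩ := exists_label hreg hκ0 (QK K A) hQ
        have hc : ∀ g, ∃ c, IsSp {x | x ∈ QK K A ∧ f x = g} c := fun g => IH _ (hf2 g)
        choose c hc using hc
        refine ⟨_, IsSp.glue (QK K A) f ?_ c hc⟩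
        intro x hx y hy hxy
        by_contra hcon
        push Not at hcon
        exact hxy (hf1 x hx y hy ⟨hcon.2, hcon.1⟩)
      · -- singular case
        have hlim : ∀ μ < κ, Order.succ μ < κ := fun μ hμ => hsing.isSuccLimit.succ_lt hμ
        let f : P → Set (End P) := fun q => {k | k ∈ K ∧ q ∈ k.L}
        have hcmp : ∀ x ∈ QK K A, ∀ y ∈ QK K A, f x ≠ f y → x ≤ y ∨ y ≤ x := by
          intro x hx y hy hxy
          by_contra hcon
          push Not at hcon
          apply hxy
          ext k
          constructor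
          · rintro ⟨hk, h1⟩
            refine ⟨hk, ?_⟩
            rcases hy.2 k hk with h2 | h2
            · exact h2
            · exact absurd (L_lt_U h1 h2).le hcon.1
          · rintro ⟨hk, h1⟩
            refine ⟨hk, ?_⟩
            rcases hx.2 k hk with h2 | h2
            · exact h2
            · exact absurd (L_lt_U h1 h2).le hcon.2
        have hc : ∀ g, ∃ c, IsSp {x | x ∈ QK K A ∧ f x = g} c := by
          intro g
          set T : Set P := {x | x ∈ QK K A ∧ f x = g} with hT
          by_cases hTc : #T < κ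
          · exact IH _ hTc
          · push Not at hTc
            obtain ⟨o, ho⟩ := nonempty_of_card hκ hTc
            refine sing_spine hw hκ0 hlim ho ?_ ?_ IH
            · intro q hq q' hq' hqq'
              by_contra hbig
              push Not at hbig
              obtain ⟨e, he⟩ := exists_end hw hκ _ hbig
              have heA : EB κ A e := EB_mono (fun y hy => hy.1.1.1) he
              have hqL : q ∈ e.L := EB_lower hκ he (fun y hy => hy.2.1)
              have hqU : q' ∈ e.U := EB_upper hκ he (fun y hy => hy.2.2)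
              have hff : f q = f q' := hq.2.trans hq'.2.symm
              by_cases heK : e ∈ K
              · have h1 : e ∈ f q := ⟨heK, hqL⟩
                rw [hff] at h1
                exact lt_irrefl _ (L_lt_U h1.2 hqU)
              · obtain ⟨k, hk, h1, h2, -⟩ := hK.att e heA heK
                rcases hq.1.2 k hk with h3 | h3
                · have h4 : k ∈ f q := ⟨hk, h3⟩
                  rw [hff] at h4
                  exact h2 (slt_of_mem hqU h4.2)
                · exact h1 (slt_of_mem h3 hqL)
            · intro q hq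
              exact lt_of_le_of_lt (Cardinal.mk_le_mk_of_subset
                (Set.inter_subset_inter_right _ (fun x hx => hx.1))) (hQ q hq.1)
        choose c hc using hc
        exact ⟨_, IsSp.glue (QK K A) f hcmp c hc⟩

theorem fw_of_antichains (w : ℕ)
    (hw : ∀ A : Set P, IsAntichain (· ≤ ·) A → A.encard ≤ (w : ℕ∞)) : FW P w := by
  obtain ⟨col, hcol⟩ := Pool.Agent.H643R2.ChainDec.dilworth (α := P) w (by
    intro S hS
    have h1 : IsAntichain (· ≤ ·) (S : Set P) := by
      intro a ha b hb hab hle
      exact hab (hS a ha b hb hle)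
    have h2 := hw (S : Set P) h1
    rw [Set.encard_coe_eq_coe_finsetCard] at h2
    exact_mod_cast h2)
  exact ⟨col, hcol⟩

/-- **The fish bone theorem** for posets of finite width. -/
theorem fishbone (P : Type u) [PartialOrder P] (w : ℕ)
    (hw : ∀ A : Set P, IsAntichain (· ≤ ·) A → A.encard ≤ (w : ℕ∞)) :
    ∃ C : Set P, IsChain (· ≤ ·) C ∧
      ∃ D : Set (Set P), Setoid.IsPartition D ∧
        (∀ A ∈ D, IsAntichain (· ≤ ·) A) ∧ ∀ A ∈ D, (A ∩ C).Nonempty := by
  obtain ⟨c, hc⟩ := exists_isSp (fw_of_antichains w hw) _ (Set.univ : Set P) rfl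
  refine ⟨Set.range c, ?_, (Setoid.ker c).classes, Setoid.isPartition_classes _, ?_, ?_⟩
  · rintro _ ⟨p, rfl⟩ _ ⟨q, rfl⟩ _
    exact hc.chain p trivial q trivial
  · rintro A ⟨y, rfl⟩ a ha b hb hab hle
    have ha' : c a = c y := ha
    have hb' : c b = c y := hb
    exact hc.anti a trivial b trivial (ha'.trans hb'.symm) (lt_of_le_of_ne hle hab)
  · rintro A ⟨y, rfl⟩
    exact ⟨c y, hc.idem y trivial, y, rfl⟩

end Pool.Agent.TH537.Spine
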