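import Pool.Agent.TH537.Spine.Ends

set_option autoImplicit false

/-!
# Structure theorem relative to a kernel of `E_κ(B)`
-/

namespace Pool.Agent.TH537.Spine

open Cardinal Pool.Agent.TH398

universe u

variable {P : Type u} [PartialOrder P]

theorem card_le_of_FW {w : ℕ} (hw : FW P w) (A : Finset P)
    (hA : IsAntichain (· ≤ ·) (A : Set P)) : A.card ≤ w := by
  obtain ⟨col, hcol⟩ := hw
  have h1 : A.card ≤ (Finset.univ : Finset (Fin w)).card := by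
    refine Finset.card_le_card_of_injOn col (fun _ _ => Finset.mem_univ _) ?_
    intro x hx y hy hxy
    by_contra hne
    rcases hcol x y hxy with h | h
    · exact hA hx hy hne h
    · exact hA hy hx (Ne.symm hne) h
  simpa using h1

theorem card_lt_of_colors {w : ℕ} (col : P → Fin w) {κ : Cardinal.{u}} (hκ : ℵ₀ ≤ κ) (Y : Set P)
    (h : ∀ i, #{y | y ∈ Y ∧ col y = i} < κ) : #Y < κ := by
  classical
  have key : ∀ F : Finset (Fin w), #{y | y ∈ Y ∧ col y ∈ F} < κ := by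
    intro F
    induction F using Finset.induction_on with
    | empty =>
      have : {y | y ∈ Y ∧ col y ∈ (∅ : Finset (Fin w))} = ∅ := by ext y; simp
      rw [this, Cardinal.mk_eq_zero]
      exact lt_of_lt_of_le Cardinal.aleph0_pos hκ
    | @insert a F ha ih =>
      have : {y | y ∈ Y ∧ col y ∈ insert a F} ⊆
          {y | y ∈ Y ∧ col y = a} ∪ {y | y ∈ Y ∧ col y ∈ F} := by
        rintro y ⟨hy, hy2⟩
        rcases Finset.mem_insert.1 hy2 with h1 | h1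
        · exact Or.inl ⟨hy, h1⟩
        · exact Or.inr ⟨hy, h1⟩
      refine lt_of_le_of_lt (Cardinal.mk_le_mk_of_subset this) ?_
      exact lt_of_le_of_lt (Cardinal.mk_union_le _ _) (Cardinal.add_lt_of_lt hκ (h a) ih)
  have h1 := key Finset.univ
  have : {y | y ∈ Y ∧ col y ∈ (Finset.univ : Finset (Fin w))} = Y := by ext y; simp
  rwa [this] at h1

theorem exists_col_card {w : ℕ} (col : P → Fin w) {κ : Cardinal.{u}} (hκ : ℵ₀ ≤ κ) (Y : Set P)
    (h : κ ≤ #Y) : ∃ i, κ ≤ #{y | y ∈ Y ∧ col y = i} := by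
  by_contra hcon
  push Not at hcon
  exact absurd (card_lt_of_colors col hκ Y hcon) (not_lt.2 h)

theorem card_diff {κ : Cardinal.{u}} (hκ : ℵ₀ ≤ κ) {A B : Set P} (hA : κ ≤ #A) (hB : #B < κ) :
    κ ≤ #(A \ B : Set P) := by
  by_contra hcon
  push Not at hcon
  have h1 : A ⊆ (A \ B) ∪ B := by
    intro x hx
    by_cases h : x ∈ B
    · exact Or.inr h
    · exact Or.inl ⟨hx, h⟩
  have h2 : #A < κ := lt_of_le_of_lt (Cardinal.mk_le_mk_of_subset h1)
    (lt_of_le_of_lt (Cardinal.mk_union_le _ _) (Cardinal.add_lt_of_lt hκ hcon hB))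
  exact absurd h2 (not_lt.2 hA)

theorem card_singleton_lt {κ : Cardinal.{u}} (hκ : ℵ₀ ≤ κ) (x : P) : #({x} : Set P) < κ := by
  rw [Cardinal.mk_singleton]
  exact lt_of_lt_of_le Cardinal.one_lt_aleph0 hκ

theorem nonempty_of_card {κ : Cardinal.{u}} (hκ : ℵ₀ ≤ κ) {A : Set P} (hA : κ ≤ #A) :
    ∃ x, x ∈ A := by
  have h1 : (0 : Cardinal) < #A := lt_of_lt_of_le Cardinal.aleph0_pos (hκ.trans hA)
  have h2 : Nonempty A := Cardinal.mk_ne_zero_iff.1 h1.ne'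
  obtain ⟨⟨x, hx⟩⟩ := h2
  exact ⟨x, hx⟩

open End

/-- Lemma E: every set of size at least `κ` carries an end of size `κ`. -/
theorem exists_end {w : ℕ} (hw : FW P w) {κ : Cardinal.{u}} (hκ : ℵ₀ ≤ κ) (Y : Set P)
    (hY : κ ≤ #Y) : ∃ e : End P, EB κ Y e := by
  classical
  obtain ⟨col, hcol⟩ := hw
  obtain ⟨i, hi⟩ := exists_col_card col hκ Y hY
  set C : Set P := {y | y ∈ Y ∧ col y = i} with hC
  have hCY : C ⊆ Y := fun y hy => hy.1
  have hch : ∀ x ∈ C, ∀ y ∈ C, x ≤ y ∨ y ≤ x := fun x hx y hy => hcol x y (hx.2.trans hy.2.symm)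
  let J : Set P := {c | c ∈ C ∧ #{y | y ∈ C ∧ y < c} < κ}
  have hJC : J ⊆ C := fun c hc => hc.1
  by_cases hJ : κ ≤ #J
  · -- up end
    have hbig : ∀ c ∈ J, κ ≤ #{y | y ∈ J ∧ c < y} := by
      intro c hc
      have h1 := card_diff hκ (card_diff hκ hJ hc.2) (card_singleton_lt hκ c)
      refine h1.trans (Cardinal.mk_le_mk_of_subset ?_)
      rintro y ⟨⟨hy, hyc⟩, hne⟩
      refine ⟨hy, ?_⟩
      rcases hch c hc.1 y hy.1 with h | h
      · exact lt_of_le_of_ne h (fun h2 => hne h2.symm)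
      · exact absurd ⟨hy.1, lt_of_le_of_ne h hne⟩ hyc
    refine ⟨{ up := True, S := {p | ∃ y ∈ J, p ≤ y}, ne := ?_, upc := fun _ => ⟨?_, ?_⟩,
              dnc := fun h => (h trivial).elim }, ?_⟩
    · obtain ⟨x, hx⟩ := nonempty_of_card hκ hJ
      exact ⟨x, x, hx, le_rfl⟩
    · rintro x ⟨z, hz, hxz⟩ y hyx
      exact ⟨z, hz, hyx.trans hxz⟩
    · rintro x ⟨z, hz, hxz⟩ y ⟨z', hz', hyz⟩
      have hmax : ∃ m ∈ J, z ≤ m ∧ z' ≤ m := by
        rcases hch z hz.1 z' hz'.1 with h | h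
        · exact ⟨z', hz', h, le_rfl⟩
        · exact ⟨z, hz, le_rfl, h⟩
      obtain ⟨m, hm, h1, h2⟩ := hmax
      obtain ⟨v, hv, hmv⟩ := nonempty_of_card hκ (hbig m hm)
      exact ⟨v, ⟨v, hv, le_rfl⟩, lt_of_le_of_lt (hxz.trans h1) hmv,
        lt_of_le_of_lt (hyz.trans h2) hmv⟩
    · rintro t ⟨c, hc, htc⟩
      refine (hbig c hc).trans (Cardinal.mk_le_mk_of_subset ?_)
      rintro y ⟨hy, hcy⟩
      refine ⟨hCY (hJC hy), ⟨y, hy, le_rfl⟩, Or.inl ⟨trivial, lt_of_le_of_lt htc hcy⟩⟩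
  · push Not at hJ
    let D : Set P := C \ J
    have hD : κ ≤ #D := card_diff hκ hi hJ
    have hbig : ∀ c ∈ D, κ ≤ #{y | y ∈ D ∧ y < c} := by
      intro c hc
      have h0 : κ ≤ #{y | y ∈ C ∧ y < c} := by
        by_contra h
        push Not at h
        exact hc.2 ⟨hc.1, h⟩
      refine (card_diff hκ h0 hJ).trans (Cardinal.mk_le_mk_of_subset ?_)
      rintro y ⟨⟨hy, hyc⟩, hne⟩
      exact ⟨⟨hy, hne⟩, hyc⟩
    refine ⟨{ up := False, S := {p | ∃ y ∈ D, y ≤ p}, ne := ?_, dnc := fun _ => ⟨?_, ?_⟩,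
              upc := fun h => h.elim }, ?_⟩
    · obtain ⟨x, hx⟩ := nonempty_of_card hκ hD
      exact ⟨x, x, hx, le_rfl⟩
    · rintro x ⟨z, hz, hxz⟩ y hyx
      exact ⟨z, hz, hxz.trans hyx⟩
    · rintro x ⟨z, hz, hxz⟩ y ⟨z', hz', hyz⟩
      have hmax : ∃ m ∈ D, m ≤ z ∧ m ≤ z' := by
        rcases hch z hz.1 z' hz'.1 with h | h
        · exact ⟨z, hz, le_rfl, h⟩
        · exact ⟨z', hz', h, le_rfl⟩
      obtain ⟨m, hm, h1, h2⟩ := hmax
      obtain ⟨v, hv, hmv⟩ := nonempty_of_card hκ (hbig m hm)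
      exact ⟨v, ⟨v, hv, le_rfl⟩, lt_of_lt_of_le hmv (h1.trans hxz),
        lt_of_lt_of_le hmv (h2.trans hyz)⟩
    · rintro t ⟨c, hc, htc⟩
      refine (hbig c hc).trans (Cardinal.mk_le_mk_of_subset ?_)
      rintro y ⟨hy, hcy⟩
      refine ⟨hCY hy.1, ⟨y, hy, le_rfl⟩, Or.inr ⟨fun h => h, lt_of_lt_of_le hcy htc⟩⟩

/-- kernels of `E_κ(B)` -/
structure IsK (κ : Cardinal.{u}) (B : Set P) (K : Set (End P)) : Prop where
  sub : ∀ k ∈ K, EB κ B k
  chn : ∀ a ∈ K, ∀ b ∈ K, a = b ∨ slt a b ∨ slt b a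
  att : ∀ e, EB κ B e → e ∉ K →
    ∃ k ∈ K, ¬ slt k e ∧ ¬ slt e k ∧ ¬ ((e.up ↔ k.up) ∧ e.S ⊆ k.S)

theorem exists_IsK {w : ℕ} (hw : FW P w) (κ : Cardinal.{u}) (B : Set P) :
    ∃ K, IsK κ B K := by
  obtain ⟨K, hK1, hK2⟩ := (endSys hw κ B).exists_kernel
  refine ⟨{e | ∃ h : EB κ B e, (⟨e, h⟩ : {e : End P // EB κ B e}) ∈ K}, ?_, ?_, ?_⟩
  · rintro k ⟨h, -⟩
    exact h
  · rintro a ⟨ha, haK⟩ b ⟨hb, hbK⟩
    rcases hK1 _ haK _ hbK with h | h | h
    · exact Or.inl (congrArg Subtype.val h)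
    · exact Or.inr (Or.inl h)
    · exact Or.inr (Or.inr h)
  · intro e he heK
    obtain ⟨⟨k, hk⟩, hkK, hatt⟩ := hK2 ⟨e, he⟩ (fun h => heK ⟨he, h⟩)
    refine ⟨k, ⟨hk, hkK⟩, hatt.2.1, hatt.2.2.1, ?_⟩
    rintro ⟨h1, h2⟩
    apply hatt.2.2.2
    refine ⟨fun h3 => hatt.1 h3.symm, ?_⟩
    by_cases hu : e.up
    · exact Or.inl ⟨hu, h1.1 hu, Or.inr (Or.inl ⟨hu, h1.1 hu, h2⟩), hatt.2.2.1⟩
    · have hu' : ¬ k.up := fun h => hu (h1.2 h)
      exact Or.inr ⟨hu, hu', Or.inr (Or.inr ⟨hu', hu, h2⟩), hatt.2.1⟩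

/-- the elements of `B` comparable with all ends of `K` -/
def QK (K : Set (End P)) (B : Set P) : Set P := {q | q ∈ B ∧ ∀ k ∈ K, q ∈ k.L ∨ q ∈ k.U}

theorem att_incomp {k e : End P} (h1 : ¬ slt k e) (h2 : ¬ slt e k)
    (h3 : ¬ ((e.up ↔ k.up) ∧ e.S ⊆ k.S)) :
    ¬ ∀ t ∈ e.S, ∃ y ∈ e.tail t, y ∈ k.L ∨ y ∈ k.U := by
  intro hall
  by_cases hu : e.up
  · have h4 : ∀ t ∈ e.S, t ∈ k.L := by
      intro t ht
      obtain ⟨y, hy, h | h⟩ := hall t ht
      · rw [mem_tail_up hu] at hy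
        exact L_lower h hy.2.le
      · rw [mem_tail_up hu] at hy
        exact absurd (slt_of_mem h ((mem_L_up hu).2 hy.1)) h1
    by_cases hk : k.up
    · exact h3 ⟨⟨fun _ => hk, fun _ => hu⟩, fun t ht => (mem_L_up hk).1 (h4 t ht)⟩
    · exact h2 (Or.inr ⟨hu, hk, fun x hx y hy => (mem_L_dn hk).1 (h4 x hx) y hy⟩)
  · have h4 : ∀ t ∈ e.S, t ∈ k.U := by
      intro t ht
      obtain ⟨y, hy, h | h⟩ := hall t ht
      · rw [mem_tail_dn hu] at hy
        exact absurd (slt_of_mem ((mem_U_dn hu).2 hy.1) h) h2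
      · rw [mem_tail_dn hu] at hy
        exact U_upper h hy.2.le
    by_cases hk : k.up
    · exact h1 (Or.inr ⟨hk, hu, fun x hx y hy => (mem_U_up hk).1 (h4 y hy) x hx⟩)
    · exact h3 ⟨⟨fun h => absurd h hu, fun h => absurd h hk⟩,
        fun t ht => (mem_U_dn hk).1 (h4 t ht)⟩

/-- a point incomparable with an end is incomparable with a tail -/
theorem tail_inc {e : End P} {y : P} (h1 : y ∉ e.L) (h2 : y ∉ e.U) :
    ∃ s ∈ e.S, ∀ x ∈ e.tail s, x ∈ Inc y := by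
  by_cases hu : e.up
  · rw [mem_U_up hu] at h2
    push Not at h2
    obtain ⟨s, hs, hsy⟩ := h2
    refine ⟨s, hs, fun x hx => ?_⟩
    rw [mem_tail_up hu] at hx
    refine ⟨fun h => hsy (lt_of_lt_of_le hx.2 h), fun h => h1 ?_⟩
    exact L_lower ((mem_L_up hu).2 hx.1) h
  · rw [mem_L_dn hu] at h1
    push Not at h1
    obtain ⟨s, hs, hsy⟩ := h1
    refine ⟨s, hs, fun x hx => ?_⟩
    rw [mem_tail_dn hu] at hx
    refine ⟨fun h => h2 ?_, fun h => hsy (lt_of_le_of_lt h hx.2)⟩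
    exact U_upper ((mem_U_dn hu).2 hx.1) h

/-- a point comparable with an end is comparable with a tail -/
theorem tail_cmp {e : End P} {y : P} (h : y ∈ e.L ∨ y ∈ e.U) :
    ∃ s ∈ e.S, ∀ x ∈ e.tail s, x ∉ Inc y := by
  by_cases hu : e.up
  · rcases h with h | h
    · refine ⟨y, (mem_L_up hu).1 h, fun x hx hI => ?_⟩
      rw [mem_tail_up hu] at hx
      exact hI.2 hx.2.le
    · obtain ⟨s, hs⟩ := e.ne
      refine ⟨s, hs, fun x hx hI => ?_⟩
      rw [mem_tail_up hu] at hx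
      exact hI.1 ((mem_U_up hu).1 h x hx.1).le
  · rcases h with h | h
    · obtain ⟨s, hs⟩ := e.ne
      refine ⟨s, hs, fun x hx hI => ?_⟩
      rw [mem_tail_dn hu] at hx
      exact hI.2 ((mem_L_dn hu).1 h x hx.1).le
    · refine ⟨y, (mem_U_dn hu).1 h, fun x hx hI => ?_⟩
      rw [mem_tail_dn hu] at hx
      exact hI.1 hx.2.le

/-- (i') -/
theorem IsK.inc_lt {w : ℕ} (hw : FW P w) {κ : Cardinal.{u}} (hκ : ℵ₀ ≤ κ) {B : Set P}
    {K : Set (End P)} (hK : IsK κ B K) (q : P) (hq : ∀ k ∈ K, q ∈ k.L ∨ q ∈ k.U) :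
    #(Inc q ∩ QK K B : Set P) < κ := by
  by_contra hcon
  push Not at hcon
  obtain ⟨e, he⟩ := exists_end hw hκ _ hcon
  have heB : EB κ B e := EB_mono (fun x hx => hx.2.1) he
  by_cases heK : e ∈ K
  · obtain ⟨s, hs, hcmp⟩ := tail_cmp (hq e heK)
    obtain ⟨y, hy, hyt⟩ := EB_exists hκ he hs
    exact hcmp y hyt hy.1
  · obtain ⟨k, hk, h1, h2, h3⟩ := hK.att e heB heK
    apply att_incomp h1 h2 h3
    intro t ht
    obtain ⟨y, hy, hyt⟩ := EB_exists hκ he ht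
    exact ⟨y, hyt, hy.2.2 k hk⟩

/-- kernels are closed under limits of chains -/
theorem IsK.sup_mem {κ : Cardinal.{u}} {B : Set P} {K : Set (End P)} (hK : IsK κ B K)
    (C : Set (End P)) (hCK : C ⊆ K) (hne : C.Nonempty) (hlim : ∀ a ∈ C, ∃ b ∈ C, slt a b) :
    ∃ f ∈ K, f.up ∧ (∀ p, p ∈ f.L ↔ ∃ e ∈ C, p ∈ e.L) ∧ (∀ a ∈ C, slt a f) ∧
      (∀ r, (∀ a ∈ C, wle a r) → wle f r) ∧ (∀ r, slt r f → ∃ e ∈ C, slt r e) := by
  obtain ⟨f, h1, h2, h3, h4, h5, h6⟩ := exists_sup_chain C hne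
    (fun a ha b hb => hK.chn a (hCK ha) b (hCK hb)) hlim
  refine ⟨f, ?_, h1, h2, h3, h4, h5⟩
  by_contra hfK
  obtain ⟨k, hk, a1, a2, a3⟩ := hK.att f (h6 κ B (fun a ha => hK.sub a (hCK ha))) hfK
  have h7 : wle f k := by
    apply h4
    intro c hc
    rcases hK.chn c (hCK hc) k hk with h | h | h
    · exact absurd (h ▸ h3 c hc) a1
    · exact Or.inl h
    · exact absurd (slt_trans h (h3 c hc)) a1
  rcases h7 with h | ⟨h, h', h''⟩ | ⟨h, -⟩
  · exact a2 h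
  · exact a3 ⟨⟨fun _ => h', fun _ => h⟩, h''⟩
  · exact h h1

theorem IsK.inf_mem {κ : Cardinal.{u}} {B : Set P} {K : Set (End P)} (hK : IsK κ B K)
    (C : Set (End P)) (hCK : C ⊆ K) (hne : C.Nonempty) (hlim : ∀ a ∈ C, ∃ b ∈ C, slt b a) :
    ∃ f ∈ K, ¬ f.up ∧ (∀ p, p ∈ f.U ↔ ∃ e ∈ C, p ∈ e.U) ∧ (∀ a ∈ C, slt f a) ∧
      (∀ r, (∀ a ∈ C, wle r a) → wle r f) ∧ (∀ r, slt f r → ∃ e ∈ C, slt e r) := by
  obtain ⟨f, h1, h2, h3, h4, h5, h6⟩ := exists_inf_chain C hne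
    (fun a ha b hb => hK.chn a (hCK ha) b (hCK hb)) hlim
  refine ⟨f, ?_, h1, h2, h3, h4, h5⟩
  by_contra hfK
  obtain ⟨k, hk, a1, a2, a3⟩ := hK.att f (h6 κ B (fun a ha => hK.sub a (hCK ha))) hfK
  have h7 : wle k f := by
    apply h4
    intro c hc
    rcases hK.chn c (hCK hc) k hk with h | h | h
    · exact absurd (h ▸ h3 c hc) a2
    · exact absurd (slt_trans (h3 c hc) h) a2
    · exact Or.inl h
  rcases h7 with h | ⟨-, h, -⟩ | ⟨h, h', h''⟩
  · exact a1 h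
  · exact h1 h
  · exact a3 ⟨⟨fun h8 => absurd h8 h', fun h8 => absurd h8 h⟩, h''⟩

theorem IsK.limit_up {κ : Cardinal.{u}} {B : Set P} {K : Set (End P)} (hK : IsK κ B K)
    {b : End P} (hbK : b ∈ K) (hb : b.up)
    (hX : ∀ t ∈ b.S, ∃ x ∈ b.tail t, x ∈ B ∧ x ∉ QK K B) :
    ∀ t ∈ b.S, ∃ c ∈ K, slt c b ∧ t ∈ c.L := by
  by_contra hcon
  push Not at hcon
  obtain ⟨t₀, ht₀, hno⟩ := hcon
  let C : Set (End P) := {c | c ∈ K ∧ slt c b}
  have claim : ∀ u ∈ b.S, ∃ c ∈ C, u ∉ c.U := by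
    intro u hu
    obtain ⟨x, hx, hxB, hxQ⟩ := hX u hu
    rw [mem_tail_up hb] at hx
    have : ∃ c ∈ K, ¬ (x ∈ c.L ∨ x ∈ c.U) := by
      by_contra h
      push Not at h
      exact hxQ ⟨hxB, h⟩
    obtain ⟨c, hc, hxc⟩ := this
    push Not at hxc
    refine ⟨c, ⟨hc, ?_⟩, fun h => hxc.2 (U_upper h hx.2.le)⟩
    rcases hK.chn c hc b hbK with h | h | h
    · exact absurd (h ▸ (mem_L_up hb).2 hx.1) hxc.1
    · exact h
    · exact absurd (L_of_slt h ((mem_L_up hb).2 hx.1)) hxc.1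
  have hne : C.Nonempty := by
    obtain ⟨c, hc, -⟩ := claim t₀ ht₀
    exact ⟨c, hc⟩
  have hlim : ∀ a ∈ C, ∃ c ∈ C, slt a c := by
    rintro a ⟨haK, hab⟩
    obtain ⟨t, ht1, ht2⟩ := exists_real_of_slt hab (fun h => h.2 hb)
    obtain ⟨c, hc, htc⟩ := claim t ((mem_L_up hb).1 ht2)
    refine ⟨c, hc, ?_⟩
    rcases hK.chn a haK c hc.1 with h | h | h
    · exact absurd (h ▸ ht1) htc
    · exact h
    · exact absurd (U_of_slt h ht1) htc
  obtain ⟨f, hfK, hf1, hf2, hf3, hf4, hf5⟩ := hK.sup_mem C (fun c hc => hc.1) hne hlim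
  rcases hK.chn f hfK b hbK with h | h | h
  · obtain ⟨c, hc, htc⟩ := (hf2 t₀).1 (h ▸ (mem_L_up hb).2 ht₀)
    exact hno c hc.1 hc.2 htc
  · exact slt_irrefl _ (hf3 f ⟨hfK, h⟩)
  · exact slt_irrefl _ (slt_wle h (hf4 b (fun a ha => Or.inl ha.2)))

theorem IsK.limit_dn {κ : Cardinal.{u}} {B : Set P} {K : Set (End P)} (hK : IsK κ B K)
    {b : End P} (hbK : b ∈ K) (hb : ¬ b.up)
    (hX : ∀ t ∈ b.S, ∃ x ∈ b.tail t, x ∈ B ∧ x ∉ QK K B) :
    ∀ t ∈ b.S, ∃ c ∈ K, slt b c ∧ t ∈ c.U := by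
  by_contra hcon
  push Not at hcon
  obtain ⟨t₀, ht₀, hno⟩ := hcon
  let C : Set (End P) := {c | c ∈ K ∧ slt b c}
  have claim : ∀ u ∈ b.S, ∃ c ∈ C, u ∉ c.L := by
    intro u hu
    obtain ⟨x, hx, hxB, hxQ⟩ := hX u hu
    rw [mem_tail_dn hb] at hx
    have : ∃ c ∈ K, ¬ (x ∈ c.L ∨ x ∈ c.U) := by
      by_contra h
      push Not at h
      exact hxQ ⟨hxB, h⟩
    obtain ⟨c, hc, hxc⟩ := this
    push Not at hxc
    refine ⟨c, ⟨hc, ?_⟩, fun h => hxc.1 (L_lower h hx.2.le)⟩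
    rcases hK.chn c hc b hbK with h | h | h
    · exact absurd (h ▸ (mem_U_dn hb).2 hx.1) hxc.2
    · exact absurd (U_of_slt h ((mem_U_dn hb).2 hx.1)) hxc.2
    · exact h
  have hne : C.Nonempty := by
    obtain ⟨c, hc, -⟩ := claim t₀ ht₀
    exact ⟨c, hc⟩
  have hlim : ∀ a ∈ C, ∃ c ∈ C, slt c a := by
    rintro a ⟨haK, hab⟩
    obtain ⟨t, ht1, ht2⟩ := exists_real_of_slt hab (fun h => hb h.1)
    obtain ⟨c, hc, htc⟩ := claim t ((mem_U_dn hb).1 ht1)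
    refine ⟨c, hc, ?_⟩
    rcases hK.chn a haK c hc.1 with h | h | h
    · exact absurd (h ▸ ht2) htc
    · exact absurd (L_of_slt h ht2) htc
    · exact h
  obtain ⟨f, hfK, hf1, hf2, hf3, hf4, hf5⟩ := hK.inf_mem C (fun c hc => hc.1) hne hlim
  rcases hK.chn f hfK b hbK with h | h | h
  · obtain ⟨c, hc, htc⟩ := (hf2 t₀).1 (h ▸ (mem_U_dn hb).2 ht₀)
    exact hno c hc.1 hc.2 htc
  · exact slt_irrefl _ (wle_slt (hf4 b (fun a ha => Or.inl ha.2)) h)
  · exact slt_irrefl _ (hf3 f ⟨hfK, h⟩)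

/-- finitely many points of an end have a common strict bound in the end -/
theorem exists_bound (e : End P) (F : Finset P) (hF : ∀ y ∈ F, y ∈ e.S) :
    ∃ t ∈ e.S, ∀ y ∈ F, t ∈ e.tail y := by
  classical
  induction F using Finset.induction_on with
  | empty =>
    obtain ⟨s, hs⟩ := e.ne
    exact ⟨s, hs, by simp⟩
  | @insert a F ha ih =>
    obtain ⟨s, hs, hsF⟩ := ih (fun y hy => hF y (Finset.mem_insert_of_mem hy))
    by_cases hu : e.up
    · obtain ⟨z, hz, hz1, hz2⟩ := (e.upc hu).2 s hs a (hF a (Finset.mem_insert_self _ _))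
      refine ⟨z, hz, fun y hy => (mem_tail_up hu).2 ⟨hz, ?_⟩⟩
      rcases Finset.mem_insert.1 hy with rfl | hy
      · exact hz2
      · exact lt_trans ((mem_tail_up hu).1 (hsF y hy)).2 hz1
    · obtain ⟨z, hz, hz1, hz2⟩ := (e.dnc hu).2 s hs a (hF a (Finset.mem_insert_self _ _))
      refine ⟨z, hz, fun y hy => (mem_tail_dn hu).2 ⟨hz, ?_⟩⟩
      rcases Finset.mem_insert.1 hy with rfl | hy
      · exact hz2
      · exact lt_trans hz1 ((mem_tail_dn hu).1 (hsF y hy)).2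

theorem tail_trans {e : End P} {s t x : P} (h1 : s ∈ e.tail t) (h2 : x ∈ e.tail s) :
    x ∈ e.tail t := by
  by_cases hu : e.up
  · rw [mem_tail_up hu] at *
    exact ⟨h2.1, lt_trans h1.2 h2.2⟩
  · rw [mem_tail_dn hu] at *
    exact ⟨h2.1, lt_trans h2.2 h1.2⟩

/-- the end `b` is inside `R` -/
def Inside (R : Set P) (b : End P) : Prop := ∃ t ∈ b.S, ∀ x ∈ b.tail t, x ∈ R

/-- The main antichain argument. -/
theorem IsK.big {w : ℕ} (hw : FW P w) {κ : Cardinal.{u}} (hκ : ℵ₀ ≤ κ) {B : Set P}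
    {K : Set (End P)} (hK : IsK κ B K) (R : Set P)
    (hR : ∀ x ∈ R, ∀ z ∈ R, ∀ y, x < y → y < z → y ∈ R) (b₀ : End P) (hb₀ : b₀ ∈ K)
    (hin : Inside R b₀) : κ ≤ #(QK K B ∩ R : Set P) := by
  classical
  by_contra hcon
  push Not at hcon
  have irr : ∀ b ∈ K, Inside R b → ∀ t ∈ b.S, ∃ x ∈ b.tail t, x ∈ B ∧ x ∉ QK K B ∧ x ∈ R := by
    rintro b hb ⟨t₀, ht₀, hR₀⟩ t ht
    obtain ⟨s, hs, hsF⟩ := exists_bound b {t, t₀} (by
      intro y hy
      simp only [Finset.mem_insert, Finset.mem_singleton] at hy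
      rcases hy with rfl | rfl
      · exact ht
      · exact ht₀)
    have h1 := hsF t (by simp)
    have h2 := hsF t₀ (by simp)
    by_contra hall
    push Not at hall
    have hsub : B ∩ b.tail s ⊆ QK K B ∩ R := by
      rintro x ⟨hxB, hx⟩
      have hxR : x ∈ R := hR₀ x (tail_trans h2 hx)
      refine ⟨?_, hxR⟩
      by_contra hxQ
      exact hall x (tail_trans h1 hx) hxB hxQ hxR
    exact absurd ((hK.sub b hb s hs).trans (Cardinal.mk_le_mk_of_subset hsub)) (not_le.2 hcon)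
  have key : ∀ n : ℕ, ∃ (Y : Finset P) (b : End P), Y.card = n ∧
      IsAntichain (· ≤ ·) (Y : Set P) ∧ b ∈ K ∧ Inside R b ∧ ∀ y ∈ Y, y ∉ b.L ∧ y ∉ b.U := by
    intro n
    induction n with
    | zero => exact ⟨∅, b₀, rfl, by simp, hb₀, hin, by simp⟩
    | succ n ih =>
      obtain ⟨Y, b, hYc, hYa, hbK, hbR, hYb⟩ := ih
      -- common bound
      have hs : ∀ y, ∃ s, y ∈ Y → s ∈ b.S ∧ ∀ x ∈ b.tail s, x ∈ Inc y := by
        intro y
        by_cases hy : y ∈ Y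
        · obtain ⟨s, hs, h⟩ := tail_inc (hYb y hy).1 (hYb y hy).2
          exact ⟨s, fun _ => ⟨hs, h⟩⟩
        · exact ⟨y, fun h => absurd h hy⟩
      choose s hs using hs
      have hbR' := hbR
      obtain ⟨t₀, ht₀, hR₀⟩ := hbR
      obtain ⟨t₁, ht₁, hbd⟩ := exists_bound b (insert t₀ (Y.image s)) (by
        intro y hy
        rcases Finset.mem_insert.1 hy with rfl | hy
        · exact ht₀
        · obtain ⟨z, hz, rfl⟩ := Finset.mem_image.1 hy
          exact (hs z hz).1)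
      have ht₁R : t₁ ∈ R := hR₀ t₁ (hbd t₀ (Finset.mem_insert_self _ _))
      have ht₁Y : ∀ y ∈ Y, t₁ ∈ Inc y := fun y hy => (hs y hy).2 t₁
        (hbd _ (Finset.mem_insert_of_mem (Finset.mem_image_of_mem s hy)))
      have hbd2 : ∀ y ∈ Y, ∀ x ∈ b.tail t₁, x ∈ Inc y := fun y hy x hx => (hs y hy).2 x
        (tail_trans (hbd _ (Finset.mem_insert_of_mem (Finset.mem_image_of_mem s hy))) hx)
      have hbdR : ∀ x ∈ b.tail t₁, x ∈ R := fun x hx => hR₀ x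
        (tail_trans (hbd t₀ (Finset.mem_insert_self _ _)) hx)
      -- it suffices to find x and b'
      suffices hsuff : ∃ x ∈ b.tail t₁, ∃ b' ∈ K, Inside R b' ∧ x ∉ b'.L ∧ x ∉ b'.U ∧
          ∀ y ∈ Y, y ∉ b'.L ∧ y ∉ b'.U by
        obtain ⟨x, hx, b', hb'K, hb'R, hx1, hx2, hYb'⟩ := hsuff
        have hxY : x ∉ Y := fun h => (hbd2 x h x hx).1 le_rfl
        refine ⟨insert x Y, b', ?_, ?_, hb'K, hb'R, ?_⟩
        · rw [Finset.card_insert_of_notMem hxY, hYc]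
        · intro p hp q hq hpq hle
          simp only [Finset.coe_insert, Set.mem_insert_iff, Finset.mem_coe] at hp hq
          rcases hp with rfl | hp <;> rcases hq with rfl | hq
          · exact hpq rfl
          · exact (hbd2 q hq _ hx).1 hle
          · exact (hbd2 p hp _ hx).2 hle
          · exact hYa hp hq hpq hle
        · intro y hy
          rcases Finset.mem_insert.1 hy with rfl | hy
          · exact ⟨hx1, hx2⟩
          · exact hYb' y hy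
      by_cases hb : b.up
      · obtain ⟨c, hcK, hcb, ht₁c⟩ := hK.limit_up hbK hb (fun t ht => by
          obtain ⟨x, h1, h2, h3, -⟩ := irr b hbK hbR' t ht
          exact ⟨x, h1, h2, h3⟩) t₁ ht₁
        obtain ⟨v, hv1, hv2⟩ := exists_real_of_slt hcb (fun h => h.2 hb)
        obtain ⟨x, hxv, hxB, hxQ, hxR⟩ := irr b hbK hbR' v ((mem_L_up hb).1 hv2)
        have hxt : x ∈ b.tail t₁ := by
          rw [mem_tail_up hb] at hxv ⊢
          exact ⟨hxv.1, lt_trans (L_lt_U ht₁c hv1) hxv.2⟩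
        have hxL : x ∈ b.L := (mem_L_up hb).2 hxv.1
        have hxU : x ∈ c.U := U_upper hv1 ((mem_tail_up hb).1 hxv).2.le
        have : ∃ b' ∈ K, x ∉ b'.L ∧ x ∉ b'.U := by
          by_contra h
          push Not at h
          exact hxQ ⟨hxB, fun k hk => by
            by_cases h2 : x ∈ k.L
            · exact Or.inl h2
            · exact Or.inr (h k hk h2)⟩
        obtain ⟨b', hb'K, hx1, hx2⟩ := this
        have hcb' : slt c b' := by
          rcases hK.chn c hcK b' hb'K with h | h | h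
          · exact absurd (h ▸ hxU) hx2
          · exact h
          · exact absurd (U_of_slt h hxU) hx2
        have hb'b : slt b' b := by
          rcases hK.chn b' hb'K b hbK with h | h | h
          · exact absurd (h ▸ hxL) hx1
          · exact h
          · exact absurd (L_of_slt h hxL) hx1
        have ht₁b' : t₁ ∈ b'.L := L_of_slt hcb' ht₁c
        refine ⟨x, hxt, b', hb'K, ?_, hx1, hx2, ?_⟩
        · obtain ⟨v', hv'1, hv'2⟩ := exists_real_of_slt hb'b (fun h => h.2 hb)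
          have hv'R : v' ∈ R := hbdR v' ((mem_tail_up hb).2
            ⟨(mem_L_up hb).1 hv'2, L_lt_U ht₁b' hv'1⟩)
          by_cases hb'u : b'.up
          · refine ⟨t₁, (mem_L_up hb'u).1 ht₁b', fun z hz => ?_⟩
            rw [mem_tail_up hb'u] at hz
            exact hR t₁ ht₁R v' hv'R z hz.2 ((mem_U_up hb'u).1 hv'1 z hz.1)
          · refine ⟨v', (mem_U_dn hb'u).1 hv'1, fun z hz => ?_⟩
            rw [mem_tail_dn hb'u] at hz
            exact hR t₁ ht₁R v' hv'R z ((mem_L_dn hb'u).1 ht₁b' z hz.1) hz.2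
        · intro y hy
          refine ⟨fun h => (hYb y hy).1 (L_of_slt hb'b h), fun h => ?_⟩
          have h1 : t₁ < y := L_lt_U ht₁b' h
          exact (ht₁Y y hy).1 h1.le
      · obtain ⟨c, hcK, hcb, ht₁c⟩ := hK.limit_dn hbK hb (fun t ht => by
          obtain ⟨x, h1, h2, h3, -⟩ := irr b hbK hbR' t ht
          exact ⟨x, h1, h2, h3⟩) t₁ ht₁
        obtain ⟨v, hv1, hv2⟩ := exists_real_of_slt hcb (fun h => hb h.1)
        obtain ⟨x, hxv, hxB, hxQ, hxR⟩ := irr b hbK hbR' v ((mem_U_dn hb).1 hv1)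
        have hxt : x ∈ b.tail t₁ := by
          rw [mem_tail_dn hb] at hxv ⊢
          exact ⟨hxv.1, lt_trans hxv.2 (L_lt_U hv2 ht₁c)⟩
        have hxL : x ∈ b.U := (mem_U_dn hb).2 hxv.1
        have hxU : x ∈ c.L := L_lower hv2 ((mem_tail_dn hb).1 hxv).2.le
        have : ∃ b' ∈ K, x ∉ b'.L ∧ x ∉ b'.U := by
          by_contra h
          push Not at h
          exact hxQ ⟨hxB, fun k hk => by
            by_cases h2 : x ∈ k.L
            · exact Or.inl h2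
            · exact Or.inr (h k hk h2)⟩
        obtain ⟨b', hb'K, hx1, hx2⟩ := this
        have hcb' : slt b' c := by
          rcases hK.chn c hcK b' hb'K with h | h | h
          · exact absurd (h ▸ hxU) hx1
          · exact absurd (L_of_slt h hxU) hx1
          · exact h
        have hb'b : slt b b' := by
          rcases hK.chn b' hb'K b hbK with h | h | h
          · exact absurd (h ▸ hxL) hx2
          · exact absurd (U_of_slt h hxL) hx2
          · exact h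
        have ht₁b' : t₁ ∈ b'.U := U_of_slt hcb' ht₁c
        refine ⟨x, hxt, b', hb'K, ?_, hx1, hx2, ?_⟩
        · obtain ⟨v', hv'1, hv'2⟩ := exists_real_of_slt hb'b (fun h => hb h.1)
          have hv'R : v' ∈ R := hbdR v' ((mem_tail_dn hb).2
            ⟨(mem_U_dn hb).1 hv'1, L_lt_U hv'2 ht₁b'⟩)
          by_cases hb'u : b'.up
          · refine ⟨v', (mem_L_up hb'u).1 hv'2, fun z hz => ?_⟩
            rw [mem_tail_up hb'u] at hz
            exact hR v' hv'R t₁ ht₁R z hz.2 ((mem_U_up hb'u).1 ht₁b' z hz.1)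
          · refine ⟨t₁, (mem_U_dn hb'u).1 ht₁b', fun z hz => ?_⟩
            rw [mem_tail_dn hb'u] at hz
            exact hR v' hv'R t₁ ht₁R z ((mem_L_dn hb'u).1 hv'2 z hz.1) hz.2
        · intro y hy
          refine ⟨fun h => ?_, fun h => (hYb y hy).2 (U_of_slt hb'b h)⟩
          have h1 : y < t₁ := L_lt_U h ht₁b'
          exact (ht₁Y y hy).2 h1.le
  obtain ⟨Y, -, hYc, hYa, -⟩ := key (w + 1)
  have := card_le_of_FW hw Y hYa
  omega

/-- (ii') -/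
theorem IsK.tail_card {w : ℕ} (hw : FW P w) {κ : Cardinal.{u}} (hκ : ℵ₀ ≤ κ) {B : Set P}
    {K : Set (End P)} (hK : IsK κ B K) {k : End P} (hk : k ∈ K) {t : P} (ht : t ∈ k.S) :
    κ ≤ #(QK K B ∩ k.tail t : Set P) := by
  refine hK.big hw hκ (k.tail t) ?_ k hk ⟨t, ht, fun x hx => hx⟩
  intro x hx z hz y hxy hyz
  by_cases hu : k.up
  · rw [mem_tail_up hu] at *
    exact ⟨(k.upc hu).1 z hz.1 y hyz.le, lt_trans hx.2 hxy⟩
  · rw [mem_tail_dn hu] at *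
    exact ⟨(k.dnc hu).1 x hx.1 y hxy.le, lt_trans hyz hz.2⟩

/-- (iii') -/
theorem IsK.le_inc {w : ℕ} (hw : FW P w) {κ : Cardinal.{u}} (hκ : ℵ₀ ≤ κ) {B : Set P}
    {K : Set (End P)} (hK : IsK κ B K) (x : P) {k : End P} (hk : k ∈ K) (h1 : x ∉ k.L)
    (h2 : x ∉ k.U) : κ ≤ #(Inc x ∩ QK K B : Set P) := by
  obtain ⟨s, hs, hinc⟩ := tail_inc h1 h2
  refine (hK.tail_card hw hκ hk hs).trans (Cardinal.mk_le_mk_of_subset ?_)
  rintro y ⟨hy, hyt⟩
  exact ⟨hinc y hyt, hy⟩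

end Pool.Agent.TH537.Spine
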