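import Pool.Agent.TH537.Spine.Thread

set_option autoImplicit false

/-!
# The singular step
-/

namespace Pool.Agent.TH537.Spine

open Cardinal

universe u

variable {P : Type u} [PartialOrder P]

theorem FW.dual {w : ℕ} (hw : FW P w) : FW Pᵒᵈ w := by
  obtain ⟨col, hcol⟩ := hw
  exact ⟨col, fun x y h => (hcol x y h).symm⟩

theorem exists_side_dn {w : ℕ} (hw : FW P w) {κ : Cardinal.{u}} (hκ : ℵ₀ < κ)
    (hlim : ∀ μ < κ, Order.succ μ < κ) {T : Set P} {o : P} (ho : o ∈ T)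
    (hT1 : ∀ q ∈ T, ∀ q' ∈ T, q < q' → #{x | x ∈ T ∧ q < x ∧ x < q'} < κ)
    (hT2 : ∀ q ∈ T, #(Inc q ∩ T : Set P) < κ) (hdn : κ ≤ #{p | p ∈ T ∧ p < o}) :
    ∃ V Q, Side (fun x y : P => y < x) T o κ ℵ₀ V Q := by
  obtain ⟨V, Q, h⟩ := exists_side_up (P := Pᵒᵈ) hw.dual hκ hlim (T := T) (o := o) ho
    (fun q hq q' hq' hqq' => lt_of_le_of_lt (Cardinal.mk_le_mk_of_subset (α := P)
      (s := {x : P | x ∈ T ∧ @LT.lt P _ x q ∧ @LT.lt P _ q' x})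
      (t := {x : P | x ∈ T ∧ @LT.lt P _ q' x ∧ @LT.lt P _ x q})
      (fun y h => ⟨h.1, h.2.2, h.2.1⟩)) (hT1 q' hq' q hq hqq'))
    (fun q hq => lt_of_le_of_lt (Cardinal.mk_le_mk_of_subset (α := P)
      (s := (Inc (P := Pᵒᵈ) q ∩ T : Set Pᵒᵈ)) (t := Inc q ∩ T)
      (fun y h => ⟨⟨h.1.2, h.1.1⟩, h.2⟩)) (hT2 q hq)) hdn
  refine ⟨V, Q, ?_⟩
  exact
    { sub := h.sub
      omem := h.omem
      lower := h.lower
      mono := h.mono
      cont := h.cont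
      cover := h.cover
      card := h.card
      inc := fun μ h1 h2 q hq => by
        refine lt_of_le_of_lt (Cardinal.mk_le_mk_of_subset (α := P)
          (t := {p : P | (p ∈ V μ ∧ @LT.lt P _ p o) ∧ ¬ q ≤ p ∧ ¬ p ≤ q}) ?_)
          (h.inc μ h1 h2 q hq)
        intro y hy
        exact ⟨hy.1, hy.2.2, hy.2.1⟩
      q1 := h.q1
      q2 := h.q2
      q3 := h.q3
      q4 := fun μ h1 h2 q hq => by
        refine lt_of_le_of_lt (Cardinal.mk_le_mk_of_subset (α := P)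
          (t := {p : P | (p ∈ Q μ ∧ @LT.lt P _ p o) ∧ ¬ q ≤ p ∧ ¬ p ≤ q}) ?_)
          (h.q4 μ h1 h2 q hq)
        intro y hy
        exact ⟨hy.1, hy.2.2, hy.2.1⟩
      q5 := fun μ h1 h2 x hx hxn => by
        refine (h.q5 μ h1 h2 x hx hxn).trans (Cardinal.mk_le_mk_of_subset (α := P)
          (s := {p : P | (p ∈ Q μ ∧ @LT.lt P _ p o) ∧ ¬ x ≤ p ∧ ¬ p ≤ x}) ?_)
        intro y hy
        exact ⟨hy.1, hy.2.2, hy.2.1⟩ }

/-- the main one-step extension -/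
theorem step_sides {w : ℕ} (hw : FW P w) {κ l : Cardinal.{u}} (hl : ℵ₀ ≤ l)
    (hlim : ∀ μ < κ, Order.succ μ < κ) {T : Set P} {o : P}
    (hoT : #(Inc o ∩ T : Set P) < l) {V Q V' Q' : Cardinal.{u} → Set P}
    (h : Side (· < ·) T o κ l V Q) (h' : Side (fun x y : P => y < x) T o κ l V' Q')
    (IH : ∀ A : Set P, #A < κ → ∃ c, IsSp A c) (μ : Cardinal.{u}) (h1 : l ≤ μ) (h2 : μ < κ)
    (c : P → P) (hc : IsSp (V μ ∩ V' μ) c) :
    ∃ c', IsSp (V (Order.succ μ) ∩ V' (Order.succ μ)) c' ∧ ∀ x ∈ V μ ∩ V' μ, c' x = c x := by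
  classical
  have hμ : ℵ₀ ≤ μ := hl.trans h1
  have hsμ : ℵ₀ ≤ Order.succ μ := hμ.trans (Order.le_succ μ)
  have hsl : l ≤ Order.succ μ := h1.trans (Order.le_succ μ)
  have hsκ : Order.succ μ < κ := hlim μ h2
  have htri : ∀ p ∈ T, o < p ∨ p < o ∨ (p ∈ Inc o ∩ T ∨ p = o) := by
    intro p hp
    by_cases hpo : p = o
    · exact Or.inr (Or.inr (Or.inr hpo))
    · by_cases h3 : o ≤ p
      · exact Or.inl (lt_of_le_of_ne h3 (Ne.symm hpo))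
      · by_cases h4 : p ≤ o
        · exact Or.inr (Or.inl (lt_of_le_of_ne h4 hpo))
        · exact Or.inr (Or.inr (Or.inl ⟨⟨h4, h3⟩, hp⟩))
  have hrest : ∀ ν, μ ≤ ν → #((Inc o ∩ T) ∪ {o} : Set P) < ν := fun ν hν =>
    lt_of_le_of_lt (Cardinal.mk_union_le _ _) (Cardinal.add_lt_of_lt (hμ.trans hν)
      (lt_of_lt_of_le hoT (h1.trans hν)) (card_singleton_lt (hμ.trans hν) o))
  have hun : ∀ ν, μ ≤ ν → ∀ A A1 A2 : Set P, A ⊆ A1 ∪ A2 ∪ ((Inc o ∩ T) ∪ {o}) → #A1 < ν →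
      #A2 < ν → #A < ν := by
    intro ν hν A A1 A2 hA hA1 hA2
    refine lt_of_le_of_lt (Cardinal.mk_le_mk_of_subset hA) ?_
    refine lt_of_le_of_lt (Cardinal.mk_union_le _ _) (Cardinal.add_lt_of_lt (hμ.trans hν) ?_
      (hrest ν hν))
    exact lt_of_le_of_lt (Cardinal.mk_union_le _ _) (Cardinal.add_lt_of_lt (hμ.trans hν) hA1 hA2)
  have hQT : ∀ p, p ∈ Q μ → p ∈ T := fun p hp =>
    h.sub (Order.succ μ) hsl hsκ (h.q2 μ h1 h2 hp)
  have hBT : ∀ p, p ∈ V (Order.succ μ) → p ∈ T := fun p hp => h.sub (Order.succ μ) hsl hsκ hp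
  have hQB : Q μ ∩ Q' μ ⊆ V (Order.succ μ) ∩ V' (Order.succ μ) := fun p hp =>
    ⟨h.q2 μ h1 h2 hp.1, h'.q2 μ h1 h2 hp.2⟩
  have hBQ : V μ ∩ V' μ ⊆ Q μ ∩ Q' μ := fun p hp => ⟨h.q1 μ h1 h2 hp.1, h'.q1 μ h1 h2 hp.2⟩
  -- sizes
  have hBcard : #(V (Order.succ μ) ∩ V' (Order.succ μ) : Set P) < κ := by
    refine hun κ h2.le _ {p | p ∈ V (Order.succ μ) ∧ o < p} {p | p ∈ V' (Order.succ μ) ∧ p < o}
      ?_ (lt_of_le_of_lt (h.card _ hsl hsκ) hsκ) (lt_of_le_of_lt (h'.card _ hsl hsκ) hsκ)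
    intro p hp
    rcases htri p (hBT p hp.1) with h3 | h3 | h3
    · exact Or.inl (Or.inl ⟨hp.1, h3⟩)
    · exact Or.inl (Or.inr ⟨hp.2, h3⟩)
    · exact Or.inr h3
  obtain ⟨d, hd⟩ := IH ((Q μ ∩ Q' μ) \ (V μ ∩ V' μ))
    (lt_of_le_of_lt (Cardinal.mk_le_mk_of_subset (fun p hp => hQB hp.1)) hBcard)
  obtain ⟨e, he, hec, -⟩ := hc.glue2 hd (fun x hx hx' => hx'.2 hx) (by
    rintro x hx y ⟨hy, hyn⟩
    by_cases hyV : y ∈ V μ
    · have hyV' : y ∉ V' μ := fun h3 => hyn ⟨hyV, h3⟩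
      exact Or.inr (le_of_lt (h'.q3 μ h1 h2 y hy.2 hyV' x hx.2))
    · exact Or.inl (le_of_lt (h.q3 μ h1 h2 y hy.1 hyV x hx.1)))
  have hun2 : (V μ ∩ V' μ) ∪ ((Q μ ∩ Q' μ) \ (V μ ∩ V' μ)) = Q μ ∩ Q' μ := by
    rw [Set.union_sdiff_self]
    exact Set.union_eq_right.2 hBQ
  rw [hun2] at he
  obtain ⟨c', hc', hce⟩ := he.ext' hw hμ hQB
    (by
      intro q hq
      refine hun μ le_rfl _ {p | (p ∈ Q μ ∧ o < p) ∧ p ∈ Inc q} {p | (p ∈ Q' μ ∧ p < o) ∧ p ∈ Inc q}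
        ?_ (h.q4 μ h1 h2 q hq.1) (h'.q4 μ h1 h2 q hq.2)
      rintro p ⟨hp1, hp2, hp3⟩
      rcases htri p (hQT p hp2) with h3 | h3 | h3
      · exact Or.inl (Or.inl ⟨⟨hp2, h3⟩, hp1⟩)
      · exact Or.inl (Or.inr ⟨⟨hp3, h3⟩, hp1⟩)
      · exact Or.inr h3)
    (by
      intro x hx
      apply Order.le_of_lt_succ
      refine hun (Order.succ μ) (Order.le_succ μ) _
        {p | (p ∈ V (Order.succ μ) ∧ o < p) ∧ p ∈ Inc x}
        {p | (p ∈ V' (Order.succ μ) ∧ p < o) ∧ p ∈ Inc x} ?_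
        (h.inc _ hsl hsκ x hx.1) (h'.inc _ hsl hsκ x hx.2)
      rintro p ⟨hp1, hp2, hp3⟩
      rcases htri p (hBT p hp2) with h3 | h3 | h3
      · exact Or.inl (Or.inl ⟨⟨hp2, h3⟩, hp1⟩)
      · exact Or.inl (Or.inr ⟨⟨hp3, h3⟩, hp1⟩)
      · exact Or.inr h3)
    (by
      intro x hx hxn
      by_cases hxQ : x ∈ Q μ
      · have hxQ' : x ∉ Q' μ := fun h3 => hxn ⟨hxQ, h3⟩
        refine (h'.q5 μ h1 h2 x hx.2 hxQ').trans (Cardinal.mk_le_mk_of_subset ?_)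
        rintro p ⟨⟨hp1, hp2⟩, hp3⟩
        have hpT : p ∈ T := h'.sub (Order.succ μ) hsl hsκ (h'.q2 μ h1 h2 hp1)
        exact ⟨hp3, h.q1 μ h1 h2 (h.lower μ h1 h2 o (h.omem μ h1 h2) p hpT hp2), hp1⟩
      · refine (h.q5 μ h1 h2 x hx.1 hxQ).trans (Cardinal.mk_le_mk_of_subset ?_)
        rintro p ⟨⟨hp1, hp2⟩, hp3⟩
        have hpT : p ∈ T := hQT p hp1
        exact ⟨hp3, hp1, h'.q1 μ h1 h2 (h'.lower μ h1 h2 o (h'.omem μ h1 h2) p hpT hp2)⟩)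
  exact ⟨c', hc', fun x hx => (hce x (hBQ hx)).trans (hec x hx)⟩

/-- unions of filtrations -/
theorem union_filtration {κ l : Cardinal.{u}} (hlκ : l < κ)
    (hlim : ∀ μ < κ, Order.succ μ < κ) {T : Set P} (B : Cardinal.{u} → Set P)
    (hBT : ∀ μ, l ≤ μ → μ < κ → B μ ⊆ T)
    (hmono : ∀ μ ν, l ≤ μ → μ ≤ ν → ν < κ → B μ ⊆ B ν)
    (hcont : ∀ μ, l < μ → μ < κ → (∀ ν < μ, Order.succ ν < μ) → ∀ p ∈ B μ,
      ∃ ν, l ≤ ν ∧ ν < μ ∧ p ∈ B ν)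
    (hcover : ∀ p ∈ T, ∃ μ, l ≤ μ ∧ μ < κ ∧ p ∈ B μ)
    (h0 : ∃ c, IsSp (B l) c)
    (hstep : ∀ μ, l ≤ μ → μ < κ → ∀ c, IsSp (B μ) c →
      ∃ c', IsSp (B (Order.succ μ)) c' ∧ ∀ x ∈ B μ, c' x = c x) :
    ∃ c, IsSp T c := by
  classical
  let X := {Ac : Set P × (P → P) // (∃ I : Set Cardinal.{u}, I.Nonempty ∧
    (∀ μ ∈ I, l ≤ μ ∧ μ < κ) ∧ Ac.1 = ⋃ μ ∈ I, B μ) ∧ IsSp Ac.1 Ac.2}
  let r : X → X → Prop := fun a b => a.1.1 ⊆ b.1.1 ∧ ∀ x ∈ a.1.1, b.1.2 x = a.1.2 x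
  have htrans : ∀ {a b c : X}, r a b → r b c → r a c := by
    intro a b c hab hbc
    exact ⟨hab.1.trans hbc.1, fun x hx => (hbc.2 x (hab.1 hx)).trans (hab.2 x hx)⟩
  have hchain : ∀ C : Set X, IsChain r C → ∃ ub, ∀ a ∈ C, r a ub := by
    intro C hC
    by_cases hne : C.Nonempty
    · -- union
      let A : Set P := ⋃ a ∈ C, a.1.1
      let c : P → P := fun x => if hx : ∃ a : X, a ∈ C ∧ x ∈ a.1.1 then hx.choose.1.2 x else x
      have hcmp : ∀ a ∈ C, ∀ b ∈ C, r a b ∨ r b a := by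
        intro a ha b hb
        by_cases hab : a = b
        · subst hab
          exact Or.inl ⟨le_rfl, fun _ _ => rfl⟩
        · exact hC ha hb hab
      have hcc : ∀ a ∈ C, ∀ x ∈ a.1.1, c x = a.1.2 x := by
        intro a ha x hx
        have hex : ∃ a : X, a ∈ C ∧ x ∈ a.1.1 := ⟨a, ha, hx⟩
        have h1 : c x = hex.choose.1.2 x := by simp only [c, dif_pos hex]
        rw [h1]
        rcases hcmp a ha _ hex.choose_spec.1 with h2 | h2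
        · exact h2.2 x hx
        · exact (h2.2 x hex.choose_spec.2).symm
      have hpair : ∀ x ∈ A, ∀ y ∈ A, ∃ a ∈ C, x ∈ a.1.1 ∧ y ∈ a.1.1 := by
        intro x hx y hy
        simp only [A, Set.mem_iUnion] at hx hy
        obtain ⟨a, ha, hxa⟩ := hx
        obtain ⟨b, hb, hyb⟩ := hy
        rcases hcmp a ha b hb with h2 | h2
        · exact ⟨b, hb, h2.1 hxa, hyb⟩
        · exact ⟨a, ha, hxa, h2.1 hyb⟩
      have hsubA : ∀ a ∈ C, a.1.1 ⊆ A := fun a ha x hx => Set.mem_biUnion ha hx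
      have hsp : IsSp A c := by
        refine ⟨?_, ?_, ?_, ?_⟩
        · intro x hx
          obtain ⟨a, ha, hxa, -⟩ := hpair x hx x hx
          rw [hcc a ha x hxa]
          exact hsubA a ha (a.2.2.mem x hxa)
        · intro x hx
          obtain ⟨a, ha, hxa, -⟩ := hpair x hx x hx
          rw [hcc a ha x hxa, hcc a ha _ (a.2.2.mem x hxa)]
          exact a.2.2.idem x hxa
        · intro x hx y hy
          obtain ⟨a, ha, hxa, hya⟩ := hpair x hx y hy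
          rw [hcc a ha x hxa, hcc a ha y hya]
          exact a.2.2.anti x hxa y hya
        · intro x hx y hy
          obtain ⟨a, ha, hxa, hya⟩ := hpair x hx y hy
          rw [hcc a ha x hxa, hcc a ha y hya]
          exact a.2.2.chain x hxa y hya
      have hI : ∃ I : Set Cardinal.{u}, I.Nonempty ∧ (∀ μ ∈ I, l ≤ μ ∧ μ < κ) ∧
          A = ⋃ μ ∈ I, B μ := by
        refine ⟨{μ | (l ≤ μ ∧ μ < κ) ∧ B μ ⊆ A}, ?_, fun μ hμ => hμ.1, ?_⟩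
        · obtain ⟨a, ha⟩ := hne
          obtain ⟨I, ⟨μ, hμ⟩, hI1, hI2⟩ := a.2.1
          refine ⟨μ, hI1 μ hμ, fun x hx => hsubA a ha ?_⟩
          rw [hI2]
          exact Set.mem_biUnion hμ hx
        · apply Set.Subset.antisymm
          · intro x hx
            obtain ⟨a, ha, hxa, -⟩ := hpair x hx x hx
            obtain ⟨I, -, hI1, hI2⟩ := a.2.1
            have hxa' := hxa
            rw [hI2] at hxa'
            simp only [Set.mem_iUnion] at hxa'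
            obtain ⟨μ, hμ, hxμ⟩ := hxa'
            refine Set.mem_biUnion (x := μ) ⟨hI1 μ hμ, fun y hy => hsubA a ha ?_⟩ hxμ
            rw [hI2]
            exact Set.mem_biUnion hμ hy
          · intro x hx
            simp only [Set.mem_iUnion] at hx
            obtain ⟨μ, hμ, hxμ⟩ := hx
            exact hμ.2 hxμ
      exact ⟨⟨(A, c), hI, hsp⟩, fun a ha => ⟨hsubA a ha, fun x hx => hcc a ha x hx⟩⟩
    · obtain ⟨c₀, hc₀⟩ := h0
      refine ⟨⟨(B l, c₀), ⟨{l}, Set.singleton_nonempty l, ?_, ?_⟩, hc₀⟩, fun a ha => absurd ⟨a, ha⟩ hne⟩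
      · intro μ hμ
        rw [Set.mem_singleton_iff.1 hμ]
        exact ⟨le_rfl, hlκ⟩
      · simp
  obtain ⟨m, hm⟩ := exists_maximal_of_chains_bounded hchain htrans
  obtain ⟨⟨A, c⟩, ⟨I, hIne, hI1, hI2⟩, hsp⟩ := m
  simp only at hI2 hsp
  have hAT : A ⊆ T := by
    rw [hI2]
    intro x hx
    simp only [Set.mem_iUnion] at hx
    obtain ⟨μ, hμ, hxμ⟩ := hx
    exact hBT μ (hI1 μ hμ).1 (hI1 μ hμ).2 hxμ
  by_cases hall : T ⊆ A
  · have : A = T := Set.Subset.antisymm hAT hall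
    exact ⟨c, this ▸ hsp⟩
  · exfalso
    -- the least `ν` with `B ν` not contained in `A`
    have hex : {ν | l ≤ ν ∧ ν < κ ∧ ¬ B ν ⊆ A}.Nonempty := by
      obtain ⟨p, hp, hpA⟩ := Set.not_subset.1 hall
      obtain ⟨μ, h1, h2, h3⟩ := hcover p hp
      exact ⟨μ, h1, h2, fun h => hpA (h h3)⟩
    obtain ⟨ν, ⟨hν1, hν2, hν3⟩, hmin⟩ := WellFounded.has_min
      (wellFounded_lt : WellFounded ((· < ·) : Cardinal.{u} → Cardinal.{u} → Prop)) _ hex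
    have hbelow : ∀ μ, l ≤ μ → μ < ν → B μ ⊆ A := by
      intro μ h1 h2
      by_contra h3
      exact hmin μ ⟨h1, lt_trans h2 hν2, h3⟩ h2
    have hBA : ∀ μ ∈ I, B μ ⊆ A := fun μ hμ x hx => by
      rw [hI2]
      exact Set.mem_biUnion hμ hx
    have hIlt : ∀ μ ∈ I, μ < ν := by
      intro μ hμ
      by_contra h
      push Not at h
      exact hν3 ((hmono ν μ hν1 h (hI1 μ hμ).2).trans (hBA μ hμ))
    have hlν : l < ν := by
      obtain ⟨μ, hμ⟩ := hIne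
      exact lt_of_le_of_lt (hI1 μ hμ).1 (hIlt μ hμ)
    have hnl : ∃ μ, μ < ν ∧ ν ≤ Order.succ μ := by
      by_contra h
      push Not at h
      apply hν3
      intro p hp
      obtain ⟨μ, h1, h2, h3⟩ := hcont ν hlν hν2 h p hp
      exact hbelow μ h1 h2 h3
    obtain ⟨μ, hμν, hμs⟩ := hnl
    have hνs : ν = Order.succ μ := le_antisymm hμs (Order.succ_le_of_lt hμν)
    have hlμ : l ≤ μ := by
      have : l < Order.succ μ := hνs ▸ hlν
      exact Order.le_of_lt_succ this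
    have hμκ : μ < κ := lt_trans hμν hν2
    have hAB : A = B μ := by
      apply Set.Subset.antisymm
      · rw [hI2]
        intro x hx
        simp only [Set.mem_iUnion] at hx
        obtain ⟨ρ, hρ, hxρ⟩ := hx
        have h1 : ρ < Order.succ μ := hνs ▸ hIlt ρ hρ
        exact hmono ρ μ (hI1 ρ hρ).1 (Order.le_of_lt_succ h1) hμκ hxρ
      · exact hbelow μ hlμ hμν
    obtain ⟨c', hc', hcc'⟩ := hstep μ hlμ hμκ c (hAB ▸ hsp)
    have h1 := hm ⟨(B (Order.succ μ), c'), ⟨{Order.succ μ}, Set.singleton_nonempty _, by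
      intro ρ hρ
      rw [Set.mem_singleton_iff.1 hρ]
      exact ⟨hlμ.trans (Order.le_succ μ), hlim μ hμκ⟩, by simp⟩, hc'⟩ ⟨
        hAB.subset.trans (hmono μ _ hlμ (Order.le_succ μ) (hlim μ hμκ)),
        fun x hx => hcc' x (hAB.subset hx)⟩
    exact hν3 (hνs ▸ h1.1)

/-- Theorem S -/
theorem sing_spine {w : ℕ} (hw : FW P w) {κ : Cardinal.{u}} (hκ : ℵ₀ < κ)
    (hlim : ∀ μ < κ, Order.succ μ < κ) {T : Set P} {o : P} (ho : o ∈ T)
    (hT1 : ∀ q ∈ T, ∀ q' ∈ T, q < q' → #{x | x ∈ T ∧ q < x ∧ x < q'} < κ)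
    (hT2 : ∀ q ∈ T, #(Inc q ∩ T : Set P) < κ)
    (IH : ∀ A : Set P, #A < κ → ∃ c, IsSp A c) : ∃ c, IsSp T c := by
  classical
  obtain ⟨l₁, V, Q, hl₁, h⟩ : ∃ (l₁ : Cardinal.{u}) (V Q : Cardinal.{u} → Set P), l₁ < κ ∧
      Side (· < ·) T o κ l₁ V Q := by
    by_cases hup : κ ≤ #{p | p ∈ T ∧ o < p}
    · obtain ⟨V, Q, h⟩ := exists_side_up hw hκ hlim ho hT1 hT2 hup
      exact ⟨ℵ₀, V, Q, hκ, h⟩
    · push Not at hup
      exact ⟨_, _, _, hlim _ hup, side_trivial (· < ·) ho (hlim _ hup) (Order.lt_succ _)⟩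
  obtain ⟨l₂, V', Q', hl₂, h'⟩ : ∃ (l₂ : Cardinal.{u}) (V Q : Cardinal.{u} → Set P), l₂ < κ ∧
      Side (fun x y : P => y < x) T o κ l₂ V Q := by
    by_cases hdn : κ ≤ #{p | p ∈ T ∧ p < o}
    · obtain ⟨V, Q, h⟩ := exists_side_dn hw hκ hlim ho hT1 hT2 hdn
      exact ⟨ℵ₀, V, Q, hκ, h⟩
    · push Not at hdn
      exact ⟨_, _, _, hlim _ hdn, side_trivial (fun x y : P => y < x) ho (hlim _ hdn)
        (Order.lt_succ _)⟩
  set l := max (max l₁ l₂) (max ℵ₀ (Order.succ #(Inc o ∩ T : Set P))) with hl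
  have hlκ : l < κ := max_lt (max_lt hl₁ hl₂) (max_lt hκ (hlim _ (hT2 o ho)))
  have hl0 : ℵ₀ ≤ l := (le_max_left _ _).trans (le_max_right _ _)
  have hoT : #(Inc o ∩ T : Set P) < l := lt_of_lt_of_le (Order.lt_succ _)
    ((le_max_right _ _).trans (le_max_right _ _))
  have hs := h.raise ((le_max_left _ _).trans (le_max_left _ _) : l₁ ≤ l) hlκ
  have hs' := h'.raise ((le_max_right _ _).trans (le_max_left _ _) : l₂ ≤ l) hlκ
  refine union_filtration hlκ hlim (fun μ => V μ ∩ V' μ) ?_ ?_ ?_ ?_ ?_ ?_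
  · intro μ h1 h2 p hp
    exact hs.sub μ h1 h2 hp.1
  · intro μ ν h1 h2 h3 p hp
    exact ⟨hs.mono μ ν h1 h2 h3 hp.1, hs'.mono μ ν h1 h2 h3 hp.2⟩
  · intro μ h1 h2 h3 p hp
    obtain ⟨ν, a1, a2, a3⟩ := hs.cont μ h1 h2 h3 p hp.1
    obtain ⟨ν', b1, b2, b3⟩ := hs'.cont μ h1 h2 h3 p hp.2
    have hmx : max ν ν' < μ := max_lt a2 b2
    exact ⟨max ν ν', a1.trans (le_max_left _ _), hmx,
      hs.mono ν _ a1 (le_max_left _ _) (lt_trans hmx h2) a3,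
      hs'.mono ν' _ b1 (le_max_right _ _) (lt_trans hmx h2) b3⟩
  · intro p hp
    obtain ⟨ν, a1, a2, a3⟩ := hs.cover p hp
    obtain ⟨ν', b1, b2, b3⟩ := hs'.cover p hp
    have hmx : max ν ν' < κ := max_lt a2 b2
    exact ⟨max ν ν', a1.trans (le_max_left _ _), hmx,
      hs.mono ν _ a1 (le_max_left _ _) hmx a3, hs'.mono ν' _ b1 (le_max_right _ _) hmx b3⟩
  · apply IH
    have hsub : V l ∩ V' l ⊆ ({p | p ∈ V l ∧ o < p} ∪ {p | p ∈ V' l ∧ p < o}) ∪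
        ((Inc o ∩ T) ∪ {o}) := by
      intro p hp
      by_cases hpo : p = o
      · exact Or.inr (Or.inr hpo)
      · by_cases h3 : o ≤ p
        · exact Or.inl (Or.inl ⟨hp.1, lt_of_le_of_ne h3 (Ne.symm hpo)⟩)
        · by_cases h4 : p ≤ o
          · exact Or.inl (Or.inr ⟨hp.2, lt_of_le_of_ne h4 hpo⟩)
          · exact Or.inr (Or.inl ⟨⟨h4, h3⟩, hs.sub l le_rfl hlκ hp.1⟩)
    refine lt_of_le_of_lt (Cardinal.mk_le_mk_of_subset hsub) ?_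
    refine lt_of_le_of_lt (Cardinal.mk_union_le _ _) (Cardinal.add_lt_of_lt hκ.le ?_ ?_)
    · exact lt_of_le_of_lt (Cardinal.mk_union_le _ _) (Cardinal.add_lt_of_lt hκ.le
        (lt_of_le_of_lt (hs.card l le_rfl hlκ) hlκ) (lt_of_le_of_lt (hs'.card l le_rfl hlκ) hlκ))
    · exact lt_of_le_of_lt (Cardinal.mk_union_le _ _) (Cardinal.add_lt_of_lt hκ.le
        (hT2 o ho) (card_singleton_lt hκ.le o))
  · intro μ h1 h2 c hc
    exact step_sides hw hl0 hlim hoT hs hs' IH μ h1 h2 c hc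

end Pool.Agent.TH537.Spine
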