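import Pool.Agent.TH537.Spine.First

set_option autoImplicit false

/-!
# Threads of first ends
-/

namespace Pool.Agent.TH537.Spine

open Cardinal Filter

universe u v v'

/-- compactness for threads -/
theorem exists_thread {ι : Type v} [LinearOrder ι] {E : Type v'} (e₀ : E) (I : Set ι)
    (F : ι → Set E) (hfin : ∀ i ∈ I, (F i).Finite) (R : E → E → Prop)
    (htr : ∀ a b c, R a b → R b c → R a c) (hne : ∀ i ∈ I, (F i).Nonempty)
    (hdown : ∀ i ∈ I, ∀ j ∈ I, i < j → ∀ b ∈ F j, ∃ a ∈ F i, R a b)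
    (S : ι → ι → Prop) (hS : ∀ i ∈ I, ∀ j ∈ I, S i j → i < j ∧ ∀ k ∈ I, i < k → j ≤ k)
    (π : ι → E → E)
    (hπ : ∀ i ∈ I, ∀ j ∈ I, S i j → ∀ b ∈ F j, π i b ∈ F i ∧ R (π i b) b) :
    ∃ a : ι → E, (∀ i ∈ I, a i ∈ F i) ∧ (∀ i ∈ I, ∀ j ∈ I, i < j → R (a i) (a j)) ∧
      (∀ i ∈ I, ∀ j ∈ I, S i j → a i = π i (a j)) := by
  classical
  have hfinite : ∀ s : Finset ι, (∀ i ∈ s, i ∈ I) → ∃ a : ι → E, (∀ i ∈ s, a i ∈ F i) ∧
      (∀ i ∈ s, ∀ j ∈ s, i < j → R (a i) (a j)) ∧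
      (∀ i ∈ s, ∀ j ∈ s, S i j → a i = π i (a j)) := by
    intro s
    induction s using Finset.induction_on_min with
    | empty => exact fun _ => ⟨fun _ => e₀, by simp, by simp, by simp⟩
    | insert i s his ih =>
      intro hI
      obtain ⟨a, ha1, ha2, ha3⟩ := ih (fun j hj => hI j (Finset.mem_insert_of_mem hj))
      have hiI : i ∈ I := hI i (Finset.mem_insert_self _ _)
      have hins : i ∉ s := fun h => lt_irrefl _ (his i h)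
      -- the new value
      obtain ⟨x, hx1, hx2, hx3⟩ : ∃ x ∈ F i, (∀ j ∈ s, R x (a j)) ∧
          (∀ j ∈ s, S i j → x = π i (a j)) := by
        by_cases hs : s.Nonempty
        · have hm := s.min'_mem hs
          have hmI : s.min' hs ∈ I := hI _ (Finset.mem_insert_of_mem hm)
          have him : i < s.min' hs := his _ hm
          have hR : ∀ x, R x (a (s.min' hs)) → ∀ j ∈ s, R x (a j) := by
            intro x hx j hj
            rcases eq_or_lt_of_le (s.min'_le j hj) with h | h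
            · rw [← h]; exact hx
            · exact htr _ _ _ hx (ha2 _ hm j hj h)
          have hSm : ∀ j ∈ s, S i j → j = s.min' hs := by
            intro j hj hij
            exact le_antisymm ((hS i hiI j (hI j (Finset.mem_insert_of_mem hj)) hij).2 _ hmI him)
              (s.min'_le j hj)
          by_cases hSi : S i (s.min' hs)
          · obtain ⟨h1, h2⟩ := hπ i hiI _ hmI hSi _ (ha1 _ hm)
            refine ⟨_, h1, hR _ h2, fun j hj hij => ?_⟩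
            rw [hSm j hj hij]
          · obtain ⟨x, hx, hxR⟩ := hdown i hiI _ hmI him _ (ha1 _ hm)
            refine ⟨x, hx, hR _ hxR, fun j hj hij => ?_⟩
            exact absurd (hSm j hj hij ▸ hij) hSi
        · obtain ⟨x, hx⟩ := hne i hiI
          refine ⟨x, hx, fun j hj => absurd ⟨j, hj⟩ hs, fun j hj => absurd ⟨j, hj⟩ hs⟩
      have hself : Function.update a i x i = x := Function.update_self _ _ _
      have hoth : ∀ j ∈ s, Function.update a i x j = a j := fun j hj =>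
        Function.update_of_ne (show j ≠ i from fun h => hins (h ▸ hj)) _ _
      refine ⟨Function.update a i x, ?_, ?_, ?_⟩
      · intro j hj
        rcases Finset.mem_insert.1 hj with rfl | hj
        · rw [hself]; exact hx1
        · rw [hoth j hj]; exact ha1 j hj
      · intro j hj k hk hjk
        rcases Finset.mem_insert.1 hj with h1 | h1 <;> rcases Finset.mem_insert.1 hk with h2 | h2
        · rw [h1, h2] at hjk; exact absurd hjk (lt_irrefl _)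
        · rw [h1, hself, hoth k h2]; exact hx2 k h2
        · rw [h2] at hjk; exact absurd (his j h1) (not_lt.2 hjk.le)
        · rw [hoth j h1, hoth k h2]; exact ha2 j h1 k h2 hjk
      · intro j hj k hk hjk
        have hlt := (hS j (hI j hj) k (hI k hk) hjk).1
        rcases Finset.mem_insert.1 hj with h1 | h1 <;> rcases Finset.mem_insert.1 hk with h2 | h2
        · rw [h1, h2] at hlt; exact absurd hlt (lt_irrefl _)
        · subst h1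
          rw [hself, hoth k h2]; exact hx3 k h2 hjk
        · rw [h2] at hlt; exact absurd (his j h1) (not_lt.2 hlt.le)
        · rw [hoth j h1, hoth k h2]; exact ha3 j h1 k h2 hjk
  have hf : ∀ s : Finset ι, ∃ a : ι → E, (∀ i ∈ s.filter (· ∈ I), a i ∈ F i) ∧
      (∀ i ∈ s.filter (· ∈ I), ∀ j ∈ s.filter (· ∈ I), i < j → R (a i) (a j)) ∧
      (∀ i ∈ s.filter (· ∈ I), ∀ j ∈ s.filter (· ∈ I), S i j → a i = π i (a j)) :=
    fun s => hfinite _ (fun i hi => (Finset.mem_filter.1 hi).2)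
  choose f hf1 hf2 hf3 using hf
  let U : Ultrafilter (Finset ι) := Ultrafilter.of atTop
  have hU : ∀ i ∈ I, ∀ᶠ s in (U : Filter (Finset ι)), i ∈ Finset.filter (· ∈ I) s := by
    intro i hi
    have : ∀ᶠ s in (atTop : Filter (Finset ι)), i ∈ Finset.filter (· ∈ I) s := by
      filter_upwards [eventually_ge_atTop ({i} : Finset ι)] with s hs
      exact Finset.mem_filter.2 ⟨hs (Finset.mem_singleton_self i), hi⟩
    exact (Ultrafilter.of_le atTop) this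
  have hlim : ∀ i ∈ I, ∃ t ∈ F i, ∀ᶠ s in (U : Filter (Finset ι)), f s i = t := by
    intro i hi
    rw [← Ultrafilter.eventually_exists_mem_iff (hfin i hi)]
    filter_upwards [hU i hi] with s hs
    exact ⟨f s i, hf1 s i hs, rfl⟩
  have hlim' : ∀ i, ∃ t, i ∈ I → t ∈ F i ∧ ∀ᶠ s in (U : Filter (Finset ι)), f s i = t := by
    intro i
    by_cases hi : i ∈ I
    · obtain ⟨t, ht1, ht2⟩ := hlim i hi
      exact ⟨t, fun _ => ⟨ht1, ht2⟩⟩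
    · exact ⟨e₀, fun h => absurd h hi⟩
  choose a ha using hlim'
  refine ⟨a, fun i hi => (ha i hi).1, ?_, ?_⟩
  · intro i hi j hj hij
    obtain ⟨s, ⟨⟨h1, h2⟩, h3⟩, h4⟩ :=
      ((((ha i hi).2.and (ha j hj).2).and (hU i hi)).and (hU j hj)).exists
    rw [← h1, ← h2]
    exact hf2 s i h3 j h4 hij
  · intro i hi j hj hij
    obtain ⟨s, ⟨⟨h1, h2⟩, h3⟩, h4⟩ :=
      ((((ha i hi).2.and (ha j hj).2).and (hU i hi)).and (hU j hj)).exists
    rw [← h1, ← h2]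
    exact hf3 s i h3 j h4 hij

variable {P : Type u} [PartialOrder P]

/-- one side of a filtration -/
structure Side (r : P → P → Prop) (T : Set P) (o : P) (κ l₀ : Cardinal.{u})
    (V Q : Cardinal.{u} → Set P) : Prop where
  sub : ∀ μ, l₀ ≤ μ → μ < κ → V μ ⊆ T
  omem : ∀ μ, l₀ ≤ μ → μ < κ → o ∈ V μ
  lower : ∀ μ, l₀ ≤ μ → μ < κ → ∀ p ∈ V μ, ∀ q ∈ T, r q p → q ∈ V μ
  mono : ∀ μ ν, l₀ ≤ μ → μ ≤ ν → ν < κ → V μ ⊆ V ν
  cont : ∀ μ, l₀ < μ → μ < κ → (∀ ν < μ, Order.succ ν < μ) → ∀ p ∈ V μ,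
    ∃ ν, l₀ ≤ ν ∧ ν < μ ∧ p ∈ V ν
  cover : ∀ p ∈ T, ∃ μ, l₀ ≤ μ ∧ μ < κ ∧ p ∈ V μ
  card : ∀ μ, l₀ ≤ μ → μ < κ → #{p | p ∈ V μ ∧ r o p} ≤ μ
  inc : ∀ μ, l₀ ≤ μ → μ < κ → ∀ q ∈ V μ, #{p | (p ∈ V μ ∧ r o p) ∧ p ∈ Inc q} < μ
  q1 : ∀ μ, l₀ ≤ μ → μ < κ → V μ ⊆ Q μ
  q2 : ∀ μ, l₀ ≤ μ → μ < κ → Q μ ⊆ V (Order.succ μ)
  q3 : ∀ μ, l₀ ≤ μ → μ < κ → ∀ q ∈ Q μ, q ∉ V μ → ∀ p ∈ V μ, r p q
  q4 : ∀ μ, l₀ ≤ μ → μ < κ → ∀ q ∈ Q μ, #{p | (p ∈ Q μ ∧ r o p) ∧ p ∈ Inc q} < μ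
  q5 : ∀ μ, l₀ ≤ μ → μ < κ → ∀ x ∈ V (Order.succ μ), x ∉ Q μ →
    μ ≤ #{p | (p ∈ Q μ ∧ r o p) ∧ p ∈ Inc x}

theorem Side.raise {r : P → P → Prop} {T : Set P} {o : P} {κ l₀ l₁ : Cardinal.{u}}
    {V Q : Cardinal.{u} → Set P} (h : Side r T o κ l₀ V Q) (h01 : l₀ ≤ l₁) (h1 : l₁ < κ) :
    Side r T o κ l₁ V Q where
  sub := fun μ hμ => h.sub μ (h01.trans hμ)
  omem := fun μ hμ => h.omem μ (h01.trans hμ)
  lower := fun μ hμ => h.lower μ (h01.trans hμ)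
  mono := fun μ ν hμ => h.mono μ ν (h01.trans hμ)
  cont := fun μ hμ hμκ hlim p hp => by
    obtain ⟨ν, hν1, hν2, hν3⟩ := h.cont μ (lt_of_le_of_lt h01 hμ) hμκ hlim p hp
    exact ⟨max ν l₁, le_max_right _ _, max_lt hν2 hμ, h.mono ν _ hν1 (le_max_left _ _)
      (lt_trans (max_lt hν2 hμ) hμκ) hν3⟩
  cover := fun p hp => by
    obtain ⟨ν, hν1, hν2, hν3⟩ := h.cover p hp
    exact ⟨max ν l₁, le_max_right _ _, max_lt hν2 h1, h.mono ν _ hν1 (le_max_left _ _)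
      (max_lt hν2 h1) hν3⟩
  card := fun μ hμ => h.card μ (h01.trans hμ)
  inc := fun μ hμ => h.inc μ (h01.trans hμ)
  q1 := fun μ hμ => h.q1 μ (h01.trans hμ)
  q2 := fun μ hμ => h.q2 μ (h01.trans hμ)
  q3 := fun μ hμ => h.q3 μ (h01.trans hμ)
  q4 := fun μ hμ => h.q4 μ (h01.trans hμ)
  q5 := fun μ hμ => h.q5 μ (h01.trans hμ)

open End

theorem le_card_inc {T : Set P} {o : P} {μ : Cardinal.{u}} {e b : End P} (he : e ∈ HH T o μ)
    (ht : ∃ t ∈ e.S, ∀ x ∈ e.tail t, x ∈ b.L) {p : P} (h1 : p ∉ e.L) (h2 : p ∉ e.U) :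
    μ ≤ #{x | x ∈ BB T o b ∧ x ∈ Inc p} := by
  obtain ⟨s, hs, hinc⟩ := tail_inc h1 h2
  refine (EB_BB he ht s hs).trans (Cardinal.mk_le_mk_of_subset ?_)
  rintro x ⟨hx, hxs⟩
  exact ⟨hx, hinc x hxs⟩

/-- the trivial side -/
theorem side_trivial (r : P → P → Prop) {T : Set P} {o : P} (ho : o ∈ T) {κ l₀ : Cardinal.{u}}
    (hl : l₀ < κ) (h : #{p | p ∈ T ∧ r o p} < l₀) : Side r T o κ l₀ (fun _ => T) (fun _ => T) where
  sub := fun _ _ _ => le_rfl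
  omem := fun _ _ _ => ho
  lower := fun _ _ _ _ _ _ hq _ => hq
  mono := fun _ _ _ _ _ => le_rfl
  cont := fun μ hμ _ _ p hp => ⟨l₀, le_rfl, hμ, hp⟩
  cover := fun p hp => ⟨l₀, le_rfl, hl, hp⟩
  card := fun μ hμ _ => h.le.trans hμ
  inc := fun μ hμ _ q _ => lt_of_lt_of_le (lt_of_le_of_lt
    (Cardinal.mk_le_mk_of_subset (fun x hx => hx.1)) h) hμ
  q1 := fun _ _ _ => le_rfl
  q2 := fun _ _ _ => le_rfl
  q3 := fun _ _ _ q hq hn => absurd hq hn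
  q4 := fun μ hμ _ q _ => lt_of_lt_of_le (lt_of_le_of_lt
    (Cardinal.mk_le_mk_of_subset (fun x hx => hx.1)) h) hμ
  q5 := fun _ _ _ x hx hn => absurd hx hn

/-- the upper side -/
theorem exists_side_up {w : ℕ} (hw : FW P w) {κ : Cardinal.{u}} (hκ : ℵ₀ < κ)
    (hlim : ∀ μ < κ, Order.succ μ < κ) {T : Set P} {o : P} (ho : o ∈ T)
    (hT1 : ∀ q ∈ T, ∀ q' ∈ T, q < q' → #{x | x ∈ T ∧ q < x ∧ x < q'} < κ)
    (hT2 : ∀ q ∈ T, #(Inc q ∩ T : Set P) < κ) (hup : κ ≤ #{p | p ∈ T ∧ o < p}) :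
    ∃ V Q, Side (· < ·) T o κ ℵ₀ V Q := by
  classical
  -- one-step data
  have hstep : ∀ (μ : Cardinal.{u}) (b : End P), ∃ (K : Set (End P)) (a : End P),
      ℵ₀ ≤ μ → b ∈ FS T o (Order.succ μ) →
      (IsK μ (BB T o b) K ∧ a ∈ FS T o μ ∧ (a = b ∨ slt a b) ∧
      (∀ k ∈ K, k = a ∨ slt a k) ∧ (a ∈ K ∨ (K = ∅ ∧ a = b))) := by
    intro μ b
    by_cases h : ℵ₀ ≤ μ ∧ b ∈ FS T o (Order.succ μ)
    · obtain ⟨K, a, h1⟩ := exists_step hw h.1 h.2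
      exact ⟨K, a, fun _ _ => h1⟩
    · exact ⟨∅, b, fun h1 h2 => absurd ⟨h1, h2⟩ h⟩
  choose Kf π hKπ using hstep
  have hHne : ∀ μ, ℵ₀ ≤ μ → μ < κ → (HH T o μ).Nonempty := by
    intro μ hμ hμκ
    obtain ⟨e, he⟩ := exists_end hw hμ _ (hμκ.le.trans hup)
    exact ⟨e, EB_mono (fun y hy => hy.1) he, EB_lower hμ he (fun y hy => hy.2)⟩
  have hFne : ∀ μ, ℵ₀ ≤ μ → μ < κ → (FS T o μ).Nonempty := by
    intro μ hμ hμκ
    obtain ⟨e, he⟩ := hHne (Order.succ μ) (hμ.trans (Order.le_succ μ)) (hlim μ hμκ)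
    obtain ⟨a, ha, -⟩ := exists_FS_below hw hμ (Order.lt_succ μ) he
    exact ⟨a, ha⟩
  obtain ⟨e₀, -⟩ := hHne ℵ₀ le_rfl hκ
  obtain ⟨a, ha1, ha2, ha3⟩ := exists_thread (ι := Cardinal.{u}) e₀
    {μ : Cardinal.{u} | ℵ₀ ≤ μ ∧ μ < κ}
    (FS T o) (fun μ _ => FS_finite hw) (fun x y => x = y ∨ slt x y)
    (by
      rintro x y z (rfl | h1) (rfl | h2)
      · exact Or.inl rfl
      · exact Or.inr h2
      · exact Or.inr h1
      · exact Or.inr (slt_trans h1 h2))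
    (fun μ hμ => hFne μ hμ.1 hμ.2)
    (fun μ hμ ν _ hμν b hb => exists_FS_below hw hμ.1 hμν hb.1.1)
    (fun μ ν => ν = Order.succ μ)
    (by
      rintro μ _ ν _ rfl
      exact ⟨Order.lt_succ μ, fun k _ hk => Order.succ_le_of_lt hk⟩)
    π
    (by
      rintro μ hμ ν _ rfl b hb
      exact ⟨(hKπ μ b hμ.1 hb).2.1, (hKπ μ b hμ.1 hb).2.2.1⟩)
  have hFSa : ∀ μ, ℵ₀ ≤ μ → μ < κ → a μ ∈ FS T o μ := fun μ h1 h2 => ha1 μ ⟨h1, h2⟩
  have hsκ : ∀ μ, μ < κ → Order.succ μ < κ := hlim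
  have hs0 : ∀ μ : Cardinal.{u}, ℵ₀ ≤ μ → ℵ₀ ≤ Order.succ μ := fun μ h => h.trans (Order.le_succ μ)
  -- step data along the thread
  have hst : ∀ μ, ℵ₀ ≤ μ → μ < κ →
      IsK μ (BB T o (a (Order.succ μ))) (Kf μ (a (Order.succ μ))) ∧
      (a μ = a (Order.succ μ) ∨ slt (a μ) (a (Order.succ μ))) ∧
      (∀ k ∈ Kf μ (a (Order.succ μ)), k = a μ ∨ slt (a μ) k) ∧
      (a μ ∈ Kf μ (a (Order.succ μ)) ∨
        (Kf μ (a (Order.succ μ)) = ∅ ∧ a μ = a (Order.succ μ))) := by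
    intro μ h1 h2
    have hb := hFSa (Order.succ μ) (hs0 μ h1) (hsκ μ h2)
    obtain ⟨c1, c2, c3, c4, c5⟩ := hKπ μ (a (Order.succ μ)) h1 hb
    have heq : a μ = π μ (a (Order.succ μ)) :=
      ha3 μ ⟨h1, h2⟩ (Order.succ μ) ⟨hs0 μ h1, hsκ μ h2⟩ rfl
    rw [← heq] at c2 c3 c4 c5
    exact ⟨c1, c3, c4, c5⟩
  have hoL : ∀ μ, ℵ₀ ≤ μ → μ < κ → o ∈ (a μ).L := fun μ h1 h2 => (hFSa μ h1 h2).1.1.2
  have hmono : ∀ μ ν, ℵ₀ ≤ μ → μ ≤ ν → ν < κ → (a μ).L ⊆ (a ν).L := by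
    intro μ ν h1 h2 h3 p hp
    rcases eq_or_lt_of_le h2 with rfl | h4
    · exact hp
    · rcases ha2 μ ⟨h1, lt_of_le_of_lt h2 h3⟩ ν ⟨h1.trans h2, h3⟩ h4 with h | h
      · exact h ▸ hp
      · exact L_of_slt h hp
  have hmonoU : ∀ μ ν, ℵ₀ ≤ μ → μ ≤ ν → ν < κ → (a ν).U ⊆ (a μ).U := by
    intro μ ν h1 h2 h3 p hp
    rcases eq_or_lt_of_le h2 with rfl | h4
    · exact hp
    · rcases ha2 μ ⟨h1, lt_of_le_of_lt h2 h3⟩ ν ⟨h1.trans h2, h3⟩ h4 with h | h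
      · exact h ▸ hp
      · exact U_of_slt h hp
  have hbetween : ∀ μ, ℵ₀ ≤ μ → μ < κ → ∀ p, p ∈ (a μ).U →
      μ ≤ #{x | x ∈ T ∧ o < x ∧ x < p} := by
    intro μ h1 h2 p hp
    obtain ⟨s, hs, hs1⟩ := tail_gt (hoL μ h1 h2)
    obtain ⟨t, ht, ht1⟩ := tail_lt hp
    obtain ⟨r, hr, hr1, hr2⟩ := exists_bound2 (a μ) hs ht
    refine ((hFSa μ h1 h2).1.1.1 r hr).trans (Cardinal.mk_le_mk_of_subset ?_)
    rintro x ⟨hx, hxr⟩
    exact ⟨hx, hs1 x (tail_trans hr1 hxr), ht1 x (tail_trans hr2 hxr)⟩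
  refine ⟨fun μ => T ∩ (a μ).L, fun μ => {q | q ∈ T ∧ q ∈ (a (Order.succ μ)).L ∧
    ∀ k ∈ Kf μ (a (Order.succ μ)), q ∈ k.L ∨ q ∈ k.U}, ?_⟩
  -- points of `Q μ` above `o`
  have hQK : ∀ μ, {p | p ∈ {q | q ∈ T ∧ q ∈ (a (Order.succ μ)).L ∧
      ∀ k ∈ Kf μ (a (Order.succ μ)), q ∈ k.L ∨ q ∈ k.U} ∧ o < p} =
      QK (Kf μ (a (Order.succ μ))) (BB T o (a (Order.succ μ))) := by
    intro μ
    ext p
    exact ⟨fun h => ⟨⟨h.1.1, h.2, h.1.2.1⟩, h.1.2.2⟩, fun h => ⟨⟨h.1.1, h.1.2.2, h.2⟩, h.1.2.1⟩⟩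
  constructor
  · intro μ _ _ p hp
    exact hp.1
  · intro μ h1 h2
    exact ⟨ho, hoL μ h1 h2⟩
  · intro μ h1 h2 p hp q hq hqp
    exact ⟨hq, L_lower hp.2 (le_of_lt hqp)⟩
  · intro μ ν h1 h2 h3 p hp
    exact ⟨hp.1, hmono μ ν h1 h2 h3 hp.2⟩
  · -- continuity
    intro μ h1 h2 hμl p hp
    by_contra hcon
    push Not at hcon
    have hnL : ∀ ν, ℵ₀ ≤ ν → ν < μ → p ∉ (a ν).L := fun ν h3 h4 h5 => hcon ν h3 h4 ⟨hp.1, h5⟩
    by_cases hA : ∀ ν, ℵ₀ ≤ ν → ν < μ → p ∈ (a ν).U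
    · have hbig : μ ≤ #{x | x ∈ T ∧ o < x ∧ x < p} := by
        by_contra hlt
        push Not at hlt
        have h3 : max ℵ₀ (Order.succ #{x | x ∈ T ∧ o < x ∧ x < p}) < μ :=
          max_lt h1 (hμl _ hlt)
        have h4 := hbetween _ (le_max_left _ _) (lt_trans h3 h2) p (hA _ (le_max_left _ _) h3)
        exact absurd ((le_max_right _ _).trans h4) (not_le.2 (Order.lt_succ _))
      obtain ⟨e, he⟩ := exists_end hw h1.le _ hbig
      have heH : e ∈ HH T o μ := ⟨EB_mono (fun y hy => hy.1) he,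
        EB_lower h1.le he (fun y hy => hy.2.1)⟩
      exact (hFSa μ h1.le h2).1.2 e heH
        (slt_of_mem (EB_upper h1.le he (fun y hy => hy.2.2)) hp.2)
    · push Not at hA
      obtain ⟨ν₁, hν1, hν2, hν3⟩ := hA
      have hX := FS_inc hw h1.le (hFSa μ h1.le h2) hp.2
      have h3 : max ν₁ (Order.succ #{x | x ∈ BB T o (a μ) ∧ x ∈ Inc p}) < μ :=
        max_lt hν2 (hμl _ hX)
      set ν := max ν₁ (Order.succ #{x | x ∈ BB T o (a μ) ∧ x ∈ Inc p}) with hν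
      have hν0 : ℵ₀ ≤ ν := hν1.trans (le_max_left _ _)
      have h4 : p ∉ (a ν).U := fun h => hν3
        (hmonoU ν₁ ν hν1 (le_max_left _ _) (lt_trans h3 h2) h)
      have h5 := hnL ν hν0 h3
      have h6 : slt (a ν) (a μ) := by
        rcases ha2 ν ⟨hν0, lt_trans h3 h2⟩ μ ⟨h1.le, h2⟩ h3 with h | h
        · exact absurd (h ▸ hp.2) h5
        · exact h
      have h7 := le_card_inc (hFSa ν hν0 (lt_trans h3 h2)).1.1 (tail_L_of_slt h6) h5 h4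
      exact absurd ((le_max_right _ _).trans h7) (not_le.2 (Order.lt_succ _))
  · -- cover
    intro p hp
    by_contra hcon
    push Not at hcon
    have hnL : ∀ ν, ℵ₀ ≤ ν → ν < κ → p ∉ (a ν).L := fun ν h3 h4 h5 => hcon ν h3 h4 ⟨hp, h5⟩
    by_cases hA : ∀ ν, ℵ₀ ≤ ν → ν < κ → p ∈ (a ν).U
    · have hop : o < p := L_lt_U (hoL ℵ₀ le_rfl hκ) (hA ℵ₀ le_rfl hκ)
      have hX := hT1 o ho p hp hop
      have h3 : max ℵ₀ (Order.succ #{x | x ∈ T ∧ o < x ∧ x < p}) < κ := max_lt hκ (hlim _ hX)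
      have h4 := hbetween _ (le_max_left _ _) h3 p (hA _ (le_max_left _ _) h3)
      exact absurd ((le_max_right _ _).trans h4) (not_le.2 (Order.lt_succ _))
    · push Not at hA
      obtain ⟨ν₁, hν1, hν2, hν3⟩ := hA
      have hX := hT2 p hp
      have h3 : max ν₁ (Order.succ #(Inc p ∩ T : Set P)) < κ := max_lt hν2 (hlim _ hX)
      set ν := max ν₁ (Order.succ #(Inc p ∩ T : Set P)) with hν
      have hν0 : ℵ₀ ≤ ν := hν1.trans (le_max_left _ _)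
      have h4 : p ∉ (a ν).U := fun h => hν3 (hmonoU ν₁ ν hν1 (le_max_left _ _) h3 h)
      have h5 := hnL ν hν0 h3
      obtain ⟨s, hs, hinc⟩ := tail_inc h5 h4
      have h7 : ν ≤ #(Inc p ∩ T : Set P) := by
        refine ((hFSa ν hν0 h3).1.1.1 s hs).trans (Cardinal.mk_le_mk_of_subset ?_)
        rintro x ⟨hx, hxs⟩
        exact ⟨hinc x hxs, hx⟩
      exact absurd ((le_max_right _ _).trans h7) (not_le.2 (Order.lt_succ _))
  · -- card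
    intro μ h1 h2
    refine (Cardinal.mk_le_mk_of_subset ?_).trans (FF_card hw h1 (hFSa μ h1 h2).1)
    rintro p ⟨⟨hp1, hp2⟩, hp3⟩
    exact ⟨hp1, hp3, hp2⟩
  · -- inc
    intro μ h1 h2 q hq
    refine lt_of_le_of_lt (Cardinal.mk_le_mk_of_subset ?_) (FS_inc hw h1 (hFSa μ h1 h2) hq.2)
    rintro p ⟨⟨⟨hp1, hp2⟩, hp3⟩, hp4⟩
    exact ⟨⟨hp1, hp3, hp2⟩, hp4⟩
  · -- q1
    intro μ h1 h2 p hp
    obtain ⟨c1, c2, c3, c4⟩ := hst μ h1 h2
    refine ⟨hp.1, hmono μ _ h1 (Order.le_succ μ) (hsκ μ h2) hp.2, fun k hk => ?_⟩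
    rcases c3 k hk with h | h
    · exact Or.inl (h ▸ hp.2)
    · exact Or.inl (L_of_slt h hp.2)
  · -- q2
    intro μ h1 h2 p hp
    exact ⟨hp.1, hp.2.1⟩
  · -- q3
    intro μ h1 h2 q hq hqV p hp
    obtain ⟨c1, c2, c3, c4⟩ := hst μ h1 h2
    have hqL : q ∉ (a μ).L := fun h => hqV ⟨hq.1, h⟩
    rcases c4 with h | ⟨-, h⟩
    · rcases hq.2.2 _ h with h3 | h3
      · exact absurd h3 hqL
      · exact L_lt_U hp.2 h3
    · exact absurd (h ▸ hq.2.1) hqL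
  · -- q4
    intro μ h1 h2 q hq
    obtain ⟨c1, c2, c3, c4⟩ := hst μ h1 h2
    refine lt_of_le_of_lt (Cardinal.mk_le_mk_of_subset ?_) (c1.inc_lt hw h1 q hq.2.2)
    rintro p ⟨hp1, hp2⟩
    refine ⟨hp2, ?_⟩
    rw [← hQK μ]
    exact hp1
  · -- q5
    intro μ h1 h2 x hx hxQ
    obtain ⟨c1, c2, c3, c4⟩ := hst μ h1 h2
    have : ∃ k ∈ Kf μ (a (Order.succ μ)), x ∉ k.L ∧ x ∉ k.U := by
      by_contra h
      push Not at h
      exact hxQ ⟨hx.1, hx.2, fun k hk => by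
        by_cases h2 : x ∈ k.L
        · exact Or.inl h2
        · exact Or.inr (h k hk h2)⟩
    obtain ⟨k, hk, hk1, hk2⟩ := this
    refine (c1.le_inc hw h1 x hk hk1 hk2).trans (Cardinal.mk_le_mk_of_subset ?_)
    rintro p ⟨hp1, hp2⟩
    rw [← hQK μ] at hp2
    exact ⟨hp2, hp1⟩

end Pool.Agent.TH537.Spine
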